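import Pool.Agent.W2helper57.TU.Quad

set_option autoImplicit false

/-!
# Piecewise linear approximations and proximity
-/

namespace Pool.Agent.W2helper57.TU

open Finset

/-- the chord of `t ↦ q t² + h t` over the cell `[k s, (k + 1) s]` -/
def ln (q h s k t : ℤ) : ℤ := (q * s * (2 * k + 1) + h) * t - q * s ^ 2 * (k * (k + 1))

/-- the piecewise linear interpolation of `t ↦ q t² + h t` at the multiples of `s` -/
def ps (q h s t : ℤ) : ℤ := ln q h s (t / s) t

theorem div_bd {s : ℤ} (hs : 0 < s) (t : ℤ) : s * (t / s) ≤ t ∧ t + 1 ≤ s * (t / s) + s := by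
  have h1 := Int.mul_ediv_add_emod t s
  have h2 := Int.emod_nonneg t hs.ne'
  have h3 := Int.emod_lt_of_pos t hs
  constructor <;> linarith

theorem ln_le_ps {q h s : ℤ} (hq : 0 ≤ q) (hs : 0 < s) (k t : ℤ) : ln q h s k t ≤ ps q h s t := by
  unfold ps ln
  obtain ⟨h1, h2⟩ := div_bd hs t
  set u := t / s
  have h3 : 0 ≤ (q * s) * ((u - k) * (2 * t - s * (u + k + 1))) := by
    apply mul_nonneg (mul_nonneg hq hs.le)
    rcases lt_trichotomy u k with h | h | h
    · apply mul_nonneg_of_nonpos_of_nonpos (by omega)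
      have : s * (u + 1) ≤ s * k := mul_le_mul_of_nonneg_left (by omega) hs.le
      nlinarith
    · rw [h]; simp
    · apply mul_nonneg (by omega)
      have : s * (k + 1) ≤ s * u := mul_le_mul_of_nonneg_left (by omega) hs.le
      nlinarith
  nlinarith

theorem ps_eq_ln {q h s : ℤ} (hs : 0 < s) {k t : ℤ} (h1 : k * s ≤ t) (h2 : t ≤ (k + 1) * s) :
    ps q h s t = ln q h s k t := by
  unfold ps
  rcases h2.eq_or_lt with h3 | h3
  · have : t / s = k + 1 := by rw [h3]; exact Int.mul_ediv_cancel _ hs.ne'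
    rw [this]
    unfold ln
    rw [h3]
    ring
  · have : t / s = k := by
      apply Int.le_antisymm
      · have := (Int.ediv_lt_iff_lt_mul hs).2 h3
        omega
      · exact (Int.le_ediv_iff_mul_le hs).2 h1
    rw [this]

theorem ps_one (q h t : ℤ) : ps q h 1 t = q * t ^ 2 + h * t := by
  unfold ps ln
  rw [Int.ediv_one]
  ring

theorem ps_step {q h s : ℤ} (hs : 0 < s) (t : ℤ) :
    ps q h s (t + 1) - ps q h s t = q * s * (2 * (t / s) + 1) + h := by
  obtain ⟨h1, h2⟩ := div_bd hs t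
  have e1 : ps q h s t = ln q h s (t / s) t := rfl
  have e2 : ps q h s (t + 1) = ln q h s (t / s) (t + 1) := by
    apply ps_eq_ln hs <;> nlinarith
  rw [e1, e2]
  unfold ln
  ring

theorem step_le {q h s : ℤ} (hq : 0 ≤ q) (hs : 0 < s) (t : ℤ) :
    ps q h s (t + 1) - ps q h s t ≤ q * (2 * t + s) + h := by
  rw [ps_step hs]
  obtain ⟨h1, h2⟩ := div_bd hs t
  have : q * (s * (t / s)) ≤ q * t := mul_le_mul_of_nonneg_left h1 hq
  nlinarith

theorem le_step {q h s : ℤ} (hq : 0 ≤ q) (hs : 0 < s) (t : ℤ) :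
    q * (2 * t + 2 - s) + h ≤ ps q h s (t + 1) - ps q h s t := by
  rw [ps_step hs]
  obtain ⟨h1, h2⟩ := div_bd hs t
  have : q * (t + 1) ≤ q * (s * (t / s) + s) := mul_le_mul_of_nonneg_left h2 hq
  nlinarith

/-- the exchange inequality -/
theorem exch {q h s x y c : ℤ} {l : ℕ} (hq : 0 ≤ q) (hs : 0 < s) (hl : 2 * s ≤ l)
    (hc : c = 0 ∨ (c = (y - x).sign ∧ l ≤ (y - x).natAbs)) :
    ps q h (2 * s) (x + c) - ps q h (2 * s) x ≤ ps q h s y - ps q h s (y - c) := by
  have hs2 : 0 < 2 * s := by omega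
  rcases hc with h0 | ⟨h1, h2⟩
  · rw [h0]; simp
  · rcases sgn_cases (y - x) with ⟨h6, h7⟩ | ⟨h6, h7⟩ | ⟨h6, h7⟩
    · rw [h1, h6]
      have e1 := step_le (h := h) hq hs2 x
      have e2 := le_step (h := h) hq hs (y - 1)
      rw [sub_add_cancel] at e2
      have e3 : 2 * s ≤ y - x := by omega
      have e4 : q * (2 * x + 2 * s) ≤ q * (2 * (y - 1) + 2 - s) :=
        mul_le_mul_of_nonneg_left (by omega) hq
      linarith
    · rw [h1, h6]; simp
    · rw [h1, h6]
      have e1 := le_step (h := h) hq hs2 (x - 1)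
      rw [sub_add_cancel] at e1
      have e2 := step_le (h := h) hq hs y
      have e3 : 2 * s ≤ x - y := by omega
      have e4 : q * (2 * y + s) ≤ q * (2 * (x - 1) + 2 - 2 * s) :=
        mul_le_mul_of_nonneg_left (by omega) hq
      have e5 : x + -1 = x - 1 := by ring
      have e6 : y - -1 = y + 1 := by ring
      rw [e5, e6]
      linarith

/-- the sum of the interpolations -/
def fps {n : ℕ} (q h : Fin n → ℤ) (s : ℤ) (x : Fin n → ℤ) : ℤ := ∑ j, ps (q j) (h j) s (x j)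

theorem fps_one {n : ℕ} (q h x : Fin n → ℤ) : fps q h 1 x = qf q h x := by
  unfold fps qf
  exact Finset.sum_congr rfl fun j _ => ps_one _ _ _

section

variable {n : ℕ} {R : Set (Fin n → ℤ)} {ρ : Type} [Fintype ρ] {W : ρ → Fin n → ℤ} {w : ρ → ℤ}

/-- proximity -/
theorem proximity (hR : Um R) (hW : ∀ r, W r ∈ R) (hfin : (Fs W w).Finite) {q h : Fin n → ℤ}
    (hq : ∀ j, 0 ≤ q j) {s : ℤ} (hs : 0 < s) {x : Fin n → ℤ} (hx : x ∈ Fs W w)
    (hopt : ∀ y ∈ Fs W w, fps q h (2 * s) x ≤ fps q h (2 * s) y) :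
    ∃ y ∈ Fs W w, (∀ z ∈ Fs W w, fps q h s y ≤ fps q h s z) ∧
      ∀ i, |y i - x i| ≤ 2 * s * (n + Fintype.card ρ) := by
  classical
  obtain ⟨y0, hy0, hy0'⟩ := Set.exists_min_image (Fs W w) (fps q h s) hfin ⟨x, hx⟩
  set T : Set (Fin n → ℤ) := {y | y ∈ Fs W w ∧ ∀ z ∈ Fs W w, fps q h s y ≤ fps q h s z} with hT
  have hne : T.Nonempty := ⟨y0, hy0, hy0'⟩
  obtain ⟨y, hyT, hmin⟩ : ∃ y ∈ T, ∀ z ∈ T, ∑ j, (y j - x j).natAbs ≤
      ∑ j, (z j - x j).natAbs := by
    have hwf := WellFounded.min_mem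
      (measure fun y : Fin n → ℤ => ∑ j, (y j - x j).natAbs).wf T hne
    refine ⟨_, hwf, fun y hy => ?_⟩
    have := WellFounded.not_lt_min
      (measure fun y : Fin n → ℤ => ∑ j, (y j - x j).natAbs).wf T hy
    exact not_lt.1 this
  obtain ⟨hy, hyo⟩ := hyT
  refine ⟨y, hy, hyo, fun i => ?_⟩
  by_contra hcon
  push Not at hcon
  have hxy : x i ≠ y i := by
    intro h
    rw [h, sub_self, abs_zero] at hcon
    have : 0 ≤ 2 * s * ((n : ℤ) + Fintype.card ρ) := by positivity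
    linarith
  obtain ⟨c, l, hc, hl, hcj, hmem⟩ := exists_dir hR hW hx hy i hxy
  have hn : 0 < n := Fin.pos i
  have hls : 2 * s ≤ l := by
    have h1 : |y i - x i| ≤ l * ((n : ℤ) + Fintype.card ρ) := by
      have : ((y i - x i).natAbs : ℤ) ≤ ((l * (n + Fintype.card ρ) : ℕ) : ℤ) := by exact_mod_cast hl
      push_cast at this
      exact this
    have h2 : 2 * s * ((n : ℤ) + Fintype.card ρ) ≤ l * ((n : ℤ) + Fintype.card ρ) := by linarith
    exact le_of_mul_le_mul_right h2 (by positivity)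
  have hl1 : (1 : ℤ) ≤ l := by linarith
  obtain ⟨hm1, hm2⟩ := hmem 1 (by norm_num) hl1
  rw [one_smul] at hm1 hm2
  have h1 := hopt _ hm1
  have h2 : fps q h (2 * s) (x + c) - fps q h (2 * s) x ≤ fps q h s y - fps q h s (y - c) := by
    unfold fps
    rw [← Finset.sum_sub_distrib, ← Finset.sum_sub_distrib]
    exact Finset.sum_le_sum fun j _ => exch (hq j) hs hls (hcj j)
  have h3 : ∀ z ∈ Fs W w, fps q h s (y - c) ≤ fps q h s z := by
    intro z hz
    have := hyo z hz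
    linarith
  have h4 := hmin (y - c) ⟨hm2, h3⟩
  have hle : ∀ j, ((y - c) j - x j).natAbs ≤ (y j - x j).natAbs := by
    intro j
    change (y j - c j - x j).natAbs ≤ _
    rcases hcj j with h | ⟨h, h'⟩
    · rw [h, sub_zero]
    · rw [h]
      rcases sgn_cases (y j - x j) with ⟨h6, h7⟩ | ⟨h6, h7⟩ | ⟨h6, h7⟩ <;> rw [h6] <;> omega
  have hlt : ((y - c) i - x i).natAbs < (y i - x i).natAbs := by
    change (y i - c i - x i).natAbs < _
    rw [hc]
    rcases sgn_cases (y i - x i) with ⟨h6, h7⟩ | ⟨h6, h7⟩ | ⟨h6, h7⟩ <;> rw [h6] <;> omega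
  have h5 : ∑ j, ((y - c) j - x j).natAbs < ∑ j, (y j - x j).natAbs :=
    Finset.sum_lt_sum (fun j _ => hle j) ⟨i, Finset.mem_univ _, hlt⟩
  omega

/-- size of the interpolations -/
theorem abs_ps_le {q h s t B : ℤ} (hs : 0 < s) (hsB : s ≤ B) (ht : |t| ≤ B) :
    |ps q h s t| ≤ 11 * (|q| + |h|) * B ^ 2 := by
  obtain ⟨h1, h2⟩ := div_bd hs t
  obtain ⟨h3, h4⟩ := abs_le.1 ht
  have hB : 1 ≤ B := by omega
  unfold ps ln
  set u := t / s
  have hsu : |s * u| ≤ 2 * B := by rw [abs_le]; constructor <;> linarith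
  have e : (q * s * (2 * u + 1) + h) * t - q * s ^ 2 * (u * (u + 1)) =
      q * (2 * ((s * u) * t) + s * t - (s * u) ^ 2 - (s * u) * s) + h * t := by ring
  rw [e]
  have hs' : |s| ≤ B := by rw [abs_of_pos hs]; exact hsB
  have k1 : |(s * u) * t| ≤ 2 * B * B := by
    rw [abs_mul]; exact mul_le_mul hsu ht (abs_nonneg _) (by linarith)
  have k2 : |s * t| ≤ B * B := by
    rw [abs_mul]; exact mul_le_mul hs' ht (abs_nonneg _) (by linarith)
  have k3 : |(s * u) ^ 2| ≤ (2 * B) ^ 2 := by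
    rw [abs_pow]; exact pow_le_pow_left₀ (abs_nonneg _) hsu 2
  have k4 : |(s * u) * s| ≤ 2 * B * B := by
    rw [abs_mul]; exact mul_le_mul hsu hs' (abs_nonneg _) (by linarith)
  have k5 : |2 * ((s * u) * t) + s * t - (s * u) ^ 2 - (s * u) * s| ≤ 11 * B ^ 2 := by
    rw [abs_le] at k1 k2 k3 k4 ⊢
    constructor <;> nlinarith
  calc |q * (2 * ((s * u) * t) + s * t - (s * u) ^ 2 - (s * u) * s) + h * t|
      ≤ |q * (2 * ((s * u) * t) + s * t - (s * u) ^ 2 - (s * u) * s)| + |h * t| := abs_add_le _ _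
    _ ≤ |q| * (11 * B ^ 2) + |h| * B := by
        rw [abs_mul, abs_mul]
        exact add_le_add (mul_le_mul_of_nonneg_left k5 (abs_nonneg _))
          (mul_le_mul_of_nonneg_left ht (abs_nonneg _))
    _ ≤ 11 * (|q| + |h|) * B ^ 2 := by
        have : |h| * B ≤ |h| * (11 * B ^ 2) := mul_le_mul_of_nonneg_left (by nlinarith) (abs_nonneg _)
        nlinarith

end

end Pool.Agent.W2helper57.TU
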