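import Pool.Agent.W2helper57.TU.Bs
import Pool.Agent.W2helper57.TU.Prox

set_option autoImplicit false

/-!
# The algorithm
-/

namespace Pool.Agent.NPC.W2h57TU

open Pool.Agent.NPC Pool.Agent.W2helper57.TU

/-- the first `n` entries of a list (filled up with zeros) as a vector -/
def vz (n : ℕ) (l : List ℤ) : Fin n → ℤ := fun j => l.getD j 0

/-- the list of the first `n` entries, filled up with zeros -/
def cut (n : ℕ) (l : List ℤ) : List ℤ := (List.range n).map fun i => l.getD i 0

/-- `v` at the position `j`, zeros elsewhere -/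
def sing (N j : ℕ) (v : ℤ) : List ℤ := (List.range N).map fun i => if i = j then v else 0

/-- the rows `x_j ≤ u`, `-x_j ≤ -l` -/
def rng (N j : ℕ) (l u : ℤ) : List Row := [(sing N j 1, u), (sing N j (-1), -l)]

/-- the coefficient of the quadratic term, replaced by zero if negative; linear coefficient -/
def cq (ob : List (ℤ × ℤ)) (j : ℕ) : ℤ × ℤ :=
  if (ob.getD j (0, 0)).1 < 0 then (0, 0) else ob.getD j (0, 0)

/-- the row of the chord `κ` of the function of the variable `j` at the scale `s` -/
def prow (n : ℕ) (c : ℤ × ℤ) (s : ℤ) (j : ℕ) (κ : ℤ) : Row :=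
  ((List.range (2 * n)).map fun i => if i = j then c.1 * s * (2 * κ + 1) + c.2 else
    if i = n + j then -1 else 0, c.1 * s ^ 2 * (κ * (κ + 1)))

/-- the rows of the linear program at the scale `s` around `y` -/
def core (ob : List (ℤ × ℤ)) (S : List Row) (r : ℕ) (s : ℤ) (y : List ℤ) : List Row :=
  (S.map fun q => (cut ob.length q.1, q.2)) ++
    ((List.range ob.length).flatMap fun j =>
      rng (2 * ob.length) j (y.getD j 0 - r * s) (y.getD j 0 + r * s) ++
      ((List.range (2 * r + 2)).map fun k : ℕ =>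
        prow ob.length (cq ob j) s j (y.getD j 0 / (s.toNat : ℤ) - (r : ℤ) + (k : ℤ))))

/-- the row `∑ t_j ≤ θ` -/
def trow (n : ℕ) (θ : ℤ) : Row := ((List.range (2 * n)).map fun i => if n ≤ i then 1 else 0, θ)

/-- the rows which fix the first coordinates -/
def fixr (N : ℕ) (acc : List ℤ) : List Row :=
  (List.range acc.length).flatMap fun i => rng N i (acc.getD i 0) (acc.getD i 0)

/-- the next coordinate of the solution -/
def next (n E : ℕ) (rows : List Row) (acc : List ℤ) : List ℤ :=
  acc ++ [bs E fun M => lpFeas (2 * n) ((sing (2 * n) acc.length (-1), -M) ::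
    (fixr (2 * n) acc ++ rows))]

/-- an integer solution of a system -/
def extr (n E : ℕ) (rows : List Row) : List ℤ := (next n E rows)^[n] []

/-- the optimal solution at the scale `s` around `y` -/
def phase (ob : List (ℤ × ℤ)) (S : List Row) (r E : ℕ) (s : ℤ) (y : List ℤ) : List ℤ :=
  extr ob.length E (trow ob.length
    (-(bs E fun M => lpFeas (2 * ob.length) (trow ob.length (-M) :: core ob S r s y))) ::
      core ob S r s y)

/-- the optimal solution of the convex part of the objective function -/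
def conv (ob : List (ℤ × ℤ)) (S : List Row) (K E : ℕ) : List ℤ :=
  (pws (K + 1)).foldl (fun x w => phase ob S (2 * (ob.length + S.length)) E w x) []

/-! ### Polynomial time -/

section

variable {α : Type} [TEnc α]

theorem poly_cut {n : α → ℕ} {l : α → List ℤ} (hn : UPoly n) (hl : Poly l) :
    Poly (fun a => cut (n a) (l a)) :=
  Poly.map hn.range (Poly.getD (d := fun _ => (0 : ℤ)) (hl.comp (Poly.fst Poly.id))
    (Poly.snd Poly.id) (Poly.const 0))

theorem poly_sing {N j : α → ℕ} {v : α → ℤ} (hN : UPoly N) (hj : Poly j) (hv : Poly v) :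
    Poly (fun a => sing (N a) (j a) (v a)) :=
  Poly.map hN.range (Poly.ite (Poly.decide_eq (Poly.snd Poly.id) (hj.comp (Poly.fst Poly.id)))
    (hv.comp (Poly.fst Poly.id)) (Poly.const 0))

theorem poly_rng {N j : α → ℕ} {l u : α → ℤ} (hN : UPoly N) (hj : Poly j) (hl : Poly l)
    (hu : Poly u) : Poly (fun a => rng (N a) (j a) (l a) (u a)) :=
  Poly.cons (Poly.pair (poly_sing hN hj (Poly.const 1)) hu)
    (Poly.cons (Poly.pair (poly_sing hN hj (Poly.const (-1))) (Poly.ineg hl)) (Poly.const []))

theorem poly_cq {ob : α → List (ℤ × ℤ)} {j : α → ℕ} (hob : Poly ob) (hj : Poly j) :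
    Poly (fun a => cq (ob a) (j a)) := by
  have h : Poly (fun a => (ob a).getD (j a) ((0 : ℤ), (0 : ℤ))) :=
    Poly.getD (d := fun _ => ((0 : ℤ), (0 : ℤ))) hob hj (Poly.const _)
  exact Poly.ite (Poly.isNeg (Poly.fst h)) (Poly.const _) h

theorem poly_prow {n : α → ℕ} {c : α → ℤ × ℤ} {s : α → ℤ} {j : α → ℕ} {κ : α → ℤ}
    (hn : UPoly n) (hc : Poly c) (hs : Poly s) (hj : Poly j) (hκ : Poly κ) :
    Poly (fun a => prow (n a) (c a) (s a) (j a) (κ a)) := by
  have h1 : Poly (fun a => (c a).1 * s a * (2 * κ a + 1) + (c a).2) :=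
    Poly.iadd (Poly.imul (Poly.imul (Poly.fst hc) hs)
      (Poly.iadd (Poly.imul (Poly.const 2) hκ) (Poly.const 1))) (Poly.snd hc)
  refine Poly.pair (Poly.map (UPoly.mul (UPoly.const 2) hn).range ?_) ?_
  · refine Poly.ite (Poly.decide_eq (Poly.snd Poly.id) (hj.comp (Poly.fst Poly.id)))
      (h1.comp (Poly.fst Poly.id)) (Poly.ite (Poly.decide_eq (Poly.snd Poly.id)
        (Poly.add (hn.toPoly.comp (Poly.fst Poly.id)) (hj.comp (Poly.fst Poly.id))))
        (Poly.const (-1)) (Poly.const 0))
  · exact Poly.imul (Poly.imul (Poly.fst hc) (Poly.ipow hs (UPoly.const 2)))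
      (Poly.imul hκ (Poly.iadd hκ (Poly.const 1)))

theorem poly_core {ob : α → List (ℤ × ℤ)} {S : α → List Row} {r : α → ℕ} {s : α → ℤ}
    {y : α → List ℤ} (hob : Poly ob) (hS : Poly S) (hr : UPoly r) (hs : Poly s) (hy : Poly y) :
    Poly (fun a => core (ob a) (S a) (r a) (s a) (y a)) := by
  have hn : UPoly (fun a => (ob a).length) := UPoly.length hob
  have hn2 : UPoly (fun a => 2 * (ob a).length) := UPoly.mul (UPoly.const 2) hn
  refine Poly.append (Poly.map hS (Poly.pair (poly_cut (hn.comp (Poly.fst Poly.id))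
    (Poly.fst (Poly.snd Poly.id))) (Poly.snd (Poly.snd Poly.id)))) ?_
  refine Poly.flatMap hn.range ?_
  have f1 : Poly (fun z : α × ℕ => z.1) := Poly.fst Poly.id
  have hyj : Poly (fun z : α × ℕ => (y z.1).getD z.2 0) :=
    Poly.getD (d := fun _ => (0 : ℤ)) (hy.comp f1) (Poly.snd Poly.id) (Poly.const 0)
  have hrs : Poly (fun z : α × ℕ => ((r z.1 : ℕ) : ℤ) * s z.1) :=
    Poly.imul (Poly.natCast (hr.toPoly.comp f1)) (hs.comp f1)
  refine Poly.append (poly_rng (hn2.comp f1) (Poly.snd Poly.id) (Poly.isub hyj hrs)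
    (Poly.iadd hyj hrs)) ?_
  refine Poly.map ((UPoly.add (UPoly.mul (UPoly.const 2) hr) (UPoly.const 2)).range.comp f1) ?_
  have g1 : Poly (fun z : (α × ℕ) × ℕ => z.1.1) := Poly.fst (Poly.fst Poly.id)
  refine poly_prow (hn.comp g1) (poly_cq (hob.comp g1) (Poly.snd (Poly.fst Poly.id)))
    (hs.comp g1) (Poly.snd (Poly.fst Poly.id)) ?_
  exact Poly.iadd (Poly.isub (Poly.idiv (hyj.comp (Poly.fst Poly.id)) (Poly.toNat (hs.comp g1)))
    (Poly.natCast (hr.toPoly.comp g1))) (Poly.natCast (Poly.snd Poly.id))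

theorem poly_trow {n : α → ℕ} {θ : α → ℤ} (hn : UPoly n) (hθ : Poly θ) :
    Poly (fun a => trow (n a) (θ a)) :=
  Poly.pair (Poly.map (UPoly.mul (UPoly.const 2) hn).range
    (Poly.ite (Poly.decide_le (hn.toPoly.comp (Poly.fst Poly.id)) (Poly.snd Poly.id))
      (Poly.const 1) (Poly.const 0))) hθ

theorem poly_fixr {N : α → ℕ} {acc : α → List ℤ} (hN : UPoly N) (hacc : Poly acc) :
    Poly (fun a => fixr (N a) (acc a)) := by
  have h : Poly (fun z : α × ℕ => (acc z.1).getD z.2 0) :=
    Poly.getD (d := fun _ => (0 : ℤ)) (hacc.comp (Poly.fst Poly.id)) (Poly.snd Poly.id)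
      (Poly.const 0)
  exact Poly.flatMap (UPoly.length hacc).range
    (poly_rng (hN.comp (Poly.fst Poly.id)) (Poly.snd Poly.id) h h)

theorem poly_next {n E : α → ℕ} {rows : α → List Row} {acc : α → List ℤ} (hn : UPoly n)
    (hE : UPoly E) (hrows : Poly rows) (hacc : Poly acc) :
    Poly (fun a => next (n a) (E a) (rows a) (acc a)) := by
  have hn2 : UPoly (fun a => 2 * n a) := UPoly.mul (UPoly.const 2) hn
  refine Poly.append hacc (Poly.cons ?_ (Poly.const []))
  refine poly_bs hE ?_
  have f1 : Poly (fun z : α × ℤ => z.1) := Poly.fst Poly.id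
  refine poly_lpFeas (hn2.comp f1) ?_
  refine Poly.cons (Poly.pair (poly_sing (hn2.comp f1)
    ((UPoly.length hacc).toPoly.comp f1) (Poly.const (-1))) (Poly.ineg (Poly.snd Poly.id))) ?_
  exact Poly.append (poly_fixr (hn2.comp f1) (hacc.comp f1)) (hrows.comp f1)

theorem next_iter (n E : ℕ) (rows : List Row) (k : ℕ) :
    ((next n E rows)^[k] []).length = k ∧ ∀ x ∈ (next n E rows)^[k] [], x.natAbs < 2 ^ (E + 1) := by
  induction k with
  | zero => simp
  | succ k ih =>
    rw [Function.iterate_succ_apply']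
    constructor
    · rw [next, List.length_append, ih.1]; rfl
    · intro x hx
      rw [next, List.mem_append] at hx
      rcases hx with hx | hx
      · exact ih.2 x hx
      · rw [List.mem_singleton] at hx
        rw [hx]
        refine lt_of_le_of_lt (bs_bound _ _) ?_
        exact Nat.pow_lt_pow_right (by norm_num) (by omega)

theorem extr_spec0 (n E : ℕ) (rows : List Row) :
    (extr n E rows).length = n ∧ ∀ x ∈ extr n E rows, x.natAbs < 2 ^ (E + 1) := next_iter n E rows n

theorem poly_extr {n E : α → ℕ} {rows : α → List Row} (hn : UPoly n) (hE : UPoly E)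
    (hrows : Poly rows) : Poly (fun a => extr (n a) (E a) (rows a)) := by
  obtain ⟨e, he⟩ := Poly.sz_le hE
  obtain ⟨v, hv⟩ := Poly.sz_le hn
  have h : Poly (fun a => (next (n a) (E a) (rows a))^[(List.replicate (n a) ()).length] []) := by
    refine Poly.iterLen (l := fun a => List.replicate (n a) ()) (s := fun _ => ([] : List ℤ))
      (F := fun a acc => next (n a) (E a) (rows a) acc) hn (Poly.const [])
      (poly_next (hn.comp (Poly.fst Poly.id)) (hE.comp (Poly.fst Poly.id))
        (hrows.comp (Poly.fst Poly.id)) (Poly.snd Poly.id))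
      (v * (Polynomial.C 4 * (e + Polynomial.C 1) + Polynomial.C 6) + Polynomial.C 1) ?_
    intro a k hk
    rw [List.length_replicate] at hk
    obtain ⟨h1, h2⟩ := next_iter (n a) (E a) (rows a) k
    have h3 : n a ≤ v.eval (sz a) := by
      have := (length_lt_sz (List.replicate (n a) ())).le.trans (hv a)
      rwa [List.length_replicate] at this
    have h4 : E a ≤ e.eval (sz a) := by
      have := (length_lt_sz (List.replicate (E a) ())).le.trans (he a)
      rwa [List.length_replicate] at this
    have h5 := NPC.H670R2.sz_vec_le (b := v.eval (sz a)) (e := e.eval (sz a) + 1)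
      (r := (next (n a) (E a) (rows a))^[k] []) (by rw [h1]; omega)
      (fun x hx => lt_of_lt_of_le (h2 x hx) (Nat.pow_le_pow_right (by norm_num) (by omega)))
    refine h5.trans ?_
    simp only [Polynomial.eval_add, Polynomial.eval_mul, Polynomial.eval_C]
    exact le_of_eq (by ring)
  exact h.congr fun a => by rw [List.length_replicate]; rfl

theorem poly_phase {ob : α → List (ℤ × ℤ)} {S : α → List Row} {r E : α → ℕ} {s : α → ℤ}
    {y : α → List ℤ} (hob : Poly ob) (hS : Poly S) (hr : UPoly r) (hE : UPoly E) (hs : Poly s)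
    (hy : Poly y) : Poly (fun a => phase (ob a) (S a) (r a) (E a) (s a) (y a)) := by
  have hn : UPoly (fun a => (ob a).length) := UPoly.length hob
  have hn2 : UPoly (fun a => 2 * (ob a).length) := UPoly.mul (UPoly.const 2) hn
  have hc := poly_core hob hS hr hs hy
  refine poly_extr hn hE (Poly.cons (poly_trow hn (Poly.ineg (poly_bs hE ?_))) hc)
  have f1 : Poly (fun z : α × ℤ => z.1) := Poly.fst Poly.id
  exact poly_lpFeas (hn2.comp f1) (Poly.cons (poly_trow (hn.comp f1)
    (Poly.ineg (Poly.snd Poly.id))) (hc.comp f1))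

theorem poly_conv {ob : α → List (ℤ × ℤ)} {S : α → List Row} {K E : α → ℕ} (hob : Poly ob)
    (hS : Poly S) (hK : UPoly K) (hE : UPoly E) :
    Poly (fun a => conv (ob a) (S a) (K a) (E a)) := by
  have hn : UPoly (fun a => (ob a).length) := UPoly.length hob
  have hr : UPoly (fun a => 2 * ((ob a).length + (S a).length)) :=
    UPoly.mul (UPoly.const 2) (UPoly.add hn (UPoly.length hS))
  obtain ⟨e, he⟩ := Poly.sz_le hE
  obtain ⟨v, hv⟩ := Poly.sz_le hn
  have f1 : Poly (fun z : α × List ℤ × ℤ => z.1) := Poly.fst Poly.id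
  refine Poly.foldl (l := fun a => pws (K a + 1)) (s := fun _ => ([] : List ℤ))
    (F := fun a x w => phase (ob a) (S a) (2 * ((ob a).length + (S a).length)) (E a) w x)
    (poly_pws (UPoly.add hK (UPoly.const 1))) (Poly.const [])
    (poly_phase (hob.comp f1) (hS.comp f1) (hr.comp f1) (hE.comp f1)
      (Poly.snd (Poly.snd Poly.id)) (Poly.fst (Poly.snd Poly.id)))
    (v * (Polynomial.C 4 * (e + Polynomial.C 1) + Polynomial.C 6) + Polynomial.C 1) ?_
  intro a k _
  have h3 : (ob a).length ≤ v.eval (sz a) := by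
    have := (length_lt_sz (List.replicate (ob a).length ())).le.trans (hv a)
    rwa [List.length_replicate] at this
  have h4 : E a ≤ e.eval (sz a) := by
    have := (length_lt_sz (List.replicate (E a) ())).le.trans (he a)
    rwa [List.length_replicate] at this
  have key : ∀ (L : List ℤ) (x0 : List ℤ), (x0.length ≤ v.eval (sz a) ∧
      ∀ x ∈ x0, x.natAbs < 2 ^ (e.eval (sz a) + 1)) →
      ((L.foldl (fun x w => phase (ob a) (S a) (2 * ((ob a).length + (S a).length)) (E a) w x)
        x0).length ≤ v.eval (sz a) ∧ ∀ x ∈ L.foldl (fun x w => phase (ob a) (S a)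
          (2 * ((ob a).length + (S a).length)) (E a) w x) x0,
          x.natAbs < 2 ^ (e.eval (sz a) + 1)) := by
    intro L
    induction L with
    | nil => intro x0 h; exact h
    | cons w L ih =>
      intro x0 _
      rw [List.foldl_cons]
      apply ih
      obtain ⟨h1, h2⟩ := extr_spec0 (ob a).length (E a) (trow (ob a).length
        (-(bs (E a) fun M => lpFeas (2 * (ob a).length) (trow (ob a).length (-M) ::
          core (ob a) (S a) (2 * ((ob a).length + (S a).length)) w x0))) ::
          core (ob a) (S a) (2 * ((ob a).length + (S a).length)) w x0)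
      exact ⟨le_of_eq_of_le h1 h3, fun x hx => lt_of_lt_of_le (h2 x hx)
        (Nat.pow_le_pow_right (by norm_num) (by omega))⟩
  obtain ⟨h1, h2⟩ := key ((pws (K a + 1)).take k) [] (by simp)
  have h5 := NPC.H670R2.sz_vec_le h1 h2
  refine h5.trans ?_
  simp only [Polynomial.eval_add, Polynomial.eval_mul, Polynomial.eval_C]
  exact le_of_eq (by ring)

end

end Pool.Agent.NPC.W2h57TU
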