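import Pool.Agent.W2helper57.TU.LP
import Pool.Agent.H687R2.IntPoly

set_option autoImplicit false

/-!
# Binary search
-/

namespace Pool.Agent.NPC.W2h57TU

open Pool.Agent.NPC

/-- binary search for the largest `M` with `p M`, with steps `2 ^ (k - 1), …, 1` -/
def bsr (p : ℤ → Bool) : ℕ → ℤ → ℤ
  | 0, M => M
  | k + 1, M => bsr p k (if p (M + 2 ^ k) then M + 2 ^ k else M)

/-- binary search in `[-2 ^ E, 2 ^ E)` -/
def bs (E : ℕ) (p : ℤ → Bool) : ℤ := bsr p (E + 1) (-2 ^ E)

theorem bsr_spec (p : ℤ → Bool) :
    ∀ (k : ℕ) (M : ℤ), p M = true → p (M + 2 ^ k) = false →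
      p (bsr p k M) = true ∧ p (bsr p k M + 1) = false := by
  intro k
  induction k with
  | zero => intro M h1 h2; simpa [bsr] using ⟨h1, h2⟩
  | succ k ih =>
    intro M h1 h2
    rw [bsr]
    by_cases h : p (M + 2 ^ k) = true
    · rw [if_pos h]
      apply ih _ h
      rw [add_assoc, ← two_mul, ← pow_succ']
      exact h2
    · rw [if_neg h]
      exact ih _ h1 (by simpa using h)

theorem bs_spec {p : ℤ → Bool} (hp : ∀ a b, a ≤ b → p b = true → p a = true) {E : ℕ}
    (h1 : p (-2 ^ E) = true) (h2 : p (2 ^ E) = false) :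
    p (bs E p) = true ∧ ∀ M, bs E p < M → p M = false := by
  have h := bsr_spec p (E + 1) (-2 ^ E) h1 (by
    rw [pow_succ', two_mul, neg_add_cancel_left]; exact h2)
  refine ⟨h.1, fun M hM => ?_⟩
  by_contra hcon
  have := hp (bs E p + 1) M hM (by simpa using hcon)
  have h3 : p (bs E p + 1) = false := h.2
  rw [h3] at this
  exact absurd this (by simp)

theorem bsr_bound (p : ℤ → Bool) : ∀ (k : ℕ) (M : ℤ), M ≤ bsr p k M ∧ bsr p k M < M + 2 ^ k := by
  intro k
  induction k with
  | zero => intro M; simp [bsr]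
  | succ k ih =>
    intro M
    rw [bsr]
    have hk : (0 : ℤ) < 2 ^ k := by positivity
    split_ifs
    · have := ih (M + 2 ^ k)
      rw [pow_succ]
      constructor <;> linarith [this.1, this.2]
    · have := ih M
      rw [pow_succ]
      constructor <;> linarith [this.1, this.2]

theorem bs_bound (p : ℤ → Bool) (E : ℕ) : (bs E p).natAbs ≤ 2 ^ E := by
  have h := bsr_bound p (E + 1) (-2 ^ E)
  rw [pow_succ] at h
  have h1 : bs E p = bsr p (E + 1) (-2 ^ E) := rfl
  rw [← h1] at h
  zify
  rw [abs_le]
  constructor <;> linarith [h.1, h.2]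

/-- the steps -/
def pws (k : ℕ) : List ℤ := (List.range k).reverse.map fun i => (2 : ℤ) ^ i

theorem bsr_eq_foldl (p : ℤ → Bool) : ∀ (k : ℕ) (M : ℤ),
    bsr p k M = (pws k).foldl (fun M w => if p (M + w) then M + w else M) M := by
  intro k
  induction k with
  | zero => intro M; simp [bsr, pws]
  | succ k ih =>
    intro M
    have : pws (k + 1) = 2 ^ k :: pws k := by
      simp [pws, List.range_succ]
    rw [this, List.foldl_cons, bsr, ih]

theorem foldl_bound (p : ℤ → Bool) : ∀ (L : List ℤ) (M : ℤ),
    (L.foldl (fun M w => if p (M + w) then M + w else M) M).natAbs ≤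
      M.natAbs + (L.map Int.natAbs).sum := by
  intro L
  induction L with
  | nil => intro M; simp
  | cons w L ih =>
    intro M
    rw [List.foldl_cons, List.map_cons, List.sum_cons]
    refine (ih _).trans ?_
    split_ifs
    · have := Int.natAbs_add_le M w; omega
    · omega

section

variable {α : Type} [TEnc α]

theorem poly_pws {k : α → ℕ} (hk : UPoly k) : Poly (fun a => pws (k a)) := by
  have h : Poly (fun a => (List.range (k a)).reverse.map fun i => (2 : ℤ) ^ (min i (k a))) := by
    refine Poly.map (Poly.reverse hk.range) (Poly.ipow (Poly.const 2) ?_)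
    refine UPoly.of_le (n := fun z : α × ℕ => k z.1) ?_ (hk.comp (Poly.fst Poly.id))
      (fun z => min_le_right _ _)
    exact Poly.min (Poly.snd Poly.id) (hk.toPoly.comp (Poly.fst Poly.id))
  refine h.congr fun a => ?_
  unfold pws
  apply List.map_congr_left
  intro i hi
  rw [List.mem_reverse, List.mem_range] at hi
  rw [min_eq_left hi.le]

theorem sum_pws : ∀ k : ℕ, ((pws k).map Int.natAbs).sum < 2 ^ k := by
  intro k
  induction k with
  | zero => simp [pws]
  | succ k ih =>
    have : pws (k + 1) = 2 ^ k :: pws k := by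
      simp [pws, List.range_succ]
    rw [this, List.map_cons, List.sum_cons, Int.natAbs_pow]
    simp only [Int.reduceAbs, pow_succ]
    omega

theorem poly_bs {E : α → ℕ} {p : α → ℤ → Bool} (hE : UPoly E)
    (hp : Poly (fun z : α × ℤ => p z.1 z.2)) : Poly (fun a => bs (E a) (p a)) := by
  have h : Poly (fun a => (pws (E a + 1)).foldl (fun M w => if p a (M + w) then M + w else M)
      (-2 ^ E a)) := by
    obtain ⟨r, hr⟩ := Poly.sz_le hE
    refine Poly.foldl (l := fun a => pws (E a + 1)) (s := fun a => -(2 : ℤ) ^ E a)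
      (F := fun a M w => if p a (M + w) then M + w else M)
      (poly_pws (UPoly.add hE (UPoly.const 1))) (Poly.ineg (Poly.ipow (Poly.const 2) hE)) ?_
      (Polynomial.C 4 * r + Polynomial.C 17) ?_
    · have h1 : Poly (fun z : α × ℤ × ℤ => z.2.1 + z.2.2) :=
        Poly.iadd (Poly.fst (Poly.snd Poly.id)) (Poly.snd (Poly.snd Poly.id))
      refine (Poly.cond (hp.comp (Poly.pair (Poly.fst Poly.id) h1)) h1
        (Poly.fst (Poly.snd Poly.id))).congr fun z => ?_
      cases p z.1 (z.2.1 + z.2.2) <;> rfl
    · intro a k _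
      refine (sz_int_le _).trans ?_
      have h1 := foldl_bound (p a) ((pws (E a + 1)).take k) (-2 ^ E a)
      have h2 : (((pws (E a + 1)).take k).map Int.natAbs).sum < 2 ^ (E a + 1) := by
        refine lt_of_le_of_lt ?_ (sum_pws (E a + 1))
        conv_rhs => rw [← List.take_append_drop k (pws (E a + 1))]
        rw [List.map_append, List.sum_append]
        exact Nat.le_add_right _ _
      rw [Int.natAbs_neg, Int.natAbs_pow] at h1
      have h3 : (((pws (E a + 1)).take k).foldl (fun M w => if p a (M + w) then M + w else M)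
          (-2 ^ E a)).natAbs < 2 ^ (E a + 2) := by
        have e1 : (2 : ℤ).natAbs = 2 := rfl
        rw [e1] at h1
        have e2 : 2 ^ (E a + 1) = 2 * 2 ^ E a := pow_succ' _ _
        have e3 : 2 ^ (E a + 2) = 4 * 2 ^ E a := by rw [pow_add]; ring
        omega
      have h4 := Nat.size_le.2 h3
      have h5 : E a ≤ r.eval (sz a) := by
        have := (length_lt_sz (List.replicate (E a) ())).le.trans (hr a)
        rwa [List.length_replicate] at this
      simp only [Polynomial.eval_add, Polynomial.eval_mul, Polynomial.eval_C]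
      omega
  exact h.congr fun a => (bsr_eq_foldl (p a) _ _).symm

end

end Pool.Agent.NPC.W2h57TU
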