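import Pool.Agent.W2helper57.TU.Rnd

set_option autoImplicit false

/-!
# Conformal decompositions with respect to a unimodular family of functionals
-/

namespace Pool.Agent.W2helper57.TU

open Finset

/-- integer dot product -/
def dz {n : ℕ} (v x : Fin n → ℤ) : ℤ := ∑ j, v j * x j

theorem dz_add {n : ℕ} (v x y : Fin n → ℤ) : dz v (x + y) = dz v x + dz v y := by
  unfold dz
  rw [← Finset.sum_add_distrib]
  exact Finset.sum_congr rfl fun j _ => by simp [mul_add]

theorem dz_sub {n : ℕ} (v x y : Fin n → ℤ) : dz v (x - y) = dz v x - dz v y := by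
  unfold dz
  rw [← Finset.sum_sub_distrib]
  exact Finset.sum_congr rfl fun j _ => by simp [mul_sub]

theorem dz_smul {n : ℕ} (v : Fin n → ℤ) (t : ℤ) (x : Fin n → ℤ) : dz v (t • x) = t * dz v x := by
  unfold dz
  rw [Finset.mul_sum]
  exact Finset.sum_congr rfl fun j _ => by simp; ring

theorem dz_zero {n : ℕ} (v : Fin n → ℤ) : dz v 0 = 0 := by simp [dz]

theorem dz_single {n : ℕ} (j : Fin n) (x : Fin n → ℤ) : dz (Pi.single j 1) x = x j := by
  unfold dz
  rw [Finset.sum_eq_single j]
  · simp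
  · intro k _ hk
    simp [Pi.single_eq_of_ne hk]
  · intro h
    exact absurd (Finset.mem_univ j) h

section

variable {n : ℕ} {R : Set (Fin n → ℤ)} {κ : Type} [Fintype κ] (a : κ → Fin n → ℤ)

/-- `c` is an elementary vector conformal to `z` -/
def Cf (z c : Fin n → ℤ) : Prop := ∀ k, dz (a k) c = 0 ∨ dz (a k) c = (dz (a k) z).sign

/-- the functionals `a` are a unimodular family which contains the coordinates -/
structure Fam (R : Set (Fin n → ℤ)) : Prop where
  um : Um R
  mem : ∀ k, a k ∈ R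
  unit : ∀ j, ∃ k, a k = Pi.single j 1

variable {a}

theorem sgn_cases (u : ℤ) : u.sign = 1 ∧ 0 < u ∨ u.sign = 0 ∧ u = 0 ∨ u.sign = -1 ∧ u < 0 := by
  rcases lt_trichotomy u 0 with h | h | h
  · exact Or.inr (Or.inr ⟨Int.sign_eq_neg_one_of_neg h, h⟩)
  · exact Or.inr (Or.inl ⟨by rw [h]; rfl, h⟩)
  · exact Or.inl ⟨Int.sign_eq_one_of_pos h, h⟩

theorem exists_cf (hF : Fam a R) (z : Fin n → ℤ) (k0 : κ) (h0 : dz (a k0) z ≠ 0) :
    ∃ c, Cf a z c ∧ dz (a k0) c = (dz (a k0) z).sign := by
  classical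
  set v : κ × Bool → Fin n → ℤ := fun p => if p.2 then a p.1 else -a p.1 with hv
  set b : κ × Bool → ℤ := fun p => if p.2 then max 0 (dz (a p.1) z).sign
    else -min 0 (dz (a p.1) z).sign with hb
  have hvR : ∀ p, v p ∈ R := by
    rintro ⟨k, _ | _⟩
    · exact hF.um.neg _ (hF.mem k)
    · exact hF.mem k
  have hfeas : ∀ x : Fin n → ℝ, (∀ p, dr (v p) x ≤ b p) →
      ∀ k, ((min 0 (dz (a k) z).sign : ℤ) : ℝ) ≤ dr (a k) x ∧
        dr (a k) x ≤ ((max 0 (dz (a k) z).sign : ℤ) : ℝ) := by
    intro x hx k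
    have h1 := hx (k, true)
    have h2 := hx (k, false)
    simp only [hv, hb, if_true, Bool.false_eq_true, if_false] at h1 h2
    refine ⟨?_, h1⟩
    have h3 : dr (-a k) x = - dr (a k) x := by
      unfold dr
      rw [← Finset.sum_neg_distrib]
      exact Finset.sum_congr rfl fun j _ => by simp
    rw [h3] at h2
    push_cast at h2 ⊢
    linarith
  have hbd : ∀ x : Fin n → ℝ, (∀ p, dr (v p) x ≤ b p) → ∀ j, |x j| ≤ 1 := by
    intro x hx j
    obtain ⟨k, hk⟩ := hF.unit j
    have h1 := hfeas x hx k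
    have h2 : dr (a k) x = x j := by
      rw [hk]
      unfold dr
      rw [Finset.sum_eq_single j]
      · simp
      · intro l _ hl
        simp [Pi.single_eq_of_ne hl]
      · intro h
        exact absurd (Finset.mem_univ j) h
    rw [h2] at h1
    rcases sgn_cases (dz (a k) z) with ⟨h, _⟩ | ⟨h, _⟩ | ⟨h, _⟩ <;> rw [h] at h1 <;>
      norm_num at h1 <;> rw [abs_le] <;> constructor <;> linarith [h1.1, h1.2]
  set K : ℝ := 1 + ∑ k, |((dz (a k) z : ℤ) : ℝ)| with hK
  have hK1 : 1 ≤ K := by
    have : 0 ≤ ∑ k, |((dz (a k) z : ℤ) : ℝ)| := Finset.sum_nonneg fun _ _ => abs_nonneg _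
    linarith
  have hKk : ∀ k, |((dz (a k) z : ℤ) : ℝ)| ≤ K := by
    intro k
    have := Finset.single_le_sum (f := fun k => |((dz (a k) z : ℤ) : ℝ)|)
      (fun i _ => abs_nonneg _) (Finset.mem_univ k)
    linarith
  set x0 : Fin n → ℝ := fun j => (z j : ℝ) / K with hx0
  have hdr0 : ∀ u : Fin n → ℤ, dr u x0 = ((dz u z : ℤ) : ℝ) / K := by
    intro u
    unfold dr dz
    push_cast
    rw [Finset.sum_div]
    exact Finset.sum_congr rfl fun j _ => by rw [hx0]; ring
  have hx0f : ∀ p, dr (v p) x0 ≤ b p := by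
    have hKpos : 0 < K := by linarith
    rintro ⟨k, _ | _⟩
    · change dr (-a k) x0 ≤ ((-min 0 (dz (a k) z).sign : ℤ) : ℝ)
      have h3 : dz (-a k) z = - dz (a k) z := by
        unfold dz
        rw [← Finset.sum_neg_distrib]
        exact Finset.sum_congr rfl fun j _ => by simp
      rw [hdr0, h3, div_le_iff₀ hKpos]
      have hk := abs_le.1 (hKk k)
      rcases sgn_cases (dz (a k) z) with ⟨h, h'⟩ | ⟨h, h'⟩ | ⟨h, h'⟩ <;> rw [h]
      · have : (0 : ℝ) < ((dz (a k) z : ℤ) : ℝ) := by exact_mod_cast h'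
        norm_num
        linarith
      · rw [h']; norm_num
      · norm_num
        linarith [hk.1]
    · change dr (a k) x0 ≤ ((max 0 (dz (a k) z).sign : ℤ) : ℝ)
      rw [hdr0, div_le_iff₀ hKpos]
      have hk := abs_le.1 (hKk k)
      rcases sgn_cases (dz (a k) z) with ⟨h, h'⟩ | ⟨h, h'⟩ | ⟨h, h'⟩ <;> rw [h]
      · norm_num
        linarith [hk.2]
      · rw [h']; norm_num
      · have : ((dz (a k) z : ℤ) : ℝ) < 0 := by exact_mod_cast h'
        norm_num
        linarith
  obtain ⟨c, hc1, hc2⟩ := round hF.um v hvR b hbd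
    (fun j => -(((dz (a k0) z).sign : ℤ) : ℝ) * (a k0 j : ℝ)) x0 hx0f
  have hc : ∀ k, min 0 (dz (a k) z).sign ≤ dz (a k) c ∧ dz (a k) c ≤ max 0 (dz (a k) z).sign := by
    intro k
    have h1 := hc1 (k, true)
    have h2 := hc1 (k, false)
    simp only [hv, hb, if_true, Bool.false_eq_true, if_false] at h1 h2
    refine ⟨?_, h1⟩
    have h3 : ∑ j, (-a k) j * c j = - dz (a k) c := by
      unfold dz
      rw [← Finset.sum_neg_distrib]
      exact Finset.sum_congr rfl fun j _ => by simp
    rw [h3] at h2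
    linarith
  have hCf : Cf a z c := by
    intro k
    obtain ⟨h1, h2⟩ := hc k
    rcases sgn_cases (dz (a k) z) with ⟨h, h'⟩ | ⟨h, h'⟩ | ⟨h, h'⟩ <;> rw [h] at h1 h2 ⊢ <;>
      simp at h1 h2 <;> omega
  refine ⟨c, hCf, ?_⟩
  rcases hCf k0 with h | h
  · exfalso
    have e1 : ∑ j, -(((dz (a k0) z).sign : ℤ) : ℝ) * (a k0 j : ℝ) * (c j : ℝ) =
        -(((dz (a k0) z).sign : ℤ) : ℝ) * ((dz (a k0) c : ℤ) : ℝ) := by
      unfold dz
      push_cast
      rw [Finset.mul_sum]
      exact Finset.sum_congr rfl fun j _ => by ring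
    have e2 : ∑ j, -(((dz (a k0) z).sign : ℤ) : ℝ) * (a k0 j : ℝ) * x0 j =
        -(((dz (a k0) z).sign : ℤ) : ℝ) * dr (a k0) x0 := by
      unfold dr
      rw [Finset.mul_sum]
      exact Finset.sum_congr rfl fun j _ => by ring
    rw [e1, e2, h, hdr0] at hc2
    have hKpos : 0 < K := by linarith
    have h5 : 0 < (((dz (a k0) z).sign : ℤ) : ℝ) * (((dz (a k0) z : ℤ) : ℝ) / K) := by
      rw [← mul_div_assoc]
      apply div_pos _ hKpos
      have : 0 < (dz (a k0) z).sign * dz (a k0) z := by
        rcases sgn_cases (dz (a k0) z) with ⟨h, h'⟩ | ⟨h, h'⟩ | ⟨h, h'⟩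
        · rw [h]; linarith
        · exact absurd h' h0
        · rw [h]; linarith
      exact_mod_cast this
    simp only [Int.cast_zero, mul_zero] at hc2
    linarith
  · exact h

omit [Fintype κ] in
theorem Cf.trans {z z' c : Fin n → ℤ} (h : ∀ k, (dz (a k) z').sign = 0 ∨
    (dz (a k) z').sign = (dz (a k) z).sign) (hc : Cf a z' c) : Cf a z c := by
  intro k
  rcases hc k with h1 | h1
  · exact Or.inl h1
  · rcases h k with h2 | h2
    · exact Or.inl (h1.trans h2)
    · exact Or.inr (h1.trans h2)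

/-- the sum of a list of multiples of vectors -/
def lsum (L : List (ℕ × (Fin n → ℤ))) : Fin n → ℤ := (L.map fun p => (p.1 : ℤ) • p.2).sum

theorem lsum_cons (p : ℕ × (Fin n → ℤ)) (L : List (ℕ × (Fin n → ℤ))) :
    lsum (p :: L) = (p.1 : ℤ) • p.2 + lsum L := by simp [lsum]

theorem lsum_nil : lsum ([] : List (ℕ × (Fin n → ℤ))) = 0 := rfl

/-- conformal decomposition -/
theorem decomp (hF : Fam a R) : ∀ (N : ℕ) (z : Fin n → ℤ),
    (univ.filter fun k => dz (a k) z ≠ 0).card ≤ N →
    ∃ L : List (ℕ × (Fin n → ℤ)), L.length ≤ N ∧ (∀ p ∈ L, 1 ≤ p.1 ∧ Cf a z p.2) ∧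
      z = lsum L := by
  classical
  intro N
  induction N with
  | zero =>
    intro z hz
    have hz0 : z = 0 := by
      funext j
      obtain ⟨k, hk⟩ := hF.unit j
      by_contra h
      have : k ∈ (univ.filter fun k => dz (a k) z ≠ 0) := by
        rw [Finset.mem_filter]
        refine ⟨Finset.mem_univ _, ?_⟩
        rw [hk, dz_single]
        exact h
      have := Finset.card_pos.2 ⟨k, this⟩
      omega
    exact ⟨[], le_rfl, by simp, by rw [hz0, lsum_nil]⟩
  | succ N ih =>
    intro z hz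
    by_cases hall : ∀ k, dz (a k) z = 0
    · have hz0 : z = 0 := by
        funext j
        obtain ⟨k, hk⟩ := hF.unit j
        have := hall k
        rw [hk, dz_single] at this
        exact this
      exact ⟨[], Nat.zero_le _, by simp, by rw [hz0, lsum_nil]⟩
    · push Not at hall
      obtain ⟨k0, hk0⟩ := hall
      obtain ⟨c, hc, hck⟩ := exists_cf hF z k0 hk0
      have hne : (univ.filter fun k => dz (a k) c ≠ 0).Nonempty := by
        refine ⟨k0, ?_⟩
        rw [Finset.mem_filter, hck]
        refine ⟨Finset.mem_univ _, ?_⟩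
        rcases sgn_cases (dz (a k0) z) with ⟨h, h'⟩ | ⟨h, h'⟩ | ⟨h, h'⟩
        · rw [h]; norm_num
        · exact absurd h' hk0
        · rw [h]; norm_num
      obtain ⟨k1, hk1, hmin⟩ := Finset.exists_min_image _ (fun k => (dz (a k) z).natAbs) hne
      rw [Finset.mem_filter] at hk1
      set l : ℕ := (dz (a k1) z).natAbs with hl
      have hmin' : ∀ k, dz (a k) c ≠ 0 → l ≤ (dz (a k) z).natAbs := fun k hk =>
        hmin k (by rw [Finset.mem_filter]; exact ⟨Finset.mem_univ _, hk⟩)
      have hk1' : dz (a k1) c = (dz (a k1) z).sign := by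
        rcases hc k1 with h | h
        · exact absurd h hk1.2
        · exact h
      have hz1 : dz (a k1) z ≠ 0 := by
        intro h
        apply hk1.2
        rw [hk1', h]
        rfl
      have hl1 : 1 ≤ l := Int.natAbs_pos.2 hz1
      set z' : Fin n → ℤ := z - (l : ℤ) • c with hz'
      have hdz' : ∀ k, dz (a k) z' = dz (a k) z - l * dz (a k) c := by
        intro k
        rw [hz', dz_sub, dz_smul]
      have hsg : ∀ k, (dz (a k) z').sign = 0 ∨ (dz (a k) z').sign = (dz (a k) z).sign := by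
        intro k
        rw [hdz' k]
        rcases hc k with h | h
        · rw [h]; right; simp
        · by_cases h2 : dz (a k) c = 0
          · rw [h2]; right; simp
          · have h3 := hmin' k h2
            rcases sgn_cases (dz (a k) z) with ⟨h4, h'⟩ | ⟨h4, h'⟩ | ⟨h4, h'⟩
            · rw [h, h4]
              have h5 : 0 ≤ dz (a k) z - l * 1 := by omega
              rcases h5.eq_or_lt with h6 | h6
              · left; rw [← h6]; rfl
              · right; exact Int.sign_eq_one_of_pos h6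
            · rw [h4] at h; exact absurd h h2
            · rw [h, h4]
              have h5 : dz (a k) z - l * -1 ≤ 0 := by omega
              rcases h5.eq_or_lt with h6 | h6
              · left; rw [h6]; rfl
              · right; exact Int.sign_eq_neg_one_of_neg h6
      have hlt : (univ.filter fun k => dz (a k) z' ≠ 0).card ≤ N := by
        have : (univ.filter fun k => dz (a k) z' ≠ 0) ⊂ (univ.filter fun k => dz (a k) z ≠ 0) := by
          rw [Finset.ssubset_iff_of_subset]
          · refine ⟨k1, ?_, ?_⟩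
            · rw [Finset.mem_filter]; exact ⟨Finset.mem_univ _, hz1⟩
            · rw [Finset.mem_filter]
              rintro ⟨_, h⟩
              apply h
              rw [hdz' k1, hk1', hl]
              rcases sgn_cases (dz (a k1) z) with ⟨h4, h'⟩ | ⟨h4, h'⟩ | ⟨h4, h'⟩ <;> rw [h4] <;>
                omega
          · intro k hk
            rw [Finset.mem_filter] at hk ⊢
            refine ⟨Finset.mem_univ _, fun h => hk.2 ?_⟩
            rcases hsg k with h5 | h5
            · exact Int.sign_eq_zero_iff_zero.1 h5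
            · rw [h] at h5
              exact Int.sign_eq_zero_iff_zero.1 h5
        have := Finset.card_lt_card this
        omega
      obtain ⟨L, hL1, hL2, hL3⟩ := ih z' hlt
      refine ⟨(l, c) :: L, by simpa using hL1, ?_, ?_⟩
      · intro p hp
        rcases List.mem_cons.1 hp with h | h
        · rw [h]; exact ⟨hl1, hc⟩
        · exact ⟨(hL2 p h).1, Cf.trans hsg (hL2 p h).2⟩
      · rw [lsum_cons, ← hL3, hz']
        simp

omit [Fintype κ] in
/-- the absolute value of a functional is the sum over the parts -/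
theorem natAbs_decomp {z : Fin n → ℤ} : ∀ (L : List (ℕ × (Fin n → ℤ))), (∀ p ∈ L, Cf a z p.2) →
    ∀ k, dz (a k) (lsum L) = (dz (a k) z).sign *
      ((L.map fun p => p.1 * (dz (a k) p.2).natAbs).sum : ℕ) := by
  intro L
  induction L with
  | nil => intro _ k; simp [lsum_nil, dz_zero]
  | cons p L ih =>
    intro hL k
    rw [lsum_cons, dz_add, dz_smul, ih (fun q hq => hL q (List.mem_cons_of_mem _ hq)) k,
      List.map_cons, List.sum_cons]
    push_cast
    rw [mul_add]
    congr 1
    rcases hL p List.mem_cons_self k with h | h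
    · rw [h]; simp
    · rcases sgn_cases (dz (a k) z) with ⟨h4, h'⟩ | ⟨h4, h'⟩ | ⟨h4, h'⟩ <;> rw [h, h4] <;> simp

omit [Fintype κ] in
theorem natAbs_eq_sum {z : Fin n → ℤ} {L : List (ℕ × (Fin n → ℤ))} (hL : ∀ p ∈ L, Cf a z p.2)
    (hz : z = lsum L) (k : κ) :
    (dz (a k) z).natAbs = (L.map fun p => p.1 * (dz (a k) p.2).natAbs).sum := by
  have h := natAbs_decomp L hL k
  rw [← hz] at h
  rcases sgn_cases (dz (a k) z) with ⟨h4, h'⟩ | ⟨h4, h'⟩ | ⟨h4, h'⟩
  · rw [h4, one_mul] at h
    omega
  · have : (L.map fun p => p.1 * (dz (a k) p.2).natAbs).sum = 0 := by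
      rw [List.sum_eq_zero_iff]
      intro x hx
      rw [List.mem_map] at hx
      obtain ⟨p, hp, rfl⟩ := hx
      rcases hL p hp k with h5 | h5
      · rw [h5]; simp
      · rw [h5, h4]; simp
    rw [this, h']
    rfl
  · rw [h4] at h
    omega

end

end Pool.Agent.W2helper57.TU
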