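import Pool.Agent.W2helper57.TU.Sem

set_option autoImplicit false

/-!
# The convex solver
-/

namespace Pool.Agent.NPC.W2h57TU

open Pool.Agent.NPC Pool.Agent.W2helper57.TU

/-- binary search finds maxima -/
theorem bs_max {β : Type} {Z : Set β} {φ : β → ℤ} {E : ℕ} {p : ℤ → Bool}
    (hp : ∀ M, p M = true ↔ ∃ z ∈ Z, M ≤ φ z) (hne : Z.Nonempty)
    (hb : ∀ z ∈ Z, |φ z| < 2 ^ E) :
    (∃ z ∈ Z, φ z = bs E p) ∧ ∀ z ∈ Z, φ z ≤ bs E p := by
  obtain ⟨z0, hz0⟩ := hne
  have h := bs_spec (p := p) (E := E)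
    (fun a b hab hb' => by
      obtain ⟨z, hz, hz'⟩ := (hp b).1 hb'
      exact (hp a).2 ⟨z, hz, hab.trans hz'⟩)
    ((hp _).2 ⟨z0, hz0, by have := (abs_lt.1 (hb z0 hz0)).1; omega⟩)
    (by
      by_contra hcon
      rw [Bool.not_eq_false] at hcon
      obtain ⟨z, hz, hz'⟩ := (hp _).1 hcon
      have := (abs_lt.1 (hb z hz)).2
      omega)
  have hle : ∀ z ∈ Z, φ z ≤ bs E p := by
    intro z hz
    by_contra hcon
    push Not at hcon
    have h1 := h.2 _ hcon
    have h2 := (hp (φ z)).2 ⟨z, hz, le_rfl⟩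
    rw [h2] at h1
    exact absurd h1 (by simp)
  refine ⟨?_, hle⟩
  obtain ⟨z, hz, hz'⟩ := (hp _).1 h.1
  exact ⟨z, hz, le_antisymm (hle z hz) hz'⟩

theorem fixr_XR {n : ℕ} {R : Set (Fin n → ℤ)} (hR : Um R) {acc : List ℤ} (h : acc.length ≤ n) :
    ∀ q ∈ fixr (2 * n) acc, XR n R q := by
  intro q hq
  unfold fixr at hq
  rw [List.mem_flatMap] at hq
  obtain ⟨i, hi, hq⟩ := hq
  rw [List.mem_range] at hi
  exact rng_XR hR (by omega) (by omega) _ _ q hq

theorem fixr_iff {n : ℕ} {acc : List ℤ} (h : acc.length ≤ n) (z : Fin n → ℤ) :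
    (∀ q ∈ fixr (2 * n) acc, dz (vz n q.1) z ≤ q.2) ↔
      ∀ i : Fin n, i.1 < acc.length → z i = acc.getD i 0 := by
  unfold fixr
  constructor
  · intro hq i hi
    have h1 := (rng_iff (N := 2 * n) (by omega) i.2 (acc.getD i 0) (acc.getD i 0) z).1
      (fun q hq' => hq q (List.mem_flatMap.2 ⟨i, List.mem_range.2 hi, hq'⟩))
    exact le_antisymm h1.2 h1.1
  · intro hz q hq
    rw [List.mem_flatMap] at hq
    obtain ⟨i, hi, hq⟩ := hq
    rw [List.mem_range] at hi
    have h1 := hz ⟨i, by omega⟩ hi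
    exact (rng_iff (N := 2 * n) (by omega) (by omega : i < n) (acc.getD i 0) (acc.getD i 0) z).2
      ⟨h1.ge, h1.le⟩ q hq

/-- extraction of an integer solution -/
theorem extr_spec {n E : ℕ} {R : Set (Fin n → ℤ)} (hR : Um R) {rows : List Row}
    {Z : Set (Fin n → ℤ)}
    (hrows : ∀ ex : List Row, (∀ q ∈ ex, XR n R q) → (lpFeas (2 * n) (ex ++ rows) = true ↔
      ∃ z ∈ Z, ∀ q ∈ ex, dz (vz n q.1) z ≤ q.2)) (hne : Z.Nonempty)
    (hb : ∀ z ∈ Z, ∀ j, |z j| < 2 ^ E) : vz n (extr n E rows) ∈ Z := by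
  have key : ∀ k ≤ n, ∃ z ∈ Z, ∀ i : Fin n, i.1 < k →
      z i = ((next n E rows)^[k] []).getD i 0 := by
    intro k
    induction k with
    | zero =>
      intro _
      obtain ⟨z, hz⟩ := hne
      exact ⟨z, hz, fun i hi => by omega⟩
    | succ k ih =>
      intro hk
      have hk' : k < n := hk
      obtain ⟨z0, hz0, hz0'⟩ := ih hk'.le
      set acc := (next n E rows)^[k] [] with hacc
      have hlen : acc.length = k := (next_iter n E rows k).1
      rw [Function.iterate_succ_apply', ← hacc]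
      have hp : ∀ M, lpFeas (2 * n) ((sing (2 * n) acc.length (-1), -M) ::
          (fixr (2 * n) acc ++ rows)) = true ↔
          ∃ z ∈ {z ∈ Z | ∀ i : Fin n, i.1 < k → z i = acc.getD i 0}, M ≤ z ⟨k, hk'⟩ := by
        intro M
        have h1 := hrows ((sing (2 * n) acc.length (-1), -M) :: fixr (2 * n) acc) (by
          intro q hq
          rcases List.mem_cons.1 hq with h | h
          · rw [h]
            exact ⟨sing_mem hR (by omega) (by omega) (Or.inr rfl), sing_ge (by omega) (-1)⟩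
          · exact fixr_XR hR (by omega) q h)
        rw [List.cons_append] at h1
        rw [h1]
        constructor
        · rintro ⟨z, hz, hz'⟩
          have h2 := hz' _ List.mem_cons_self
          have h3 := (fixr_iff (by omega) z).1 fun q hq => hz' q (List.mem_cons_of_mem _ hq)
          rw [dz_sing (by omega) (by omega : acc.length < n)] at h2
          refine ⟨z, ⟨hz, fun i hi => h3 i (by omega)⟩, ?_⟩
          have e : (⟨acc.length, by omega⟩ : Fin n) = ⟨k, hk'⟩ := Fin.ext hlen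
          rw [e] at h2
          simp only at h2
          linarith
        · rintro ⟨z, ⟨hz, hz'⟩, hM⟩
          refine ⟨z, hz, fun q hq => ?_⟩
          rcases List.mem_cons.1 hq with h | h
          · rw [h, dz_sing (by omega) (by omega : acc.length < n)]
            have e : (⟨acc.length, by omega⟩ : Fin n) = ⟨k, hk'⟩ := Fin.ext hlen
            rw [e]
            simp only
            linarith
          · exact (fixr_iff (by omega) z).2 (fun i hi => hz' i (by omega)) q h
      obtain ⟨⟨z, ⟨hz, hz'⟩, hzk⟩, _⟩ := bs_max (E := E) hp ⟨z0, hz0, hz0'⟩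
        (fun z hz => hb z hz.1 _)
      refine ⟨z, hz, fun i hi => ?_⟩
      unfold next
      rcases Nat.lt_succ_iff_lt_or_eq.1 hi with h | h
      · rw [hz' i h, List.getD_append _ _ _ _ (by omega)]
      · have e : i = ⟨k, hk'⟩ := Fin.ext h
        rw [e, hzk, List.getD_append_right _ _ _ _ (by simp only; omega)]
        simp only [hlen, Nat.sub_self, List.getD_cons_zero]
  obtain ⟨z, hz, hz'⟩ := key n le_rfl
  have : vz n (extr n E rows) = z := by
    funext j
    exact (hz' j j.2).symm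
  rw [this]
  exact hz

/-- one phase -/
theorem phase_spec {ob : List (ℤ × ℤ)} {R : Set (Fin ob.length → ℤ)} (hR : Um R) {S : List Row}
    (hS : ∀ q ∈ S, vz ob.length q.1 ∈ R) {r E : ℕ} {s : ℤ} (hs : 0 < s) {y : List ℤ}
    (hne : ∃ z ∈ Sol ob.length S, ∀ j, |z j - y.getD j 0| ≤ r * s)
    (hb : ∀ z ∈ Sol ob.length S, (∀ j, |z j| < 2 ^ E) ∧ |fps (cqf ob) (clf ob) s z| < 2 ^ E) :
    vz ob.length (phase ob S r E s y) ∈ Sol ob.length S ∧
      ∀ z ∈ Sol ob.length S, (∀ j, |z j - y.getD j 0| ≤ r * s) →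
        fps (cqf ob) (clf ob) s (vz ob.length (phase ob S r E s y)) ≤
          fps (cqf ob) (clf ob) s z := by
  set Z : Set (Fin ob.length → ℤ) :=
    {z ∈ Sol ob.length S | ∀ j, |z j - y.getD j 0| ≤ r * s} with hZ
  have hZne : Z.Nonempty := hne
  obtain ⟨⟨z1, hz1, hz1'⟩, hmax⟩ := bs_max (Z := Z) (E := E)
    (φ := fun z => -fps (cqf ob) (clf ob) s z)
    (p := fun M => lpFeas (2 * ob.length) (trow ob.length (-M) :: core ob S r s y))
    (by
      intro M
      have := lp_iff hR hS (ex := []) (by simp) (r := r) hs (y := y) (-M)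
      rw [List.nil_append] at this
      rw [this]
      constructor
      · rintro ⟨z, h1, h2, _, h3⟩
        exact ⟨z, ⟨h1, h2⟩, by linarith⟩
      · rintro ⟨z, ⟨h1, h2⟩, h3⟩
        exact ⟨z, h1, h2, by simp, by linarith⟩)
    hZne (fun z hz => by rw [abs_neg]; exact (hb z hz.1).2)
  set μ := bs E (fun M => lpFeas (2 * ob.length) (trow ob.length (-M) :: core ob S r s y)) with hμ
  have hmem : vz ob.length (phase ob S r E s y) ∈ {z ∈ Z | fps (cqf ob) (clf ob) s z ≤ -μ} := by
    apply extr_spec (R := R) hR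
    · intro ex hex
      rw [lp_iff hR hS hex hs]
      constructor
      · rintro ⟨z, h1, h2, h3, h4⟩
        exact ⟨z, ⟨⟨h1, h2⟩, h4⟩, h3⟩
      · rintro ⟨z, ⟨⟨h1, h2⟩, h4⟩, h3⟩
        exact ⟨z, h1, h2, h3, h4⟩
    · exact ⟨z1, hz1, by linarith⟩
    · intro z hz
      exact (hb z hz.1.1).1
  refine ⟨hmem.1.1, fun z hz hz' => ?_⟩
  have h1 := hmem.2
  have h2 := hmax z ⟨hz, hz'⟩
  linarith

theorem sol_finite {n : ℕ} {S : List Row} {B : ℤ} (hb : ∀ z ∈ Sol n S, ∀ j, |z j| ≤ B) :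
    (Sol n S).Finite := by
  apply Set.Finite.subset (Set.finite_Icc (fun _ : Fin n => -B) (fun _ => B))
  intro z hz
  rw [Set.mem_Icc]
  exact ⟨fun j => (abs_le.1 (hb z hz j)).1, fun j => (abs_le.1 (hb z hz j)).2⟩

/-- the convex solver finds an optimal solution -/
theorem conv_spec {ob : List (ℤ × ℤ)} {R : Set (Fin ob.length → ℤ)} (hR : Um R) {S : List Row}
    (hS : ∀ q ∈ S, vz ob.length q.1 ∈ R) {K E : ℕ} (hne : (Sol ob.length S).Nonempty)
    (hbox : ∀ z ∈ Sol ob.length S, ∀ j, |z j| ≤ 2 ^ K) (hE1 : K < E)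
    (hE2 : ∑ j, 11 * (|cqf ob j| + |clf ob j|) * (2 ^ K) ^ 2 < 2 ^ E) :
    vz ob.length (conv ob S K E) ∈ Sol ob.length S ∧
      ∀ z ∈ Sol ob.length S, qf (cqf ob) (clf ob) (vz ob.length (conv ob S K E)) ≤
        qf (cqf ob) (clf ob) z := by
  set r := 2 * (ob.length + S.length) with hr
  have hb : ∀ i ≤ K, ∀ z ∈ Sol ob.length S, (∀ j, |z j| < 2 ^ E) ∧
      |fps (cqf ob) (clf ob) (2 ^ i) z| < 2 ^ E := by
    intro i hi z hz
    have h2 : (2 : ℤ) ^ i ≤ 2 ^ K := pow_le_pow_right₀ (by norm_num) hi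
    constructor
    · intro j
      exact (hbox z hz j).trans_lt (pow_lt_pow_right₀ (by norm_num) hE1)
    · refine lt_of_le_of_lt ?_ hE2
      unfold fps
      refine (Finset.abs_sum_le_sum_abs _ _).trans (Finset.sum_le_sum fun j _ => ?_)
      exact abs_ps_le (by positivity) h2 (hbox z hz j)
  have key : ∀ (k : ℕ), k ≤ K → ∀ x : List ℤ, (vz ob.length x ∈ Sol ob.length S ∧
      ∀ z ∈ Sol ob.length S, fps (cqf ob) (clf ob) (2 ^ k) (vz ob.length x) ≤
        fps (cqf ob) (clf ob) (2 ^ k) z) →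
      (vz ob.length ((pws k).foldl (fun x w => phase ob S r E w x) x) ∈ Sol ob.length S ∧
      ∀ z ∈ Sol ob.length S, fps (cqf ob) (clf ob) 1
        (vz ob.length ((pws k).foldl (fun x w => phase ob S r E w x) x)) ≤
        fps (cqf ob) (clf ob) 1 z) := by
    intro k
    induction k with
    | zero =>
      intro _ x hx
      have : pws 0 = [] := by simp [pws]
      rw [this, List.foldl_nil]
      simpa using hx
    | succ k ih =>
      intro hk x hx
      have : pws (k + 1) = 2 ^ k :: pws k := by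
        simp [pws, List.range_succ]
      rw [this, List.foldl_cons]
      apply ih (by omega)
      have hs : (0 : ℤ) < 2 ^ k := by positivity
      obtain ⟨hx1, hx2⟩ := hx
      rw [pow_succ'] at hx2
      rw [Sol_eq] at hx1
      obtain ⟨y, hy1, hy2, hy3⟩ := proximity hR
        (W := fun r : Fin S.length => vz ob.length (S.get r).1) (w := fun r => (S.get r).2)
        (fun r => hS _ (List.get_mem _ _))
        (by rw [← Sol_eq]; exact sol_finite hbox) (cqf_nonneg ob) (h := clf ob) hs hx1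
        (by rw [← Sol_eq]; exact hx2)
      rw [← Sol_eq] at hy1 hy2
      rw [Fintype.card_fin] at hy3
      have hy4 : ∀ j, |y j - x.getD j 0| ≤ (r : ℤ) * 2 ^ k := by
        intro j
        have h1 := hy3 j
        have e : (r : ℤ) * 2 ^ k = 2 * 2 ^ k * (ob.length + S.length) := by
          rw [hr]; push_cast; ring
        rw [e]
        exact h1
      obtain ⟨p1, p2⟩ := phase_spec hR hS (r := r) (E := E) hs (y := x) ⟨y, hy1, hy4⟩
        (hb k (by omega))
      exact ⟨p1, fun z hz => (p2 y hy1 hy4).trans (hy2 z hz)⟩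
  have hfin : conv ob S K E = (pws K).foldl (fun x w => phase ob S r E w x)
      (phase ob S r E (2 ^ K) []) := by
    unfold conv
    have : pws (K + 1) = 2 ^ K :: pws K := by
      simp [pws, List.range_succ]
    rw [this, List.foldl_cons]
  have hin : ∀ z ∈ Sol ob.length S, ∀ j : Fin ob.length,
      |z j - ([] : List ℤ).getD j 0| ≤ (r : ℤ) * 2 ^ K := by
    intro z hz j
    rw [List.getD_nil, sub_zero]
    have hj := j.2
    have h1 : (1 : ℤ) ≤ r := by
      rw [hr]; push_cast; omega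
    have h2 : (1 : ℤ) * 2 ^ K ≤ r * 2 ^ K := mul_le_mul_of_nonneg_right h1 (by positivity)
    linarith [hbox z hz j]
  obtain ⟨z0, hz0⟩ := hne
  obtain ⟨p1, p2⟩ := phase_spec hR hS (r := r) (E := E) (s := 2 ^ K) (by positivity) (y := [])
    ⟨z0, hz0, hin z0 hz0⟩ (hb K le_rfl)
  have := key K le_rfl _ ⟨p1, fun z hz => p2 z hz (hin z hz)⟩
  rw [hfin]
  refine ⟨this.1, fun z hz => ?_⟩
  have h3 := this.2 z hz
  rwa [fps_one, fps_one] at h3

end Pool.Agent.NPC.W2h57TU
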