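import Pool.Agent.W2helper57.TU.Conf

set_option autoImplicit false

/-!
# Long feasible directions
-/

namespace Pool.Agent.W2helper57.TU

open Finset

/-- the integer points of a polyhedron -/
def Fs {n : ℕ} {ρ : Type} (W : ρ → Fin n → ℤ) (w : ρ → ℤ) : Set (Fin n → ℤ) :=
  {x | ∀ r, dz (W r) x ≤ w r}

/-- coordinates and rows -/
def fam {n : ℕ} {ρ : Type} (W : ρ → Fin n → ℤ) : Fin n ⊕ ρ → Fin n → ℤ :=
  Sum.elim (fun j => Pi.single j 1) W

section

variable {n : ℕ} {R : Set (Fin n → ℤ)} {ρ : Type} [Fintype ρ] {W : ρ → Fin n → ℤ} {w : ρ → ℤ}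

theorem fam_fam (hR : Um R) (hW : ∀ r, W r ∈ R) : Fam (fam W) R where
  um := hR
  mem := by
    rintro (j | r)
    · exact hR.unit j
    · exact hW r
  unit := fun j => ⟨Sum.inl j, rfl⟩

theorem le_sum_of_mem {α : Type} (L : List α) (f : α → ℕ) (p : α) (hp : p ∈ L) :
    f p ≤ (L.map f).sum := by
  induction L with
  | nil => simp at hp
  | cons q L ih =>
    rw [List.map_cons, List.sum_cons]
    rcases List.mem_cons.1 hp with h | h
    · rw [h]; omega
    · have := ih h; omega

theorem sum_le_len_mul {α : Type} (L : List α) (f : α → ℕ) (C M : ℕ) (h : ∀ p ∈ L, f p * C ≤ M) :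
    (L.map f).sum * C ≤ L.length * M := by
  induction L with
  | nil => simp
  | cons q L ih =>
    rw [List.map_cons, List.sum_cons, List.length_cons, add_mul, add_mul, one_mul]
    have := ih fun p hp => h p (List.mem_cons_of_mem _ hp)
    have := h q List.mem_cons_self
    omega

/-- a part of a conformal decomposition of `y - x` can be added to `x` and subtracted from `y` -/
theorem move_mem {x y c : Fin n → ℤ} {l : ℕ} (hx : x ∈ Fs W w) (hy : y ∈ Fs W w)
    (hc : ∀ r, dz (W r) c = 0 ∨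
      (dz (W r) c = (dz (W r) (y - x)).sign ∧ l ≤ (dz (W r) (y - x)).natAbs))
    {t : ℤ} (h0 : 0 ≤ t) (ht : t ≤ l) : x + t • c ∈ Fs W w ∧ y - t • c ∈ Fs W w := by
  constructor
  · intro r
    rw [dz_add, dz_smul]
    have h1 := hx r
    have h2 := hy r
    rcases hc r with h | ⟨h, h'⟩
    · rw [h]; linarith
    · rw [dz_sub] at h h'
      rcases sgn_cases (dz (W r) y - dz (W r) x) with ⟨h3, h4⟩ | ⟨h3, h4⟩ | ⟨h3, h4⟩ <;>
        rw [h, h3]
      · omega
      · linarith
      · linarith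
  · intro r
    rw [dz_sub, dz_smul]
    have h1 := hx r
    have h2 := hy r
    rcases hc r with h | ⟨h, h'⟩
    · rw [h]; linarith
    · rw [dz_sub] at h h'
      rcases sgn_cases (dz (W r) y - dz (W r) x) with ⟨h3, h4⟩ | ⟨h3, h4⟩ | ⟨h3, h4⟩ <;>
        rw [h, h3]
      · linarith
      · linarith
      · omega

theorem part_le {κ : Type} {a : κ → Fin n → ℤ} {z : Fin n → ℤ} {L : List (ℕ × (Fin n → ℤ))}
    (hL : ∀ p ∈ L, Cf a z p.2) (hz : z = lsum L) {p : ℕ × (Fin n → ℤ)} (hp : p ∈ L) (k : κ)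
    (hk : dz (a k) p.2 ≠ 0) : p.1 ≤ (dz (a k) z).natAbs := by
  rw [natAbs_eq_sum hL hz k]
  refine le_trans ?_ (le_sum_of_mem L (fun p => p.1 * (dz (a k) p.2).natAbs) p hp)
  exact Nat.le_mul_of_pos_right _ (Int.natAbs_pos.2 hk)

/-- a long feasible direction in which a given coordinate changes -/
theorem exists_dir (hR : Um R) (hW : ∀ r, W r ∈ R) {x y : Fin n → ℤ} (hx : x ∈ Fs W w)
    (hy : y ∈ Fs W w) (i : Fin n) (hi : x i ≠ y i) :
    ∃ (c : Fin n → ℤ) (l : ℕ), c i = (y i - x i).sign ∧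
      (y i - x i).natAbs ≤ l * (n + Fintype.card ρ) ∧
      (∀ j, c j = 0 ∨ (c j = (y j - x j).sign ∧ l ≤ (y j - x j).natAbs)) ∧
      ∀ t : ℤ, 0 ≤ t → t ≤ l → x + t • c ∈ Fs W w ∧ y - t • c ∈ Fs W w := by
  classical
  have hF := fam_fam hR hW
  set z := y - x with hz
  have hcard : (univ.filter fun k => dz (fam W k) z ≠ 0).card ≤ n + Fintype.card ρ := by
    refine (Finset.card_le_univ _).trans ?_
    rw [Fintype.card_sum, Fintype.card_fin]
  obtain ⟨L, hL1, hL2, hL3⟩ := decomp hF _ z hcard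
  have hL : ∀ p ∈ L, Cf (fam W) z p.2 := fun p hp => (hL2 p hp).2
  have hzi : dz (fam W (Sum.inl i)) z = y i - x i := by
    change dz (Pi.single i 1) z = _
    rw [dz_single]; rfl
  have hex : ∃ p ∈ L, dz (fam W (Sum.inl i)) p.2 ≠ 0 ∧
      (y i - x i).natAbs ≤ p.1 * (n + Fintype.card ρ) := by
    by_contra hcon
    push Not at hcon
    have h1 := natAbs_eq_sum hL hL3 (Sum.inl i)
    rw [hzi] at h1
    have hpos : 0 < (y i - x i).natAbs := Int.natAbs_pos.2 (by omega)
    have hn : 0 < n := Fin.pos i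
    have h2 : ∀ p ∈ L, (p.1 * (dz (fam W (Sum.inl i)) p.2).natAbs) * (n + Fintype.card ρ) ≤
        (y i - x i).natAbs - 1 := by
      intro p hp
      by_cases h : dz (fam W (Sum.inl i)) p.2 = 0
      · rw [h]; simp
      · have h3 := hcon p hp h
        have h4 : (dz (fam W (Sum.inl i)) p.2).natAbs = 1 := by
          rcases hL p hp (Sum.inl i) with h5 | h5
          · exact absurd h5 h
          · rw [h5] at h ⊢
            rcases sgn_cases (dz (fam W (Sum.inl i)) z) with ⟨h6, _⟩ | ⟨h6, _⟩ | ⟨h6, _⟩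
            · rw [h6]; rfl
            · exact absurd h6 h
            · rw [h6]; rfl
        rw [h4, mul_one]
        omega
    have h3 := sum_le_len_mul L (fun p => p.1 * (dz (fam W (Sum.inl i)) p.2).natAbs) _ _ h2
    rw [← h1] at h3
    have h4 : L.length * ((y i - x i).natAbs - 1) ≤
        (n + Fintype.card ρ) * ((y i - x i).natAbs - 1) := Nat.mul_le_mul_right _ hL1
    have h5 := h3.trans h4
    rw [mul_comm] at h5
    have h6 := Nat.le_of_mul_le_mul_left h5 (by omega)
    omega
  obtain ⟨⟨l, c⟩, hp, hpi, hpl⟩ := hex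
  refine ⟨c, l, ?_, hpl, ?_, ?_⟩
  · rcases hL _ hp (Sum.inl i) with h | h
    · exact absurd h hpi
    · rw [hzi] at h
      change dz (Pi.single i 1) c = _ at h
      rwa [dz_single] at h
  · intro j
    have hzj : dz (fam W (Sum.inl j)) z = y j - x j := by
      change dz (Pi.single j 1) z = _
      rw [dz_single]; rfl
    by_cases h0 : c j = 0
    · exact Or.inl h0
    · right
      have hcj : dz (fam W (Sum.inl j)) c = c j := by
        change dz (Pi.single j 1) c = _
        rw [dz_single]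
      constructor
      · rcases hL _ hp (Sum.inl j) with h | h
        · exact absurd (hcj.symm.trans h) h0
        · rw [← hzj, ← hcj]; exact h
      · rw [← hzj]
        exact part_le hL hL3 hp (Sum.inl j) (by rw [hcj]; exact h0)
  · intro t h0 ht
    refine move_mem hx hy (fun r => ?_) h0 ht
    by_cases h : dz (W r) c = 0
    · exact Or.inl h
    · right
      refine ⟨?_, part_le hL hL3 hp (Sum.inr r) h⟩
      rcases hL _ hp (Sum.inr r) with h5 | h5
      · exact absurd h5 h
      · exact h5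

/-- if the coordinate `i` of `z` is larger than the total of some rows, there is an elementary
vector which changes `i` but none of these rows -/
theorem exists_free (hR : Um R) (hW : ∀ r, W r ∈ R) {z : Fin n → ℤ} (i : Fin n) (S : Finset ρ)
    (h : ∑ r ∈ S, (dz (W r) z).natAbs < (z i).natAbs) :
    ∃ c, Cf (fam W) z c ∧ c i = (z i).sign ∧ (∀ j, c j ≠ 0 → 1 ≤ (z j).natAbs) ∧
      ∀ r ∈ S, dz (W r) c = 0 := by
  classical
  have hF := fam_fam hR hW
  obtain ⟨L, _, hL2, hL3⟩ := decomp hF _ z le_rfl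
  have hL : ∀ p ∈ L, Cf (fam W) z p.2 := fun p hp => (hL2 p hp).2
  have hzi : ∀ j, dz (fam W (Sum.inl j)) z = z j := by
    intro j
    change dz (Pi.single j 1) z = _
    rw [dz_single]
  have hci : ∀ (c : Fin n → ℤ) j, dz (fam W (Sum.inl j)) c = c j := by
    intro c j
    change dz (Pi.single j 1) c = _
    rw [dz_single]
  have hex : ∃ p ∈ L, p.2 i ≠ 0 ∧ ∀ r ∈ S, dz (W r) p.2 = 0 := by
    by_contra hcon
    push Not at hcon
    have h1 := natAbs_eq_sum hL hL3 (Sum.inl i)
    rw [hzi] at h1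
    have h2 : ∀ r, (dz (W r) z).natAbs = (L.map fun p => p.1 * (dz (W r) p.2).natAbs).sum :=
      fun r => natAbs_eq_sum hL hL3 (Sum.inr r)
    have h3 : (L.map fun p => p.1 * (dz (fam W (Sum.inl i)) p.2).natAbs).sum ≤
        (L.map fun p => ∑ r ∈ S, p.1 * (dz (W r) p.2).natAbs).sum := by
      apply List.sum_le_sum
      intro p hp
      rw [hci]
      by_cases h0 : p.2 i = 0
      · rw [h0]; simp
      · obtain ⟨r, hr, hr'⟩ := hcon p hp h0
        have h4 : (p.2 i).natAbs ≤ 1 := by
          rcases hL p hp (Sum.inl i) with h5 | h5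
          · rw [hci] at h5; rw [h5]; simp
          · rw [hci, hzi] at h5
            rw [h5]
            rcases sgn_cases (z i) with ⟨h6, _⟩ | ⟨h6, _⟩ | ⟨h6, _⟩ <;> rw [h6] <;> simp
        have h5 : 1 ≤ (dz (W r) p.2).natAbs := Int.natAbs_pos.2 hr'
        calc p.1 * (p.2 i).natAbs ≤ p.1 * 1 := Nat.mul_le_mul_left _ h4
          _ ≤ p.1 * (dz (W r) p.2).natAbs := Nat.mul_le_mul_left _ h5
          _ ≤ ∑ r ∈ S, p.1 * (dz (W r) p.2).natAbs :=
            Finset.single_le_sum (f := fun r => p.1 * (dz (W r) p.2).natAbs)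
              (fun _ _ => Nat.zero_le _) hr
    have h4 : (L.map fun p => ∑ r ∈ S, p.1 * (dz (W r) p.2).natAbs).sum =
        ∑ r ∈ S, (dz (W r) z).natAbs := by
      have : ∀ L : List (ℕ × (Fin n → ℤ)),
          (L.map fun p => ∑ r ∈ S, p.1 * (dz (W r) p.2).natAbs).sum =
          ∑ r ∈ S, (L.map fun p => p.1 * (dz (W r) p.2).natAbs).sum := by
        intro L
        induction L with
        | nil => simp
        | cons q L ih => simp only [List.map_cons, List.sum_cons, ih, Finset.sum_add_distrib]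
      rw [this]
      exact Finset.sum_congr rfl fun r _ => (h2 r).symm
    rw [h4, ← h1] at h3
    omega
  obtain ⟨p, hp, hp1, hp2⟩ := hex
  refine ⟨p.2, hL p hp, ?_, ?_, hp2⟩
  · rcases hL p hp (Sum.inl i) with h5 | h5
    · rw [hci] at h5; exact absurd h5 hp1
    · rw [hci, hzi] at h5; exact h5
  · intro j hj
    have := part_le hL hL3 hp (Sum.inl j) (by rw [hci]; exact hj)
    rw [hzi] at this
    exact (hL2 p hp).1.trans this

end

end Pool.Agent.W2helper57.TU
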