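import Pool.Agent.H24R2.U.PercB
import Pool.Agent.H24R2.U.PolyB

set_option autoImplicit false

/-!
# Feasibility of systems of linear inequalities, in polynomial time
-/

namespace Pool.Agent.NPC.W2h57TU

open Pool.Agent.NPC Pool.Agent.H24U

/-- a row `(a, b)` stands for the inequality `a · x ≤ b` -/
abbrev Row : Type := List ℤ × ℤ

/-- the homogeneous system: denominator, positive parts, negative parts, slacks -/
def lpCols (N : ℕ) (S : List Row) : List (List ℤ) :=
  (S.map fun q => -q.2) ::
  (((List.range N).map fun j => S.map fun q => q.1.getD j 0) ++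
    (((List.range N).map fun j => S.map fun q => -(q.1.getD j 0)) ++
      ((List.range S.length).map fun r => (List.range S.length).map fun r' =>
        if r' = r then (1 : ℤ) else 0)))

/-- feasibility over the real numbers -/
def lpFeas (N : ℕ) (S : List Row) : Bool := (posMask (lpCols N S)).getD 0 false

/-- `x` satisfies the system `S` in `N` variables -/
def SatR (N : ℕ) (S : List Row) (x : ℕ → ℝ) : Prop :=
  ∀ q ∈ S, ∑ j ∈ Finset.range N, ((q.1.getD j 0 : ℤ) : ℝ) * x j ≤ (q.2 : ℝ)

noncomputable def csum (L : List (List ℤ)) (x : ℕ → ℝ) (i : ℕ) : ℝ :=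
  ∑ j ∈ Finset.range L.length, x j * (((L.getD j []).getD i 0 : ℤ) : ℝ)

theorem csum_cons (c : List ℤ) (L : List (List ℤ)) (x : ℕ → ℝ) (i : ℕ) :
    csum (c :: L) x i = x 0 * ((c.getD i 0 : ℤ) : ℝ) + csum L (fun j => x (j + 1)) i := by
  unfold csum
  rw [List.length_cons, Finset.sum_range_succ', add_comm]
  simp

theorem csum_append : ∀ (L1 L2 : List (List ℤ)) (x : ℕ → ℝ) (i : ℕ),
    csum (L1 ++ L2) x i = csum L1 x i + csum L2 (fun j => x (L1.length + j)) i := by
  intro L1
  induction L1 with
  | nil => intro L2 x i; simp [csum]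
  | cons c L1 ih =>
    intro L2 x i
    rw [List.cons_append, csum_cons, ih, csum_cons, add_assoc]
    congr 3
    funext j
    rw [List.length_cons]
    congr 1
    omega

theorem getD_map_range (N : ℕ) (F : ℕ → List ℤ) {j : ℕ} (hj : j < N) :
    ((List.range N).map F).getD j [] = F j := by
  rw [List.getD_eq_getElem _ _ (by simpa using hj)]
  simp

theorem csum_map_range (N : ℕ) (F : ℕ → List ℤ) (x : ℕ → ℝ) (i : ℕ) :
    csum ((List.range N).map F) x i =
      ∑ j ∈ Finset.range N, x j * (((F j).getD i 0 : ℤ) : ℝ) := by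
  unfold csum
  rw [List.length_map, List.length_range]
  refine Finset.sum_congr rfl fun j hj => ?_
  rw [getD_map_range N F (Finset.mem_range.1 hj)]

theorem lpCols_len (N : ℕ) (S : List Row) : ∀ c ∈ lpCols N S, c.length = S.length := by
  intro c hc
  unfold lpCols at hc
  simp only [List.mem_cons, List.mem_append, List.mem_map, List.mem_range] at hc
  rcases hc with rfl | ⟨j, _, rfl⟩ | ⟨j, _, rfl⟩ | ⟨j, _, rfl⟩ <;> simp

theorem csum_lpCols (N : ℕ) (S : List Row) (x : ℕ → ℝ) {i : ℕ} (hi : i < S.length) :
    csum (lpCols N S) x i = -(x 0 * ((S[i].2 : ℤ) : ℝ)) +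
      (∑ j ∈ Finset.range N, x (j + 1) * ((S[i].1.getD j 0 : ℤ) : ℝ) -
        ∑ j ∈ Finset.range N, x (N + j + 1) * ((S[i].1.getD j 0 : ℤ) : ℝ) +
        x (N + (N + i) + 1)) := by
  unfold lpCols
  rw [csum_cons, csum_append, csum_append, csum_map_range, csum_map_range, csum_map_range]
  have e1 : ((S.map fun q => -q.2).getD i 0 : ℤ) = -S[i].2 := by
    rw [List.getD_eq_getElem _ _ (by simpa using hi)]
    simp
  have e2 : ∀ j, ((S.map fun q => q.1.getD j 0).getD i 0 : ℤ) = S[i].1.getD j 0 := by
    intro j
    rw [List.getD_eq_getElem _ _ (by simpa using hi)]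
    simp
  have e3 : ∀ j, ((S.map fun q => -(q.1.getD j 0)).getD i 0 : ℤ) = -S[i].1.getD j 0 := by
    intro j
    rw [List.getD_eq_getElem _ _ (by simpa using hi)]
    simp
  have e4 : ∀ r, (((List.range S.length).map fun r' => if r' = r then (1 : ℤ) else 0).getD i 0) =
      if i = r then 1 else 0 := by
    intro r
    rw [List.getD_eq_getElem _ _ (by simpa using hi)]
    simp
  rw [e1]
  simp only [e2, e3, e4, List.length_map, List.length_range]
  push_cast
  have e5 : ∑ r ∈ Finset.range S.length, x (N + (N + r) + 1) * (if i = r then (1 : ℝ) else 0) =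
      x (N + (N + i) + 1) := by
    rw [Finset.sum_eq_single i]
    · simp
    · intro r _ hr
      rw [if_neg (fun h => hr h.symm), mul_zero]
    · intro h
      exact absurd (Finset.mem_range.2 hi) h
  rw [e5]
  simp only [mul_neg, Finset.sum_neg_distrib]
  ring

theorem lpFeas_iff (N : ℕ) (S : List Row) : lpFeas N S = true ↔ ∃ x, SatR N S x := by
  unfold lpFeas
  rw [(posMask_spec (lpCols_len N S)).2 0 (by simp [lpCols])]
  constructor
  · rintro ⟨x, ⟨hx1, hx2⟩, hx3⟩
    refine ⟨fun j => (x (j + 1) - x (N + j + 1)) / x 0, fun q hq => ?_⟩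
    obtain ⟨i, hi, rfl⟩ := List.mem_iff_getElem.1 hq
    have h1 := hx2 i
    change csum (lpCols N S) x i = 0 at h1
    rw [csum_lpCols N S x hi] at h1
    have h2 : ∑ j ∈ Finset.range N, ((S[i].1.getD j 0 : ℤ) : ℝ) *
        ((x (j + 1) - x (N + j + 1)) / x 0) =
        (∑ j ∈ Finset.range N, x (j + 1) * ((S[i].1.getD j 0 : ℤ) : ℝ) -
        ∑ j ∈ Finset.range N, x (N + j + 1) * ((S[i].1.getD j 0 : ℤ) : ℝ)) / x 0 := by
      rw [← Finset.sum_sub_distrib, Finset.sum_div]
      exact Finset.sum_congr rfl fun j _ => by ring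
    rw [h2, div_le_iff₀ hx3]
    have h3 := hx1 (N + (N + i) + 1)
    linarith
  · rintro ⟨x, hx⟩
    set y : ℕ → ℝ := fun k => if k = 0 then 1 else
      if k ≤ N then max (x (k - 1)) 0 else
      if k ≤ N + N then max (-(x (k - 1 - N))) 0 else
      if h : k - 1 - N - N < S.length then
        (S[k - 1 - N - N].2 : ℝ) -
          ∑ j ∈ Finset.range N, ((S[k - 1 - N - N].1.getD j 0 : ℤ) : ℝ) * x j else 0 with hy
    have y0 : y 0 = 1 := by simp [hy]
    have yp : ∀ j < N, y (j + 1) = max (x j) 0 := by
      intro j hj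
      simp only [hy]
      rw [if_neg (by omega), if_pos (by omega), Nat.add_sub_cancel]
    have yn : ∀ j < N, y (N + j + 1) = max (-(x j)) 0 := by
      intro j hj
      simp only [hy]
      rw [if_neg (by omega), if_neg (by omega), if_pos (by omega)]
      congr 3
      omega
    have ys : ∀ i, ∀ hi : i < S.length, y (N + (N + i) + 1) = (S[i].2 : ℝ) -
        ∑ j ∈ Finset.range N, ((S[i].1.getD j 0 : ℤ) : ℝ) * x j := by
      intro i hi
      have e : N + (N + i) + 1 - 1 - N - N = i := by omega
      simp only [hy]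
      rw [if_neg (by omega), if_neg (by omega), if_neg (by omega)]
      simp only [e]
      rw [dif_pos hi]
    refine ⟨y, ⟨?_, ?_⟩, by rw [y0]; norm_num⟩
    · intro k
      simp only [hy]
      split_ifs with h1 h2 h3 h4
      · norm_num
      · exact le_max_right _ _
      · exact le_max_right _ _
      · have := hx _ (List.getElem_mem h4)
        linarith
      · exact le_rfl
    · intro i
      by_cases hi : i < S.length
      · change csum (lpCols N S) y i = 0
        rw [csum_lpCols N S y hi, y0, ys i hi]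
        have e1 : ∑ j ∈ Finset.range N, y (j + 1) * ((S[i].1.getD j 0 : ℤ) : ℝ) -
            ∑ j ∈ Finset.range N, y (N + j + 1) * ((S[i].1.getD j 0 : ℤ) : ℝ) =
            ∑ j ∈ Finset.range N, ((S[i].1.getD j 0 : ℤ) : ℝ) * x j := by
          rw [← Finset.sum_sub_distrib]
          refine Finset.sum_congr rfl fun j hj => ?_
          rw [yp j (Finset.mem_range.1 hj), yn j (Finset.mem_range.1 hj)]
          rcases le_total 0 (x j) with h | h
          · rw [max_eq_left h, max_eq_right (by linarith)]; ring
          · rw [max_eq_right h, max_eq_left (by linarith)]; ring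
        rw [e1]
        ring
      · refine Finset.sum_eq_zero fun j hj => ?_
        have : ((lpCols N S).getD j []).getD i 0 = 0 := by
          apply List.getD_eq_default
          have hj' := Finset.mem_range.1 hj
          rw [List.getD_eq_getElem _ _ hj', lpCols_len N S _ (List.getElem_mem hj')]
          omega
        rw [this]
        simp

section

variable {α : Type} [TEnc α]

theorem poly_lpFeas {N : α → ℕ} {S : α → List Row} (hN : UPoly N) (hS : Poly S) :
    Poly (fun a => lpFeas (N a) (S a)) := by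
  unfold lpFeas
  refine Poly.getD (d := fun _ => false) (poly_posMask ?_) (Poly.const 0) (Poly.const false)
  unfold lpCols
  have hSl : UPoly (fun a => (S a).length) := UPoly.length hS
  refine Poly.cons ?_ (Poly.append ?_ (Poly.append ?_ ?_))
  · exact Poly.map hS (Poly.ineg (Poly.snd (Poly.snd Poly.id)))
  · refine Poly.map hN.range (Poly.map (hS.comp (Poly.fst Poly.id)) ?_)
    exact Poly.getD (d := fun _ => (0 : ℤ)) (Poly.fst (Poly.snd Poly.id))
      (Poly.snd (Poly.fst Poly.id)) (Poly.const 0)
  · refine Poly.map hN.range (Poly.map (hS.comp (Poly.fst Poly.id)) ?_)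
    exact Poly.ineg (Poly.getD (d := fun _ => (0 : ℤ)) (Poly.fst (Poly.snd Poly.id))
      (Poly.snd (Poly.fst Poly.id)) (Poly.const 0))
  · refine Poly.map hSl.range (Poly.map (hSl.range.comp (Poly.fst Poly.id)) ?_)
    exact Poly.ite (Poly.decide_eq (Poly.snd Poly.id) (Poly.snd (Poly.fst Poly.id)))
      (Poly.const 1) (Poly.const 0)

end

end Pool.Agent.NPC.W2h57TU
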