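import Pool.Agent.W2helper57.TU.Dir

set_option autoImplicit false

/-!
# Quadratic functions along feasible directions: bounded solutions and the grid lemma
-/

namespace Pool.Agent.W2helper57.TU

open Finset

/-- a separable quadratic function -/
def qf {n : ℕ} (q h x : Fin n → ℤ) : ℤ := ∑ j, (q j * x j ^ 2 + h j * x j)

theorem qf_line {n : ℕ} (q h x c : Fin n → ℤ) : ∃ α β : ℤ, ∀ t : ℤ,
    qf q h (x + t • c) = qf q h x + (β * t + α * t ^ 2) := by
  refine ⟨∑ j, q j * c j ^ 2, ∑ j, (2 * q j * x j * c j + h j * c j), fun t => ?_⟩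
  unfold qf
  rw [Finset.sum_mul, Finset.sum_mul, ← Finset.sum_add_distrib, ← Finset.sum_add_distrib]
  refine Finset.sum_congr rfl fun j _ => ?_
  simp only [Pi.add_apply, Pi.smul_apply, smul_eq_mul]
  ring

theorem quad_bound {α β R : ℤ} {l : ℕ} (hl : 1 ≤ l)
    (h : ∀ t : ℤ, 0 ≤ t → t ≤ l → |β * t + α * t ^ 2| ≤ R) {t : ℤ} (h0 : 0 ≤ t) (ht : t ≤ l) :
    l * (β * t + α * t ^ 2) ≤ 19 * R * t := by
  have hR : 0 ≤ R := (abs_nonneg _).trans (h 0 le_rfl (by omega))
  rcases hl.eq_or_lt with h1 | h1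
  · have : t = 0 ∨ t = 1 := by omega
    rcases this with rfl | rfl
    · simp
    · have h2 := (abs_le.1 (h 1 (by norm_num) (by omega))).2
      rw [← h1]
      push_cast
      linarith
  · obtain ⟨m, hm1, hm2, hm3⟩ : ∃ m : ℤ, 1 ≤ m ∧ 2 * m ≤ l ∧ (l : ℤ) ≤ 2 * m + 1 :=
      ⟨(l : ℤ) / 2, by omega, by omega, by omega⟩
    set L : ℤ := (l : ℤ) with hL
    have hLpos : 0 < L := by omega
    have e1 := abs_le.1 (h m (by omega) (by omega))
    have e2 := abs_le.1 (h L (by omega) le_rfl)
    have k1 : 0 ≤ L - m := by omega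
    -- bound for `|α| L²`
    have key : |α| * L ^ 2 ≤ 9 * R := by
      have i1 : (β * L + α * L ^ 2) * m - (β * m + α * m ^ 2) * L = α * (L * (m * (L - m))) := by
        ring
      have i2 : |α * (L * (m * (L - m)))| ≤ R * (m + L) := by
        rw [← i1]
        rw [abs_le]
        constructor
        · nlinarith [e1.1, e1.2, e2.1, e2.2]
        · nlinarith [e1.1, e1.2, e2.1, e2.2]
      rw [abs_mul, abs_of_nonneg (by positivity : (0:ℤ) ≤ L * (m * (L - m)))] at i2
      have i3 : L * (2 * (m * (L - m)) * |α|) ≤ L * (3 * R) := by nlinarith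
      have i4 : 2 * (m * (L - m)) * |α| ≤ 3 * R := le_of_mul_le_mul_left i3 hLpos
      have i5 : L ^ 2 ≤ 6 * (m * (L - m)) := by nlinarith
      have i6 : |α| * L ^ 2 ≤ |α| * (6 * (m * (L - m))) :=
        mul_le_mul_of_nonneg_left i5 (abs_nonneg _)
      linarith
    have k2 : |β| * L ≤ 10 * R := by
      have i1 : β * L = (β * L + α * L ^ 2) - α * L ^ 2 := by ring
      have i2 : |β * L| ≤ R + |α| * L ^ 2 := by
        rw [i1]
        refine (abs_sub _ _).trans ?_
        rw [abs_mul α, abs_of_nonneg (by positivity : (0:ℤ) ≤ L ^ 2)]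
        have := h L hLpos.le le_rfl
        linarith
      rw [abs_mul, abs_of_pos hLpos] at i2
      linarith
    have j1 : β * t ≤ |β| * t := mul_le_mul_of_nonneg_right (le_abs_self _) h0
    have j2 : α * t ^ 2 ≤ |α| * t ^ 2 := mul_le_mul_of_nonneg_right (le_abs_self _) (by positivity)
    have j3 : L * (β * t) ≤ 10 * R * t := by
      calc L * (β * t) ≤ L * (|β| * t) := mul_le_mul_of_nonneg_left j1 hLpos.le
        _ = (|β| * L) * t := by ring
        _ ≤ 10 * R * t := mul_le_mul_of_nonneg_right k2 h0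
    have j4 : L * (α * t ^ 2) ≤ 9 * R * t := by
      calc L * (α * t ^ 2) ≤ L * (|α| * t ^ 2) := mul_le_mul_of_nonneg_left j2 hLpos.le
        _ = (|α| * L * t) * t := by ring
        _ ≤ (|α| * L * L) * t := mul_le_mul_of_nonneg_right
            (mul_le_mul_of_nonneg_left ht (by positivity)) h0
        _ = (|α| * L ^ 2) * t := by ring
        _ ≤ 9 * R * t := mul_le_mul_of_nonneg_right key h0
    calc L * (β * t + α * t ^ 2) = L * (β * t) + L * (α * t ^ 2) := by ring
      _ ≤ 10 * R * t + 9 * R * t := add_le_add j3 j4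
      _ = 19 * R * t := by ring

theorem const_of_bounded {α β K : ℤ} (h : ∀ t : ℤ, 0 ≤ t → |β * t + α * t ^ 2| ≤ K) :
    α = 0 ∧ β = 0 := by
  have hK : 0 ≤ K := (abs_nonneg _).trans (h 0 le_rfl)
  have hα : α = 0 := by
    by_contra hne
    have h1 := h (2 * K + 1) (by omega)
    have h2 := h (2 * (2 * K + 1)) (by omega)
    have h3 : |2 * α * (2 * K + 1) ^ 2| ≤ 3 * K := by
      have : 2 * α * (2 * K + 1) ^ 2 = (β * (2 * (2 * K + 1)) + α * (2 * (2 * K + 1)) ^ 2) -
          2 * (β * (2 * K + 1) + α * (2 * K + 1) ^ 2) := by ring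
      rw [this]
      refine (abs_sub _ _).trans ?_
      rw [abs_mul 2]
      norm_num
      linarith
    rw [abs_mul, abs_mul, abs_of_nonneg (by positivity : (0:ℤ) ≤ (2 * K + 1) ^ 2)] at h3
    have h4 : 1 ≤ |α| := Int.one_le_abs hne
    norm_num at h3
    nlinarith
  refine ⟨hα, ?_⟩
  by_contra hne
  have h1 := h (K + 1) (by omega)
  rw [hα] at h1
  have h2 : β * (K + 1) + 0 * (K + 1) ^ 2 = β * (K + 1) := by ring
  rw [h2, abs_mul, abs_of_pos (by omega : 0 < K + 1)] at h1
  have h4 : 1 ≤ |β| := Int.one_le_abs hne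
  nlinarith

section

variable {n : ℕ} {R : Set (Fin n → ℤ)} {ρ : Type} [Fintype ρ] {W : ρ → Fin n → ℤ} {w : ρ → ℤ}

/-- the grid lemma: the coordinate `i` can be increased to a nearby grid value at low cost -/
theorem grid (hR : Um R) (hW : ∀ r, W r ∈ R) {q h : Fin n → ℤ} {m M : ℤ}
    (hf : ∀ x ∈ Fs W w, m ≤ qf q h x ∧ qf q h x ≤ M) {x y : Fin n → ℤ} (hx : x ∈ Fs W w)
    (hy : y ∈ Fs W w) (i : Fin n) (N : ℕ) (hN : 1 ≤ N) {t : ℤ} (ht0 : 0 ≤ t)
    (ht : t * (19 * N * (n + Fintype.card ρ)) ≤ y i - x i) :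
    ∃ x' ∈ Fs W w, x' i = x i + t ∧ N * (qf q h x' - qf q h x) ≤ M - m := by
  have hn : 0 < n := Fin.pos i
  set C : ℤ := (n : ℤ) + Fintype.card ρ with hC
  have hC0 : 0 < C := by omega
  have hmM : 0 ≤ M - m := by
    have := hf x hx
    linarith [this.1, this.2]
  have hN' : (1 : ℤ) ≤ N := by exact_mod_cast hN
  have hge : x i ≤ y i := by
    have : 0 ≤ t * (19 * N * C) := by positivity
    linarith
  by_cases hxy : x i = y i
  · have ht' : t = 0 := by
      by_contra hne
      have : 1 ≤ t := by omega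
      have h1 : 0 < t * (19 * N * C) := by positivity
      rw [hxy] at ht
      linarith
    refine ⟨x, hx, by rw [ht']; ring, ?_⟩
    rw [sub_self, mul_zero]
    exact hmM
  · obtain ⟨c, l, hc, hl, _, hmem⟩ := exists_dir hR hW hx hy i hxy
    have hlt : 0 < y i - x i := by omega
    rw [Int.sign_eq_one_of_pos hlt] at hc
    have hl' : y i - x i ≤ l * C := by
      have : ((y i - x i).natAbs : ℤ) ≤ ((l * (n + Fintype.card ρ) : ℕ) : ℤ) := by exact_mod_cast hl
      push_cast at this
      rwa [abs_of_pos hlt] at this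
    have hl1 : 1 ≤ l := by
      by_contra h0
      have : l = 0 := by omega
      rw [this] at hl'
      push_cast at hl'
      linarith
    have h1 : t * (19 * N) ≤ l := by
      have : (t * (19 * N)) * C ≤ l * C := by
        calc (t * (19 * N)) * C = t * (19 * N * C) := by ring
          _ ≤ y i - x i := ht
          _ ≤ l * C := hl'
      exact le_of_mul_le_mul_right this hC0
    have htl : t ≤ l := by nlinarith
    obtain ⟨α, β, hab⟩ := qf_line q h x c
    have hb : ∀ s : ℤ, 0 ≤ s → s ≤ l → |β * s + α * s ^ 2| ≤ M - m := by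
      intro s hs0 hsl
      have e1 := hf _ (hmem s hs0 hsl).1
      have e2 := hf x hx
      rw [hab s] at e1
      rw [abs_le]
      constructor <;> linarith [e1.1, e1.2, e2.1, e2.2]
    have h2 := quad_bound hl1 hb ht0 htl
    refine ⟨x + t • c, (hmem t ht0 htl).1, ?_, ?_⟩
    · simp [hc]
    · rw [hab t]
      have hl0 : (0 : ℤ) < l := by exact_mod_cast hl1
      have h3 : l * (N * (β * t + α * t ^ 2)) ≤ l * (M - m) := by
        calc l * (N * (β * t + α * t ^ 2)) = N * (l * (β * t + α * t ^ 2)) := by ring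
          _ ≤ N * (19 * (M - m) * t) := mul_le_mul_of_nonneg_left h2 (by positivity)
          _ = (M - m) * (t * (19 * N)) := by ring
          _ ≤ (M - m) * l := mul_le_mul_of_nonneg_left h1 hmM
          _ = l * (M - m) := by ring
      have := le_of_mul_le_mul_left h3 hl0
      linarith

/-- a feasible system has a small solution -/
theorem exists_small (hR : Um R) (hW : ∀ r, W r ∈ R) (hne : (Fs W w).Nonempty) :
    ∃ x ∈ Fs W w, ∀ i, (x i).natAbs ≤ ∑ r, (w r).natAbs := by
  classical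
  obtain ⟨x, hx, hmin⟩ : ∃ x ∈ Fs W w, ∀ y ∈ Fs W w, ∑ j, (x j).natAbs ≤ ∑ j, (y j).natAbs := by
    have hwf := WellFounded.min_mem (measure fun x : Fin n → ℤ => ∑ j, (x j).natAbs).wf (Fs W w) hne
    refine ⟨_, hwf, fun y hy => ?_⟩
    have := WellFounded.not_lt_min (measure fun x : Fin n → ℤ => ∑ j, (x j).natAbs).wf
      (Fs W w) hy
    exact not_lt.1 this
  refine ⟨x, hx, fun i => ?_⟩
  by_contra hcon
  push Not at hcon
  set S : Finset ρ := univ.filter fun r => dz (W r) x < 0 ∧ dz (W r) x = w r with hS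
  have h1 : ∑ r ∈ S, (dz (W r) x).natAbs < (x i).natAbs := by
    refine lt_of_le_of_lt ?_ hcon
    calc ∑ r ∈ S, (dz (W r) x).natAbs = ∑ r ∈ S, (w r).natAbs := by
          refine Finset.sum_congr rfl fun r hr => ?_
          rw [hS, Finset.mem_filter] at hr
          rw [hr.2.2]
      _ ≤ ∑ r, (w r).natAbs := Finset.sum_le_sum_of_subset (Finset.subset_univ _)
  obtain ⟨c, hc1, hc2, hc3, hc4⟩ := exists_free hR hW i S h1
  have hmem : x - c ∈ Fs W w := by
    intro r
    rw [dz_sub]
    by_cases hr : r ∈ S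
    · rw [hc4 r hr, sub_zero]; exact hx r
    · have hxr := hx r
      rcases hc1 (Sum.inr r) with h | h
      · have : dz (W r) c = 0 := h
        rw [this, sub_zero]; exact hxr
      · have h' : dz (W r) c = (dz (W r) x).sign := h
        rw [h']
        rcases sgn_cases (dz (W r) x) with ⟨h6, h7⟩ | ⟨h6, h7⟩ | ⟨h6, h7⟩ <;> rw [h6]
        · linarith
        · linarith
        · have : dz (W r) x ≠ w r := by
            intro h8
            apply hr
            rw [hS, Finset.mem_filter]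
            exact ⟨Finset.mem_univ _, h7, h8⟩
          omega
  have hcj : ∀ j, c j = 0 ∨ c j = (x j).sign := by
    intro j
    rcases hc1 (Sum.inl j) with h | h
    · left
      have : dz (Pi.single j 1) c = 0 := h
      rwa [dz_single] at this
    · right
      have : dz (Pi.single j 1) c = (dz (Pi.single j 1) x).sign := h
      rwa [dz_single, dz_single] at this
  have hle : ∀ j, ((x - c) j).natAbs ≤ (x j).natAbs := by
    intro j
    change (x j - c j).natAbs ≤ _
    rcases hcj j with h | h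
    · rw [h, sub_zero]
    · rw [h]
      rcases sgn_cases (x j) with ⟨h6, h7⟩ | ⟨h6, h7⟩ | ⟨h6, h7⟩ <;> rw [h6] <;> omega
  have hlt : ((x - c) i).natAbs < (x i).natAbs := by
    change (x i - c i).natAbs < _
    have : x i ≠ 0 := by
      intro h; rw [h] at hcon; simp at hcon
    rw [hc2]
    rcases sgn_cases (x i) with ⟨h6, h7⟩ | ⟨h6, h7⟩ | ⟨h6, h7⟩ <;> rw [h6] <;> omega
  have h2 := hmin _ hmem
  have h3 : ∑ j, ((x - c) j).natAbs < ∑ j, (x j).natAbs :=
    Finset.sum_lt_sum (fun j _ => hle j) ⟨i, Finset.mem_univ _, hlt⟩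
  omega

/-- if the function is bounded on the feasible set, every value is attained near a given point -/
theorem exists_near (hR : Um R) (hW : ∀ r, W r ∈ R) {q h : Fin n → ℤ} {m M : ℤ}
    (hf : ∀ x ∈ Fs W w, m ≤ qf q h x ∧ qf q h x ≤ M) {x0 xs : Fin n → ℤ} (hx0 : x0 ∈ Fs W w)
    (hxs : xs ∈ Fs W w) : ∃ x ∈ Fs W w, qf q h x = qf q h xs ∧
      ∀ i, (x i - x0 i).natAbs ≤ ∑ r, ((w r).natAbs + (dz (W r) x0).natAbs) := by
  classical
  set T : Set (Fin n → ℤ) := {x | x ∈ Fs W w ∧ qf q h x = qf q h xs} with hT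
  have hne : T.Nonempty := ⟨xs, hxs, rfl⟩
  obtain ⟨x, hxT, hmin⟩ : ∃ x ∈ T, ∀ y ∈ T, ∑ j, (x j - x0 j).natAbs ≤
      ∑ j, (y j - x0 j).natAbs := by
    have hwf := WellFounded.min_mem
      (measure fun x : Fin n → ℤ => ∑ j, (x j - x0 j).natAbs).wf T hne
    refine ⟨_, hwf, fun y hy => ?_⟩
    have := WellFounded.not_lt_min
      (measure fun x : Fin n → ℤ => ∑ j, (x j - x0 j).natAbs).wf T hy
    exact not_lt.1 this
  obtain ⟨hx, hfx⟩ := hxT
  refine ⟨x, hx, hfx, fun i => ?_⟩
  by_contra hcon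
  push Not at hcon
  set z : Fin n → ℤ := x - x0 with hz
  set S : Finset ρ := univ.filter fun r => 0 < dz (W r) z with hS
  have h1 : ∑ r ∈ S, (dz (W r) z).natAbs < (z i).natAbs := by
    refine lt_of_le_of_lt ?_ hcon
    refine (Finset.sum_le_sum (g := fun r => (w r).natAbs + (dz (W r) x0).natAbs)
      fun r hr => ?_).trans (Finset.sum_le_sum_of_subset (Finset.subset_univ _))
    rw [hS, Finset.mem_filter] at hr
    have h2 := hr.2
    have h3 := hx r
    rw [hz, dz_sub] at h2 ⊢
    omega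
  obtain ⟨c, hc1, hc2, hc3, hc4⟩ := exists_free hR hW i S h1
  have hcr : ∀ r, dz (W r) c ≤ 0 := by
    intro r
    by_cases hr : r ∈ S
    · rw [hc4 r hr]
    · rcases hc1 (Sum.inr r) with h | h
      · exact le_of_eq h
      · have h' : dz (W r) c = (dz (W r) z).sign := h
        rw [h']
        rcases sgn_cases (dz (W r) z) with ⟨h6, h7⟩ | ⟨h6, h7⟩ | ⟨h6, h7⟩
        · exact absurd (by rw [hS, Finset.mem_filter]; exact ⟨Finset.mem_univ _, h7⟩) hr
        · rw [h6]
        · rw [h6]; norm_num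
  have hray : ∀ t : ℤ, 0 ≤ t → x + t • c ∈ Fs W w := by
    intro t ht r
    rw [dz_add, dz_smul]
    have := mul_nonpos_of_nonneg_of_nonpos ht (hcr r)
    linarith [hx r]
  obtain ⟨α, β, hab⟩ := qf_line q h x c
  have hbd : ∀ t : ℤ, 0 ≤ t → |β * t + α * t ^ 2| ≤ M - m := by
    intro t ht
    have e1 := hf _ (hray t ht)
    have e2 := hf x hx
    rw [hab t] at e1
    rw [abs_le]
    constructor <;> linarith [e1.1, e1.2, e2.1, e2.2]
  obtain ⟨hα, hβ⟩ := const_of_bounded hbd
  have hval : qf q h (x - c) = qf q h x := by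
    have := hab (-1)
    rw [hα, hβ] at this
    have e : x + (-1 : ℤ) • c = x - c := by
      funext j; simp [sub_eq_add_neg]
    rw [e] at this
    rw [this]; ring
  have hmem : x - c ∈ Fs W w := by
    have := (move_mem (c := c) (l := 1) (t := 1) hx0 hx (fun r => ?_) (by norm_num)
      (by norm_num)).2
    · simpa using this
    · by_cases h0 : dz (W r) c = 0
      · exact Or.inl h0
      · right
        rcases hc1 (Sum.inr r) with h | h
        · exact absurd h h0
        · have h' : dz (W r) c = (dz (W r) z).sign := h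
          refine ⟨h', ?_⟩
          apply Int.natAbs_pos.2
          intro h9
          rw [h', hz, h9] at h0
          exact h0 rfl
  have hcj : ∀ j, c j = 0 ∨ c j = (z j).sign := by
    intro j
    rcases hc1 (Sum.inl j) with h | h
    · left
      have : dz (Pi.single j 1) c = 0 := h
      rwa [dz_single] at this
    · right
      have : dz (Pi.single j 1) c = (dz (Pi.single j 1) z).sign := h
      rwa [dz_single, dz_single] at this
  have hzj : ∀ j, z j = x j - x0 j := fun j => rfl
  have hle : ∀ j, ((x - c) j - x0 j).natAbs ≤ (x j - x0 j).natAbs := by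
    intro j
    change (x j - c j - x0 j).natAbs ≤ _
    rcases hcj j with h | h
    · rw [h, sub_zero]
    · rw [h, hzj]
      rcases sgn_cases (x j - x0 j) with ⟨h6, h7⟩ | ⟨h6, h7⟩ | ⟨h6, h7⟩ <;> rw [h6] <;> omega
  have hlt : ((x - c) i - x0 i).natAbs < (x i - x0 i).natAbs := by
    change (x i - c i - x0 i).natAbs < _
    have : x i - x0 i ≠ 0 := by
      intro h; rw [h] at hcon; simp at hcon
    rw [hc2, hzj]
    rcases sgn_cases (x i - x0 i) with ⟨h6, h7⟩ | ⟨h6, h7⟩ | ⟨h6, h7⟩ <;> rw [h6] <;> omega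
  have h2 := hmin (x - c) ⟨hmem, hval.trans hfx⟩
  have h3 : ∑ j, ((x - c) j - x0 j).natAbs < ∑ j, (x j - x0 j).natAbs :=
    Finset.sum_lt_sum (fun j _ => hle j) ⟨i, Finset.mem_univ _, hlt⟩
  omega

end

end Pool.Agent.W2helper57.TU
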