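import Mathlib

set_option autoImplicit false

/-!
# Unimodular sets of integer vectors; rounding of real points of polyhedra
-/

namespace Pool.Agent.W2helper57.TU

open Finset Matrix

/-- A set of integer vectors is unimodular: all `n × n` determinants are `0`, `1` or `-1`; the set
is closed under negation and contains the unit vectors. -/
structure Um {n : ℕ} (R : Set (Fin n → ℤ)) : Prop where
  det : ∀ M : Fin n → Fin n → ℤ, (∀ i, M i ∈ R) →
    (Matrix.of M).det = 0 ∨ (Matrix.of M).det = 1 ∨ (Matrix.of M).det = -1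
  neg : ∀ v ∈ R, -v ∈ R
  unit : ∀ j, (Pi.single j 1 : Fin n → ℤ) ∈ R

/-- rows of a totally unimodular matrix, unit vectors, and their negatives -/
def RW {m n : ℕ} (A : Matrix (Fin m) (Fin n) ℤ) : Set (Fin n → ℤ) :=
  {v | ∃ r : Fin m ⊕ Fin n, v = Matrix.fromRows A 1 r ∨ v = -Matrix.fromRows A 1 r}

theorem um_RW {m n : ℕ} {A : Matrix (Fin m) (Fin n) ℤ} (hA : A.IsTotallyUnimodular) :
    Um (RW A) := by
  have hT : (Matrix.fromRows A (1 : Matrix (Fin n) (Fin n) ℤ)).IsTotallyUnimodular :=
    (Matrix.fromRows_one_isTotallyUnimodular_iff A).2 hA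
  refine ⟨fun M hM => ?_, fun v hv => ?_, fun j => ⟨Sum.inr j, Or.inl ?_⟩⟩
  · choose f hf using hM
    have hs : ∀ i, ∃ s : ℤ, (s = 1 ∨ s = -1) ∧ M i = fun j => s * Matrix.fromRows A 1 (f i) j := by
      intro i
      rcases hf i with h | h
      · exact ⟨1, Or.inl rfl, by rw [h]; funext j; rw [one_mul]⟩
      · exact ⟨-1, Or.inr rfl, by rw [h]; funext j; simp⟩
    choose s hs1 hs2 using hs
    have h1 : Matrix.of M = Matrix.of (fun i j => s i * (Matrix.fromRows A 1).submatrix f id i j) := by
      ext i j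
      simp only [Matrix.of_apply, Matrix.submatrix_apply, id]
      rw [hs2 i]
    rw [h1, Matrix.det_mul_column]
    have h2 := (Matrix.isTotallyUnimodular_iff _).1 hT n f id
    have h3 : ∏ i, s i = 1 ∨ ∏ i, s i = -1 := by
      have : ∀ t : Finset (Fin n), ∏ i ∈ t, s i = 1 ∨ ∏ i ∈ t, s i = -1 := by
        intro t
        induction t using Finset.induction_on with
        | empty => left; simp
        | insert a t ha ih =>
          rw [Finset.prod_insert ha]
          rcases hs1 a with h | h <;> rcases ih with h' | h' <;> rw [h, h'] <;> simp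
      exact this _
    obtain ⟨t, ht⟩ := h2
    rw [← ht]
    rcases h3 with h | h <;> rw [h] <;> cases t <;> simp
  · obtain ⟨r, h | h⟩ := hv
    · exact ⟨r, Or.inr (by rw [h])⟩
    · exact ⟨r, Or.inl (by rw [h, neg_neg])⟩
  · funext k
    simp [Matrix.one_apply, Pi.single_apply, eq_comm]

theorem RW_row {m n : ℕ} (A : Matrix (Fin m) (Fin n) ℤ) (r : Fin m) : A r ∈ RW A :=
  ⟨Sum.inl r, Or.inl rfl⟩

section

variable {n : ℕ} {R : Set (Fin n → ℤ)} (hR : Um R) {ι : Type} [Fintype ι] (v : ι → Fin n → ℤ)
  (hv : ∀ i, v i ∈ R) (b : ι → ℤ)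

/-- real dot product with an integer vector -/
noncomputable def dr {n : ℕ} (v : Fin n → ℤ) (x : Fin n → ℝ) : ℝ := ∑ j, (v j : ℝ) * x j

theorem dr_add {n : ℕ} (v : Fin n → ℤ) (x y : Fin n → ℝ) : dr v (x + y) = dr v x + dr v y := by
  unfold dr
  rw [← Finset.sum_add_distrib]
  exact Finset.sum_congr rfl fun j _ => by simp [mul_add]

theorem dr_smul {n : ℕ} (v : Fin n → ℤ) (t : ℝ) (x : Fin n → ℝ) : dr v (t • x) = t * dr v x := by
  unfold dr
  rw [Finset.mul_sum]
  exact Finset.sum_congr rfl fun j _ => by simp; ring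

theorem dr_int {n : ℕ} (v x : Fin n → ℤ) :
    dr v (fun j => (x j : ℝ)) = ((∑ j, v j * x j : ℤ) : ℝ) := by
  unfold dr
  push_cast
  rfl

include hR hv in
/-- a real solution at which the tight constraints determine everything is integral -/
theorem integral_of_ker (x : Fin n → ℝ)
    (hker : ∀ d : Fin n → ℝ, (∀ i, dr (v i) x = b i → dr (v i) d = 0) → d = 0) :
    ∃ y : Fin n → ℤ, ∀ j, x j = y j := by
  classical
  set s : Set (Fin n → ℝ) := {u | ∃ i, dr (v i) x = b i ∧ u = fun j => (v i j : ℝ)} with hs
  have hspan : Submodule.span ℝ s = ⊤ := by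
    by_contra hne
    obtain ⟨f, hf0, hf⟩ := Submodule.exists_le_ker_of_lt_top _ (lt_top_iff_ne_top.2 hne)
    apply hf0
    have hdot : ∀ u : Fin n → ℝ, f u = ∑ j, u j * f (Pi.single j 1) := by
      intro u
      conv_lhs => rw [← Finset.univ_sum_single u]
      rw [map_sum]
      refine Finset.sum_congr rfl fun j _ => ?_
      have : (Pi.single j (u j) : Fin n → ℝ) = u j • (Pi.single j (1 : ℝ)) := by
        ext k
        by_cases hk : k = j
        · subst hk; simp
        · simp [Pi.single_eq_of_ne hk]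
      rw [this, map_smul, smul_eq_mul]
    have h0 := hker (fun j => f (Pi.single j 1)) (fun i hi => by
      have h1 : (fun j => (v i j : ℝ)) ∈ Submodule.span ℝ s := Submodule.subset_span ⟨i, hi, rfl⟩
      have h2 := hf h1
      rw [LinearMap.mem_ker, hdot] at h2
      exact h2)
    ext j
    exact congrFun h0 j
  have hfr : Module.finrank ℝ (Submodule.span ℝ s) = n := by
    rw [hspan, finrank_top, Module.finrank_fin_fun]
  have hex := Submodule.exists_fun_fin_finrank_span_eq ℝ s
  rw [hfr] at hex
  obtain ⟨f, hf1, _, hf3⟩ := hex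
  choose k hk1 hk2 using hf1
  set M : Matrix (Fin n) (Fin n) ℤ := Matrix.of fun i => v (k i) with hM
  have hMr : M.map (Int.cast : ℤ → ℝ) = Matrix.of f := by
    ext i j
    rw [Matrix.map_apply, hM, Matrix.of_apply, Matrix.of_apply, hk2 i]
  have hunit : IsUnit (Matrix.of f) :=
    Matrix.linearIndependent_rows_iff_isUnit.1 (by simpa using hf3)
  have hdetr : (Matrix.of f).det ≠ 0 := by
    rw [Matrix.isUnit_iff_isUnit_det] at hunit
    exact hunit.ne_zero
  have hdet : M.det ≠ 0 := by
    intro h
    apply hdetr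
    rw [← hMr]
    have := RingHom.map_det (Int.castRingHom ℝ) M
    rw [h, map_zero] at this
    exact this.symm
  have hdet1 : IsUnit M.det := by
    rcases hR.det (fun i => v (k i)) (fun i => hv _) with h | h | h
    · exact absurd h hdet
    · rw [hM, h]; exact isUnit_one
    · rw [hM, h]; exact isUnit_one.neg
  refine ⟨M⁻¹.mulVec fun i => b (k i), fun j => ?_⟩
  have h1 : M.mulVec (M⁻¹.mulVec fun i => b (k i)) = fun i => b (k i) := by
    rw [Matrix.mulVec_mulVec, Matrix.mul_nonsing_inv _ hdet1, Matrix.one_mulVec]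
  set y : Fin n → ℤ := M⁻¹.mulVec fun i => b (k i)
  have h2 : (Matrix.of f).mulVec (x - fun j => (y j : ℝ)) = 0 := by
    rw [Matrix.mulVec_sub, sub_eq_zero]
    funext i
    have h3 : ((Matrix.of f).mulVec x) i = dr (v (k i)) x := by
      unfold Matrix.mulVec dotProduct dr
      refine Finset.sum_congr rfl fun j _ => ?_
      change f i j * x j = _
      rw [hk2 i]
    have h4 : ((Matrix.of f).mulVec fun j => (y j : ℝ)) i = ((M.mulVec y) i : ℝ) := by
      unfold Matrix.mulVec dotProduct
      push_cast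
      refine Finset.sum_congr rfl fun j _ => ?_
      change f i j * (y j : ℝ) = ((v (k i) j : ℤ) : ℝ) * (y j : ℝ)
      rw [hk2 i]
    rw [h3, h4, h1, hk1 i]
  have h5 : x - (fun j => (y j : ℝ)) = 0 := by
    have hinj := Matrix.mulVec_injective_iff_isUnit.2 hunit
    apply hinj
    rw [h2, Matrix.mulVec_zero]
  have := congrFun h5 j
  simp only [Pi.sub_apply, Pi.zero_apply] at this
  linarith

/-- moving along a direction until a new constraint becomes tight -/
theorem move {B : ℝ} (hB : ∀ x : Fin n → ℝ, (∀ i, dr (v i) x ≤ b i) → ∀ j, |x j| ≤ B)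
    (x : Fin n → ℝ) (hx : ∀ i, dr (v i) x ≤ b i) (d : Fin n → ℝ) (hd : d ≠ 0)
    (hdt : ∀ i, dr (v i) x = b i → dr (v i) d = 0) :
    ∃ t : ℝ, 0 ≤ t ∧ (∀ i, dr (v i) (x + t • d) ≤ b i) ∧
      (∀ i, dr (v i) x = b i → dr (v i) (x + t • d) = b i) ∧
      ∃ i, dr (v i) x ≠ b i ∧ dr (v i) (x + t • d) = b i := by
  classical
  have hne : (univ.filter fun i => 0 < dr (v i) d).Nonempty := by
    by_contra hcon
    rw [Finset.not_nonempty_iff_eq_empty] at hcon
    have hall : ∀ i, dr (v i) d ≤ 0 := by
      intro i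
      by_contra h
      have : i ∈ (univ.filter fun i => 0 < dr (v i) d) := by
        rw [Finset.mem_filter]; exact ⟨Finset.mem_univ _, not_le.1 h⟩
      rw [hcon] at this
      exact absurd this (Finset.notMem_empty _)
    obtain ⟨j, hj⟩ : ∃ j, d j ≠ 0 := by
      by_contra h
      push Not at h
      exact hd (funext h)
    have hB0 : 0 ≤ B := (abs_nonneg _).trans (hB x hx j)
    set t : ℝ := (2 * B + 1) / |d j| with ht
    have hdj : 0 < |d j| := abs_pos.2 hj
    have ht0 : 0 ≤ t := by positivity
    have h1 : ∀ i, dr (v i) (x + t • d) ≤ b i := by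
      intro i
      rw [dr_add, dr_smul]
      have := mul_nonpos_of_nonneg_of_nonpos ht0 (hall i)
      linarith [hx i]
    have h2 := hB _ h1 j
    have h3 := hB x hx j
    have h4 : |t * d j| = 2 * B + 1 := by
      rw [abs_mul, abs_of_nonneg ht0, ht]
      field_simp
    have h5 : |t * d j| ≤ |(x + t • d) j| + |x j| := by
      have : t * d j = (x + t • d) j - x j := by simp
      rw [this]
      exact abs_sub _ _
    linarith
  obtain ⟨i0, hi0, hmin⟩ := Finset.exists_min_image _
    (fun i => (b i - dr (v i) x) / dr (v i) d) hne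
  rw [Finset.mem_filter] at hi0
  have hd0 := hi0.2
  refine ⟨(b i0 - dr (v i0) x) / dr (v i0) d, ?_, ?_, ?_, i0, ?_, ?_⟩
  · exact div_nonneg (by linarith [hx i0]) hd0.le
  · intro i
    rw [dr_add, dr_smul]
    have ht0 : 0 ≤ (b i0 - dr (v i0) x) / dr (v i0) d := div_nonneg (by linarith [hx i0]) hd0.le
    by_cases h : 0 < dr (v i) d
    · have h1 := hmin i (by rw [Finset.mem_filter]; exact ⟨Finset.mem_univ _, h⟩)
      have h2 := mul_le_mul_of_nonneg_right h1 h.le
      rw [div_mul_cancel₀ _ h.ne'] at h2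
      linarith
    · have h1 := mul_nonpos_of_nonneg_of_nonpos ht0 (not_lt.1 h)
      linarith [hx i]
  · intro i hi
    rw [dr_add, dr_smul, hdt i hi, hi]
    ring
  · intro h
    exact absurd (hdt i0 h) hd0.ne'
  · rw [dr_add, dr_smul, div_mul_cancel₀ _ hd0.ne']
    ring

include hR hv in
/-- rounding: a bounded polyhedron with a unimodular system and integral right-hand side contains
an integer point which is at least as good as a given real point, for a linear function -/
theorem round {B : ℝ} (hB : ∀ x : Fin n → ℝ, (∀ i, dr (v i) x ≤ b i) → ∀ j, |x j| ≤ B)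
    (g : Fin n → ℝ) (x : Fin n → ℝ) (hx : ∀ i, dr (v i) x ≤ b i) :
    ∃ y : Fin n → ℤ, (∀ i, ∑ j, v i j * y j ≤ b i) ∧ ∑ j, g j * (y j : ℝ) ≤ ∑ j, g j * x j := by
  classical
  have key : ∀ (k : ℕ) (x : Fin n → ℝ), (∀ i, dr (v i) x ≤ b i) →
      (univ.filter fun i => dr (v i) x ≠ b i).card ≤ k →
      ∃ y : Fin n → ℤ, (∀ i, ∑ j, v i j * y j ≤ b i) ∧
        ∑ j, g j * (y j : ℝ) ≤ ∑ j, g j * x j := by
    intro k
    induction k with
    | zero =>
      intro x hx hk
      by_cases hker : ∀ d : Fin n → ℝ, (∀ i, dr (v i) x = b i → dr (v i) d = 0) → d = 0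
      · obtain ⟨y, hy⟩ := integral_of_ker hR v hv b x hker
        refine ⟨y, fun i => ?_, le_of_eq (Finset.sum_congr rfl fun j _ => by rw [hy j])⟩
        have h1 := hx i
        rw [show x = fun j => (y j : ℝ) from funext hy, dr_int] at h1
        exact_mod_cast h1
      · push Not at hker
        obtain ⟨d, hd1, hd2⟩ := hker
        obtain ⟨t, _, _, _, i, hi, _⟩ := move v b hB x hx d hd2 hd1
        have : i ∈ (univ.filter fun i => dr (v i) x ≠ b i) := by
          rw [Finset.mem_filter]; exact ⟨Finset.mem_univ _, hi⟩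
        have := Finset.card_pos.2 ⟨i, this⟩
        omega
    | succ k ih =>
      intro x hx hk
      by_cases hker : ∀ d : Fin n → ℝ, (∀ i, dr (v i) x = b i → dr (v i) d = 0) → d = 0
      · obtain ⟨y, hy⟩ := integral_of_ker hR v hv b x hker
        refine ⟨y, fun i => ?_, le_of_eq (Finset.sum_congr rfl fun j _ => by rw [hy j])⟩
        have h1 := hx i
        rw [show x = fun j => (y j : ℝ) from funext hy, dr_int] at h1
        exact_mod_cast h1
      · push Not at hker
        obtain ⟨d, hd1, hd2⟩ := hker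
        have hsgn : ∃ e : Fin n → ℝ, e ≠ 0 ∧ (∀ i, dr (v i) x = b i → dr (v i) e = 0) ∧
            ∑ j, g j * e j ≤ 0 := by
          rcases le_total (∑ j, g j * d j) 0 with h | h
          · exact ⟨d, hd2, hd1, h⟩
          · refine ⟨-d, neg_ne_zero.2 hd2, fun i hi => ?_, ?_⟩
            · have : -d = (-1 : ℝ) • d := by simp
              rw [this, dr_smul, hd1 i hi]
              simp
            · have : ∑ j, g j * (-d) j = - ∑ j, g j * d j := by
                rw [← Finset.sum_neg_distrib]
                exact Finset.sum_congr rfl fun j _ => by simp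
              rw [this]
              linarith
        obtain ⟨e, he1, he2, he3⟩ := hsgn
        obtain ⟨t, ht0, ht1, ht2, i0, hi0, hi0'⟩ := move v b hB x hx e he1 he2
        have hlt : (univ.filter fun i => dr (v i) (x + t • e) ≠ b i).card ≤ k := by
          have : (univ.filter fun i => dr (v i) (x + t • e) ≠ b i) ⊂
              (univ.filter fun i => dr (v i) x ≠ b i) := by
            rw [Finset.ssubset_iff_of_subset]
            · refine ⟨i0, ?_, ?_⟩
              · rw [Finset.mem_filter]; exact ⟨Finset.mem_univ _, hi0⟩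
              · rw [Finset.mem_filter]
                rintro ⟨_, h⟩
                exact h hi0'
            · intro i hi
              rw [Finset.mem_filter] at hi ⊢
              exact ⟨Finset.mem_univ _, fun h => hi.2 (ht2 i h)⟩
          have := Finset.card_lt_card this
          omega
        obtain ⟨y, hy1, hy2⟩ := ih _ ht1 hlt
        refine ⟨y, hy1, hy2.trans ?_⟩
        have : ∑ j, g j * (x + t • e) j = ∑ j, g j * x j + t * ∑ j, g j * e j := by
          rw [Finset.mul_sum, ← Finset.sum_add_distrib]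
          exact Finset.sum_congr rfl fun j _ => by simp; ring
        rw [this]
        have := mul_nonpos_of_nonneg_of_nonpos ht0 he3
        linarith
  exact key _ x hx le_rfl

end

end Pool.Agent.W2helper57.TU
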