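import Pool.Agent.W2helper57.TU.Alg

set_option autoImplicit false

/-!
# The linear programs have integral solutions; the convex solver
-/

namespace Pool.Agent.NPC.W2h57TU

open Pool.Agent.NPC Pool.Agent.W2helper57.TU

theorem dr_single {n : ℕ} (j : Fin n) (x : Fin n → ℝ) : dr (Pi.single j 1) x = x j := by
  unfold dr
  rw [Finset.sum_eq_single j]
  · simp
  · intro k _ hk
    simp [Pi.single_eq_of_ne hk]
  · intro h
    exact absurd (Finset.mem_univ j) h

theorem dr_neg {n : ℕ} (v : Fin n → ℤ) (x : Fin n → ℝ) : dr (-v) x = -dr v x := by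
  unfold dr
  rw [← Finset.sum_neg_distrib]
  exact Finset.sum_congr rfl fun j _ => by simp

theorem dz_neg {n : ℕ} (v x : Fin n → ℤ) : dz (-v) x = -dz v x := by
  unfold dz
  rw [← Finset.sum_neg_distrib]
  exact Finset.sum_congr rfl fun j _ => by simp

/-- real solutions can be rounded -/
theorem lpint {n : ℕ} {R : Set (Fin n → ℤ)} (hR : Um R) {ι : Type} [Fintype ι]
    {v : ι → Fin n → ℤ} (hv : ∀ i, v i ∈ R) {b : ι → ℤ} {q h : Fin n → ℤ} {s : ℤ} (hs : 0 < s)
    {X T : Fin n → ℝ} (hX : ∀ i, dr (v i) X ≤ b i)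
    (hT : ∀ j, ((q j * s * (2 * ⌊X j / s⌋ + 1) + h j : ℤ) : ℝ) * X j -
      ((q j * s ^ 2 * (⌊X j / s⌋ * (⌊X j / s⌋ + 1)) : ℤ) : ℝ) ≤ T j) :
    ∃ z : Fin n → ℤ, (∀ i, dz (v i) z ≤ b i) ∧ ((fps q h s z : ℤ) : ℝ) ≤ ∑ j, T j := by
  classical
  set κ : Fin n → ℤ := fun j => ⌊X j / s⌋ with hκ
  have hsR : (0 : ℝ) < s := by exact_mod_cast hs
  have hk1 : ∀ j, ((κ j * s : ℤ) : ℝ) ≤ X j := by
    intro j
    have := Int.floor_le (X j / s)
    rw [le_div_iff₀ hsR] at this
    push_cast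
    exact this
  have hk2 : ∀ j, X j ≤ (((κ j + 1) * s : ℤ) : ℝ) := by
    intro j
    have := (Int.lt_floor_add_one (X j / s)).le
    rw [div_le_iff₀ hsR] at this
    push_cast
    exact this
  set v' : ι ⊕ (Fin n ⊕ Fin n) → Fin n → ℤ :=
    Sum.elim v (Sum.elim (fun j => Pi.single j 1) (fun j => -Pi.single j 1)) with hv'
  set b' : ι ⊕ (Fin n ⊕ Fin n) → ℤ :=
    Sum.elim b (Sum.elim (fun j => (κ j + 1) * s) (fun j => -(κ j * s))) with hb'
  have hv'' : ∀ i, v' i ∈ R := by
    rintro (i | i | i)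
    · exact hv i
    · exact hR.unit i
    · exact hR.neg _ (hR.unit i)
  have hX' : ∀ i, dr (v' i) X ≤ b' i := by
    rintro (i | i | i)
    · exact hX i
    · change dr (Pi.single i 1) X ≤ (((κ i + 1) * s : ℤ) : ℝ)
      rw [dr_single]
      exact hk2 i
    · change dr (-Pi.single i 1) X ≤ ((-(κ i * s) : ℤ) : ℝ)
      rw [dr_neg, dr_single]
      have := hk1 i
      push_cast at this ⊢
      linarith
  have hB : ∀ x : Fin n → ℝ, (∀ i, dr (v' i) x ≤ b' i) → ∀ j, |x j| ≤
      ∑ j, ((((|κ j| + 1) * s : ℤ)) : ℝ) := by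
    intro x hx j
    have h1 := hx (Sum.inr (Sum.inl j))
    have h2 := hx (Sum.inr (Sum.inr j))
    change dr (Pi.single j 1) x ≤ (((κ j + 1) * s : ℤ) : ℝ) at h1
    change dr (-Pi.single j 1) x ≤ ((-(κ j * s) : ℤ) : ℝ) at h2
    rw [dr_single] at h1
    rw [dr_neg, dr_single] at h2
    have h3 : |x j| ≤ (((|κ j| + 1) * s : ℤ) : ℝ) := by
      have e1 : (((κ j + 1) * s : ℤ) : ℝ) ≤ (((|κ j| + 1) * s : ℤ) : ℝ) := by
        have := le_abs_self (κ j)
        have : (κ j + 1) * s ≤ (|κ j| + 1) * s := mul_le_mul_of_nonneg_right (by omega) hs.le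
        exact_mod_cast this
      have e2 : ((-(κ j * s) : ℤ) : ℝ) ≤ (((|κ j| + 1) * s : ℤ) : ℝ) := by
        have := neg_le_abs (κ j)
        have : -(κ j * s) ≤ (|κ j| + 1) * s := by
          have h4 : (-κ j) * s ≤ (|κ j| + 1) * s := mul_le_mul_of_nonneg_right (by omega) hs.le
          linarith
        exact_mod_cast this
      rw [abs_le]
      constructor <;> linarith
    refine h3.trans ?_
    refine Finset.single_le_sum (f := fun j => ((((|κ j| + 1) * s : ℤ)) : ℝ)) ?_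
      (Finset.mem_univ j)
    intro k _
    have : 0 ≤ (|κ k| + 1) * s := by positivity
    exact_mod_cast this
  obtain ⟨z, hz1, hz2⟩ := round hR v' hv'' b' hB
    (fun j => ((q j * s * (2 * κ j + 1) + h j : ℤ) : ℝ)) X hX'
  refine ⟨z, fun i => hz1 (Sum.inl i), ?_⟩
  have hc1 : ∀ j, κ j * s ≤ z j := by
    intro j
    have := hz1 (Sum.inr (Sum.inr j))
    have h1 : dz (-Pi.single j 1) z ≤ -(κ j * s) := this
    rw [dz_neg, dz_single] at h1
    linarith
  have hc2 : ∀ j, z j ≤ (κ j + 1) * s := by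
    intro j
    have := hz1 (Sum.inr (Sum.inl j))
    have h1 : dz (Pi.single j 1) z ≤ (κ j + 1) * s := this
    rwa [dz_single] at h1
  have e : fps q h s z = ∑ j, ln (q j) (h j) s (κ j) (z j) :=
    Finset.sum_congr rfl fun j _ => ps_eq_ln hs (hc1 j) (hc2 j)
  rw [e]
  unfold ln
  push_cast
  rw [Finset.sum_sub_distrib]
  have h1 : ∑ j, (((q j : ℝ) * s * (2 * κ j + 1) + h j) * z j) ≤
      ∑ j, (((q j : ℝ) * s * (2 * κ j + 1) + h j) * X j) := by
    have := hz2
    push_cast at this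
    exact this
  have h2 : ∑ j, (((q j : ℝ) * s * (2 * κ j + 1) + h j) * X j) -
      ∑ j, ((q j : ℝ) * s ^ 2 * (κ j * (κ j + 1))) ≤ ∑ j, T j := by
    rw [← Finset.sum_sub_distrib]
    refine Finset.sum_le_sum fun j _ => ?_
    have := hT j
    push_cast at this
    exact this
  linarith

/-- the integer solutions of a system -/
def Sol (n : ℕ) (S : List Row) : Set (Fin n → ℤ) := {z | ∀ q ∈ S, dz (vz n q.1) z ≤ q.2}

theorem Sol_eq (n : ℕ) (S : List Row) :
    Sol n S = Fs (fun r : Fin S.length => vz n (S.get r).1) (fun r => (S.get r).2) := by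
  ext z
  constructor
  · intro h r
    exact h _ (List.get_mem _ _)
  · intro h q hq
    obtain ⟨r, rfl⟩ := List.get_of_mem hq
    exact h r

theorem getD_map_range' (N : ℕ) (F : ℕ → ℤ) (j : ℕ) :
    ((List.range N).map F).getD j 0 = if j < N then F j else 0 := by
  by_cases hj : j < N
  · rw [if_pos hj, List.getD_eq_getElem _ _ (by simpa using hj)]
    simp
  · rw [if_neg hj, List.getD_eq_default]
    simpa using hj

theorem row_real (n : ℕ) (l : List ℤ) (x : ℕ → ℝ) :
    ∑ j ∈ Finset.range n, ((l.getD j 0 : ℤ) : ℝ) * x j = dr (vz n l) (fun j => x j) := by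
  rw [Finset.sum_range]
  rfl

theorem row_real2 (n : ℕ) (l : List ℤ) (h : ∀ j, n ≤ j → l.getD j 0 = 0) (x : ℕ → ℝ) :
    ∑ j ∈ Finset.range (2 * n), ((l.getD j 0 : ℤ) : ℝ) * x j = dr (vz n l) (fun j => x j) := by
  rw [two_mul, Finset.sum_range_add, row_real]
  rw [Finset.sum_eq_zero (s := Finset.range n), add_zero]
  intro j _
  rw [h (n + j) (by omega)]
  simp

/-- extension of an integer vector -/
noncomputable def ext {n : ℕ} (z : Fin n → ℤ) (t : Fin n → ℤ) (k : ℕ) : ℝ :=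
  if h : k < n then (z ⟨k, h⟩ : ℝ) else if h' : k - n < n then (t ⟨k - n, h'⟩ : ℝ) else 0

theorem ext_lt {n : ℕ} (z t : Fin n → ℤ) : (fun j : Fin n => ext z t j) = fun j => (z j : ℝ) := by
  funext j
  unfold ext
  rw [dif_pos j.2]

theorem ext_ge {n : ℕ} (z t : Fin n → ℤ) {j : ℕ} (hj : j < n) :
    ext z t (n + j) = (t ⟨j, hj⟩ : ℝ) := by
  unfold ext
  rw [dif_neg (by omega), dif_pos (by omega)]
  congr 3
  omega

/-- systems in the original variables -/
theorem lp0_iff {n : ℕ} {R : Set (Fin n → ℤ)} (hR : Um R) {S : List Row}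
    (hS : ∀ q ∈ S, vz n q.1 ∈ R) : lpFeas n S = true ↔ ∃ z, z ∈ Sol n S := by
  rw [lpFeas_iff]
  constructor
  · rintro ⟨x, hx⟩
    obtain ⟨z, hz, _⟩ := lpint hR (v := fun r : Fin S.length => vz n (S.get r).1)
      (fun r => hS _ (List.get_mem _ _)) (b := fun r => (S.get r).2) (q := 0) (h := 0)
      (s := 1) (by norm_num) (X := fun j => x j) (T := 0)
      (fun r => by
        have := hx _ (List.get_mem S r)
        rwa [row_real] at this)
      (fun j => by simp)
    refine ⟨z, ?_⟩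
    rw [Sol_eq]
    exact hz
  · rintro ⟨z, hz⟩
    refine ⟨ext z 0, fun q hq => ?_⟩
    rw [row_real, ext_lt, dr_int]
    exact_mod_cast hz q hq

/-- rows in the original variables -/
def XR (n : ℕ) (R : Set (Fin n → ℤ)) (q : Row) : Prop :=
  vz n q.1 ∈ R ∧ ∀ j, n ≤ j → q.1.getD j 0 = 0

theorem vz_sing {n N : ℕ} (hN : n ≤ N) {i : ℕ} (hi : i < n) (v : ℤ) :
    vz n (sing N i v) = v • Pi.single ⟨i, hi⟩ 1 := by
  funext j
  unfold vz sing
  rw [getD_map_range', if_pos (by omega)]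
  by_cases h : j.1 = i
  · have : j = ⟨i, hi⟩ := Fin.ext h
    rw [if_pos h, this]
    simp
  · have : j ≠ ⟨i, hi⟩ := fun e => h (by rw [e])
    rw [if_neg h]
    simp [this]

theorem dz_sing {n N : ℕ} (hN : n ≤ N) {i : ℕ} (hi : i < n) (v : ℤ) (z : Fin n → ℤ) :
    dz (vz n (sing N i v)) z = v * z ⟨i, hi⟩ := by
  rw [vz_sing hN hi]
  unfold dz
  rw [Finset.sum_eq_single ⟨i, hi⟩]
  · simp
  · intro k _ hk
    simp [Pi.single_eq_of_ne hk]
  · intro h
    exact absurd (Finset.mem_univ _) h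

theorem sing_ge {n N i : ℕ} (hi : i < n) (v : ℤ) (j : ℕ) (hj : n ≤ j) :
    (sing N i v).getD j 0 = 0 := by
  unfold sing
  rw [getD_map_range']
  split_ifs
  · omega
  · rfl
  · rfl

theorem sing_mem {n N : ℕ} {R : Set (Fin n → ℤ)} (hR : Um R) (hN : n ≤ N) {i : ℕ} (hi : i < n)
    {v : ℤ} (hv : v = 1 ∨ v = -1) : vz n (sing N i v) ∈ R := by
  rw [vz_sing hN hi]
  rcases hv with rfl | rfl
  · rw [one_smul]; exact hR.unit _
  · rw [neg_smul, one_smul]; exact hR.neg _ (hR.unit _)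

theorem rng_XR {n N : ℕ} {R : Set (Fin n → ℤ)} (hR : Um R) (hN : n ≤ N) {i : ℕ} (hi : i < n)
    (l u : ℤ) : ∀ q ∈ rng N i l u, XR n R q := by
  intro q hq
  unfold rng at hq
  simp only [List.mem_cons, List.not_mem_nil, or_false] at hq
  rcases hq with rfl | rfl
  · exact ⟨sing_mem hR hN hi (Or.inl rfl), sing_ge hi 1⟩
  · exact ⟨sing_mem hR hN hi (Or.inr rfl), sing_ge hi (-1)⟩

theorem rng_iff {n N : ℕ} (hN : n ≤ N) {i : ℕ} (hi : i < n) (l u : ℤ) (z : Fin n → ℤ) :
    (∀ q ∈ rng N i l u, dz (vz n q.1) z ≤ q.2) ↔ l ≤ z ⟨i, hi⟩ ∧ z ⟨i, hi⟩ ≤ u := by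
  unfold rng
  simp only [List.mem_cons, List.not_mem_nil, or_false, forall_eq_or_imp, forall_eq]
  rw [dz_sing hN hi, dz_sing hN hi]
  constructor
  · rintro ⟨h1, h2⟩; constructor <;> linarith
  · rintro ⟨h1, h2⟩; constructor <;> linarith

/-- the quadratic and linear coefficients of the convex part -/
def cqf (ob : List (ℤ × ℤ)) (j : Fin ob.length) : ℤ := (cq ob j).1
def clf (ob : List (ℤ × ℤ)) (j : Fin ob.length) : ℤ := (cq ob j).2

theorem cqf_nonneg (ob : List (ℤ × ℤ)) (j : Fin ob.length) : 0 ≤ cqf ob j := by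
  unfold cqf cq
  split_ifs with h
  · exact le_rfl
  · exact not_lt.1 h

theorem trow_real (n : ℕ) (θ : ℤ) (x : ℕ → ℝ) :
    ∑ j ∈ Finset.range (2 * n), (((trow n θ).1.getD j 0 : ℤ) : ℝ) * x j =
      ∑ j : Fin n, x (n + j) := by
  rw [two_mul, Finset.sum_range_add, Finset.sum_eq_zero (s := Finset.range n), zero_add,
    Finset.sum_range]
  · refine Finset.sum_congr rfl fun j _ => ?_
    unfold trow
    simp only
    rw [getD_map_range', if_pos (by omega), if_pos (by omega)]
    simp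
  · intro j hj
    have := Finset.mem_range.1 hj
    unfold trow
    simp only
    rw [getD_map_range', if_pos (by omega), if_neg (by omega)]
    simp

theorem prow_real (n : ℕ) (c : ℤ × ℤ) (s : ℤ) {j : ℕ} (hj : j < n) (κ : ℤ) (x : ℕ → ℝ) :
    ∑ i ∈ Finset.range (2 * n), (((prow n c s j κ).1.getD i 0 : ℤ) : ℝ) * x i =
      ((c.1 * s * (2 * κ + 1) + c.2 : ℤ) : ℝ) * x j - x (n + j) := by
  rw [two_mul, Finset.sum_range_add, Finset.sum_eq_single j, Finset.sum_eq_single j]
  · unfold prow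
    simp only
    rw [getD_map_range', getD_map_range', if_pos (by omega), if_pos rfl, if_pos (by omega),
      if_neg (by omega), if_pos rfl]
    push_cast
    ring
  · intro i hi hne
    have := Finset.mem_range.1 hi
    unfold prow
    simp only
    rw [getD_map_range', if_pos (by omega), if_neg (by omega), if_neg (by omega)]
    simp
  · intro h
    exact absurd (Finset.mem_range.2 hj) h
  · intro i hi hne
    have := Finset.mem_range.1 hi
    unfold prow
    simp only
    rw [getD_map_range', if_pos (by omega), if_neg hne, if_neg (by omega)]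
    simp
  · intro h
    exact absurd (Finset.mem_range.2 hj) h

theorem satR_cons (N : ℕ) (q : Row) (S : List Row) (x : ℕ → ℝ) : SatR N (q :: S) x ↔
    (∑ j ∈ Finset.range N, ((q.1.getD j 0 : ℤ) : ℝ) * x j ≤ (q.2 : ℝ)) ∧ SatR N S x := by
  unfold SatR
  simp only [List.mem_cons, forall_eq_or_imp]

theorem satR_append (N : ℕ) (S S' : List Row) (x : ℕ → ℝ) : SatR N (S ++ S') x ↔
    SatR N S x ∧ SatR N S' x := by
  unfold SatR
  simp only [List.mem_append, or_imp, forall_and]

theorem satR_flatMap {β : Type} (N : ℕ) (L : List β) (F : β → List Row) (x : ℕ → ℝ) :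
    SatR N (L.flatMap F) x ↔ ∀ a ∈ L, SatR N (F a) x := by
  unfold SatR
  simp only [List.mem_flatMap]
  constructor
  · intro h a ha q hq
    exact h q ⟨a, ha, hq⟩
  · rintro h q ⟨a, ha, hq⟩
    exact h a ha q hq

theorem satR_map {β : Type} (N : ℕ) (L : List β) (F : β → Row) (x : ℕ → ℝ) :
    SatR N (L.map F) x ↔ ∀ a ∈ L,
      (∑ j ∈ Finset.range N, (((F a).1.getD j 0 : ℤ) : ℝ) * x j ≤ ((F a).2 : ℝ)) := by
  unfold SatR
  simp only [List.mem_map, forall_exists_index, and_imp, forall_apply_eq_imp_iff₂]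

theorem satR_xr {n : ℕ} {R : Set (Fin n → ℤ)} {ex : List Row} (hex : ∀ q ∈ ex, XR n R q)
    (x : ℕ → ℝ) : SatR (2 * n) ex x ↔ ∀ q ∈ ex, dr (vz n q.1) (fun j => x j) ≤ (q.2 : ℝ) := by
  unfold SatR
  refine forall₂_congr fun q hq => ?_
  rw [row_real2 n q.1 (hex q hq).2]

theorem dr_sing {n N : ℕ} (hN : n ≤ N) {i : ℕ} (hi : i < n) (v : ℤ) (x : ℕ → ℝ) :
    dr (vz n (sing N i v)) (fun j => x j) = v * x i := by
  unfold dr
  rw [vz_sing hN hi, Finset.sum_eq_single ⟨i, hi⟩]
  · simp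
  · intro k _ hk
    simp [Pi.single_eq_of_ne hk]
  · intro h
    exact absurd (Finset.mem_univ _) h

theorem satR_rng {n : ℕ} {i : ℕ} (hi : i < n) (l u : ℤ) (x : ℕ → ℝ) :
    SatR (2 * n) (rng (2 * n) i l u) x ↔ (l : ℝ) ≤ x i ∧ x i ≤ u := by
  unfold rng
  rw [satR_cons, satR_cons, row_real2 n _ (sing_ge hi 1), row_real2 n _ (sing_ge hi (-1)),
    dr_sing (by omega) hi, dr_sing (by omega) hi]
  have : SatR (2 * n) [] x := by intro q hq; simp at hq
  push_cast
  constructor
  · rintro ⟨h1, h2, _⟩; constructor <;> linarith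
  · rintro ⟨h1, h2⟩; exact ⟨by linarith, by linarith, this⟩

theorem vz_cut (n : ℕ) (l : List ℤ) : vz n (cut n l) = vz n l := by
  funext j
  unfold vz cut
  rw [getD_map_range', if_pos j.2]

theorem cut_ge (n : ℕ) (l : List ℤ) (j : ℕ) (hj : n ≤ j) : (cut n l).getD j 0 = 0 := by
  unfold cut
  rw [getD_map_range', if_neg (by omega)]

theorem satR_core {ob : List (ℤ × ℤ)} {S : List Row} {r : ℕ} {s : ℤ} {y : List ℤ}
    (x : ℕ → ℝ) : SatR (2 * ob.length) (core ob S r s y) x ↔
      (∀ q ∈ S, dr (vz ob.length q.1) (fun j => x j) ≤ (q.2 : ℝ)) ∧ ∀ j < ob.length,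
        (((y.getD j 0 - r * s : ℤ) : ℝ) ≤ x j ∧ x j ≤ ((y.getD j 0 + r * s : ℤ) : ℝ)) ∧
        ∀ k < 2 * r + 2,
          (((cq ob j).1 * s * (2 * (y.getD j 0 / (s.toNat : ℤ) - (r : ℤ) + (k : ℤ)) + 1) +
            (cq ob j).2 : ℤ) : ℝ) * x j - x (ob.length + j) ≤
          (((cq ob j).1 * s ^ 2 * ((y.getD j 0 / (s.toNat : ℤ) - (r : ℤ) + (k : ℤ)) *
            ((y.getD j 0 / (s.toNat : ℤ) - (r : ℤ) + (k : ℤ)) + 1)) : ℤ) : ℝ) := by
  unfold core
  rw [satR_append, satR_map, satR_flatMap]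
  refine and_congr ?_ ?_
  · refine forall₂_congr fun q _ => ?_
    rw [row_real2 _ _ (cut_ge _ _), vz_cut]
  · simp only [List.mem_range]
    refine forall₂_congr fun j hj => ?_
    rw [satR_append, satR_rng hj, satR_map]
    simp only [List.mem_range]
    refine and_congr Iff.rfl (forall₂_congr fun k _ => ?_)
    rw [prow_real _ _ _ hj]
    rfl

/-- the linear programs decide the existence of integer points -/
theorem lp_iff {ob : List (ℤ × ℤ)} {R : Set (Fin ob.length → ℤ)} (hR : Um R) {S ex : List Row}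
    (hS : ∀ q ∈ S, vz ob.length q.1 ∈ R) (hex : ∀ q ∈ ex, XR ob.length R q) {r : ℕ} {s : ℤ}
    (hs : 0 < s) {y : List ℤ} (θ : ℤ) :
    lpFeas (2 * ob.length) (ex ++ trow ob.length θ :: core ob S r s y) = true ↔
      ∃ z ∈ Sol ob.length S, (∀ j, |z j - y.getD j 0| ≤ r * s) ∧
        (∀ q ∈ ex, dz (vz ob.length q.1) z ≤ q.2) ∧ fps (cqf ob) (clf ob) s z ≤ θ := by
  rw [lpFeas_iff]
  have hst : ((s.toNat : ℕ) : ℤ) = s := Int.toNat_of_nonneg hs.le
  have hsR : (0 : ℝ) < s := by exact_mod_cast hs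
  constructor
  · rintro ⟨x, hx⟩
    rw [satR_append, satR_cons, satR_xr hex, satR_core, trow_real] at hx
    obtain ⟨h1, h2, h3, h4⟩ := hx
    set ι := (Fin S.length ⊕ Fin ex.length) ⊕ (Fin ob.length ⊕ Fin ob.length) with hι
    set v : ι → Fin ob.length → ℤ := Sum.elim
      (Sum.elim (fun r => vz ob.length (S.get r).1) (fun r => vz ob.length (ex.get r).1))
      (Sum.elim (fun j => Pi.single j 1) (fun j => -Pi.single j 1)) with hv
    set b : ι → ℤ := Sum.elim (Sum.elim (fun r => (S.get r).2) (fun r => (ex.get r).2))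
      (Sum.elim (fun j => y.getD j 0 + r * s) (fun j => -(y.getD j 0 - r * s))) with hb
    have hvR : ∀ i, v i ∈ R := by
      rintro ((i | i) | (i | i))
      · exact hS _ (List.get_mem _ _)
      · exact (hex _ (List.get_mem _ _)).1
      · exact hR.unit i
      · exact hR.neg _ (hR.unit i)
    have hvX : ∀ i, dr (v i) (fun j => x j) ≤ b i := by
      rintro ((i | i) | (i | i))
      · exact h3 _ (List.get_mem _ _)
      · exact h1 _ (List.get_mem _ _)
      · change dr (Pi.single i 1) _ ≤ ((y.getD i 0 + r * s : ℤ) : ℝ)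
        rw [dr_single]
        exact (h4 i i.2).1.2
      · change dr (-Pi.single i 1) _ ≤ ((-(y.getD i 0 - r * s) : ℤ) : ℝ)
        rw [dr_neg, dr_single]
        have := (h4 i i.2).1.1
        push_cast at this ⊢
        linarith
    obtain ⟨z, hz1, hz2⟩ := lpint hR hvR (q := cqf ob) (h := clf ob) hs
      (X := fun j => x j) (T := fun j => x (ob.length + j)) hvX (by
        intro j
        set κ : ℤ := ⌊x j / s⌋ with hκ
        have hκ1 : ((κ * s : ℤ) : ℝ) ≤ x j := by
          have := Int.floor_le (x j / s)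
          rw [le_div_iff₀ hsR] at this
          push_cast
          exact this
        have hκ2 : x j < (((κ + 1) * s : ℤ) : ℝ) := by
          have := (Int.lt_floor_add_one (x j / s))
          rw [div_lt_iff₀ hsR] at this
          push_cast
          exact this
        obtain ⟨⟨h5, h6⟩, h7⟩ := h4 j j.2
        have k1 : κ * s ≤ y.getD j 0 + r * s := by exact_mod_cast hκ1.trans h6
        have k2 : y.getD j 0 - r * s < (κ + 1) * s := by exact_mod_cast h5.trans_lt hκ2
        obtain ⟨d1, d2⟩ := div_bd hs (y.getD j 0)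
        set u := y.getD j 0 / s with hu
        have k3 : κ ≤ u + r := by
          have : κ * s < (u + r + 1) * s := by nlinarith
          have := lt_of_mul_lt_mul_right this hs.le
          omega
        have k4 : u - r ≤ κ := by
          have : (u - r) * s < (κ + 1) * s := by nlinarith
          have := lt_of_mul_lt_mul_right this hs.le
          omega
        have h8 := h7 (κ - (u - r)).toNat (by omega)
        rw [hst, ← hu] at h8
        have e : u - (r : ℤ) + (((κ - (u - r)).toNat : ℕ) : ℤ) = κ := by omega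
        rw [e] at h8
        have e1 : (cq ob (j : ℕ)).1 = cqf ob j := rfl
        have e2 : (cq ob (j : ℕ)).2 = clf ob j := rfl
        rw [e1, e2] at h8
        linarith)
    refine ⟨z, ?_, ?_, ?_, ?_⟩
    · rw [Sol_eq]
      intro r
      exact hz1 (Sum.inl (Sum.inl r))
    · intro j
      have e1 := hz1 (Sum.inr (Sum.inl j))
      have e2 := hz1 (Sum.inr (Sum.inr j))
      change dz (Pi.single j 1) z ≤ y.getD j 0 + r * s at e1
      change dz (-Pi.single j 1) z ≤ -(y.getD j 0 - r * s) at e2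
      rw [dz_single] at e1
      rw [dz_neg, dz_single] at e2
      rw [abs_le]
      constructor <;> linarith
    · intro q hq
      obtain ⟨r, rfl⟩ := List.get_of_mem hq
      exact hz1 (Sum.inl (Sum.inr r))
    · have := hz2.trans h2
      exact_mod_cast this
  · rintro ⟨z, h1, h2, h3, h4⟩
    refine ⟨ext z (fun j => ps (cqf ob j) (clf ob j) s (z j)), ?_⟩
    rw [satR_append, satR_cons, satR_xr hex, satR_core, trow_real, ext_lt]
    refine ⟨?_, ?_, ?_, ?_⟩
    · intro q hq
      rw [dr_int]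
      exact_mod_cast h3 q hq
    · have : ∑ j : Fin ob.length, ext z (fun j => ps (cqf ob j) (clf ob j) s (z j))
          (ob.length + j) = ((fps (cqf ob) (clf ob) s z : ℤ) : ℝ) := by
        unfold fps
        push_cast
        exact Finset.sum_congr rfl fun j _ => ext_ge _ _ j.2
      rw [this]
      exact_mod_cast h4
    · intro q hq
      rw [dr_int]
      exact_mod_cast h1 q hq
    · intro j hj
      have e1 : ext z (fun j => ps (cqf ob j) (clf ob j) s (z j)) j = ((z ⟨j, hj⟩ : ℤ) : ℝ) :=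
        congrFun (ext_lt z (fun j => ps (cqf ob j) (clf ob j) s (z j))) ⟨j, hj⟩
      rw [e1, ext_ge _ _ hj]
      obtain ⟨k1, k2⟩ := abs_le.1 (h2 ⟨j, hj⟩)
      refine ⟨⟨by exact_mod_cast (by linarith), by exact_mod_cast (by linarith)⟩, ?_⟩
      intro k _
      set κ := y.getD j 0 / (s.toNat : ℤ) - (r : ℤ) + (k : ℤ)
      have := ln_le_ps (q := cqf ob ⟨j, hj⟩) (h := clf ob ⟨j, hj⟩) (cqf_nonneg _ _) hs κ
        (z ⟨j, hj⟩)
      unfold ln at this
      have e2 : cqf ob ⟨j, hj⟩ = (cq ob j).1 := rfl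
      have e3 : clf ob ⟨j, hj⟩ = (cq ob j).2 := rfl
      rw [e2, e3] at this ⊢
      have h5 : ((cq ob j).1 * s * (2 * κ + 1) + (cq ob j).2) * z ⟨j, hj⟩ -
        ps (cq ob j).1 (cq ob j).2 s (z ⟨j, hj⟩) ≤ (cq ob j).1 * s ^ 2 * (κ * (κ + 1)) := by
        linarith
      exact_mod_cast h5

end Pool.Agent.NPC.W2h57TU
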