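import Pool.Agent.W2helper57.TU.Conv

set_option autoImplicit false

/-!
# The approximation algorithm
-/

namespace Pool.Agent.NPC.W2h57TU

open Pool.Agent.NPC Pool.Agent.W2helper57.TU

/-- sum of the absolute values -/
def l1 (l : List ℤ) : ℕ := (l.map Int.natAbs).sum

/-- the box contains good solutions for this `K` -/
def bK (S : List Row) : ℕ :=
  ((2 + (S.map fun q => l1 q.1).sum) * l1 (S.map fun q => q.2) + 1).size

/-- bound for the values of the objective function -/
def bE (ob : List (ℤ × ℤ)) (K : ℕ) : ℕ :=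
  2 * K + (11 * (ob.map fun c => c.1.natAbs + c.2.natAbs).sum).size + 1

/-- the system with the constraints of the box -/
def box (n K : ℕ) (S : List Row) : List Row :=
  S ++ (List.range n).flatMap fun j => rng n j (-2 ^ K) (2 ^ K)

/-- the largest value of a coordinate -/
def mx (n K : ℕ) (S : List Row) (i : ℕ) : ℤ :=
  bs (K + 1) fun M => lpFeas n ((sing n i (-1), -M) :: S)

/-- the grid -/
def grd (N K n : ℕ) (S : List Row) : List ℤ :=
  (pws (K + 2)).flatMap fun w =>
    (List.range (2 * (19 * N * (n + S.length)))).map fun m : ℕ => (m : ℤ) * w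

/-- fixing the coordinate `i` -/
def stp (N K n i : ℕ) (S : List Row) : List (List Row) :=
  (grd N K n S).map fun e => S ++ rng n i (mx n K S i - e) (mx n K S i - e)

/-- fixing the first `k` coordinates of the list `idx` -/
def brn (N K n : ℕ) (idx : List ℕ) : ℕ → List Row → List (List Row)
  | 0, S => [S]
  | k + 1, S => (brn N K n idx k S).flatMap fun S' =>
      if k < idx.length then stp N K n (idx.getD k 0) S' else [S']

/-- the concave coordinates -/
def ngs (ob : List (ℤ × ℤ)) : List ℕ :=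
  (List.range ob.length).filter fun j => decide ((ob.getD j (0, 0)).1 < 0)

/-- the value of the objective function -/
def val (ob : List (ℤ × ℤ)) (x : List ℤ) : ℤ :=
  ((List.range ob.length).map fun j =>
    (ob.getD j (0, 0)).1 * (x.getD j 0) ^ 2 + (ob.getD j (0, 0)).2 * x.getD j 0).sum

/-- test of feasibility -/
def okB (n : ℕ) (S : List Row) (x : List ℤ) : Bool :=
  S.all fun q => decide (((List.range n).map fun j => q.1.getD j 0 * x.getD j 0).sum ≤ q.2)

/-- the best element of a list -/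
def best (ob : List (ℤ × ℤ)) (L : List (List ℤ)) : Option (List ℤ) :=
  (L.filter fun x => L.all fun y => decide (val ob x ≤ val ob y)).head?

/-- the candidates -/
def cnd (p N : ℕ) (ob : List (ℤ × ℤ)) (S : List Row) : List (List ℤ) :=
  ((brn N (bK S) ob.length (ngs ob) p (box ob.length (bK S) S)).map fun S' =>
    conv ob S' (bK S) (bE ob (bK S))).filter fun x => okB ob.length S x

/-- the algorithm -/
def alg (p N : ℕ) (ob : List (ℤ × ℤ)) (S : List Row) : Option (List ℤ) := best ob (cnd p N ob S)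

/-! ### Polynomial time -/

section

variable {α : Type} [TEnc α]

theorem poly_l1 {l : α → List ℤ} (hl : Poly l) : Poly (fun a => l1 (l a)) :=
  Poly.sum (Poly.map hl (Poly.natAbs (Poly.snd Poly.id)))

theorem upoly_size {m : α → ℕ} (hm : Poly m) : UPoly (fun a => (m a).size) := by
  have h : Poly (fun a => List.replicate (m a).bits.length ()) := UPoly.length (Poly.natBits hm)
  refine h.congr fun a => ?_
  rw [Nat.size_eq_bits_len]

theorem upoly_bK {S : α → List Row} (hS : Poly S) : UPoly (fun a => bK (S a)) := by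
  refine upoly_size (Poly.add (Poly.mul (Poly.add (Poly.const 2) (Poly.sum (Poly.map hS
    (poly_l1 (Poly.fst (Poly.snd Poly.id)))))) (poly_l1 (Poly.map hS
      (Poly.snd (Poly.snd Poly.id))))) (Poly.const 1))

theorem upoly_bE {ob : α → List (ℤ × ℤ)} {K : α → ℕ} (hob : Poly ob) (hK : UPoly K) :
    UPoly (fun a => bE (ob a) (K a)) := by
  refine UPoly.add (UPoly.add (UPoly.mul (UPoly.const 2) hK) (upoly_size (Poly.mul
    (Poly.const 11) (Poly.sum (Poly.map hob (Poly.add (Poly.natAbs (Poly.fst (Poly.snd Poly.id)))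
      (Poly.natAbs (Poly.snd (Poly.snd Poly.id)))))))))
    (UPoly.const 1)

theorem poly_box {n K : α → ℕ} {S : α → List Row} (hn : UPoly n) (hK : UPoly K) (hS : Poly S) :
    Poly (fun a => box (n a) (K a) (S a)) := by
  have h : Poly (fun z : α × ℕ => (2 : ℤ) ^ K z.1) :=
    Poly.ipow (Poly.const 2) (hK.comp (Poly.fst Poly.id))
  exact Poly.append hS (Poly.flatMap hn.range (poly_rng (hn.comp (Poly.fst Poly.id))
    (Poly.snd Poly.id) (Poly.ineg h) h))

theorem poly_mx {n K i : α → ℕ} {S : α → List Row} (hn : UPoly n) (hK : UPoly K) (hS : Poly S)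
    (hi : Poly i) : Poly (fun a => mx (n a) (K a) (S a) (i a)) := by
  refine poly_bs (UPoly.add hK (UPoly.const 1)) ?_
  have f1 : Poly (fun z : α × ℤ => z.1) := Poly.fst Poly.id
  exact poly_lpFeas (hn.comp f1) (Poly.cons (Poly.pair (poly_sing (hn.comp f1) (hi.comp f1)
    (Poly.const (-1))) (Poly.ineg (Poly.snd Poly.id))) (hS.comp f1))

theorem poly_grd {K n : α → ℕ} {S : α → List Row} (N : ℕ) (hK : UPoly K) (hn : UPoly n)
    (hS : Poly S) : Poly (fun a => grd N (K a) (n a) (S a)) := by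
  have h : UPoly (fun a => 2 * (19 * N * (n a + (S a).length))) :=
    UPoly.mul (UPoly.const 2) (UPoly.mul (UPoly.const (19 * N)) (UPoly.add hn (UPoly.length hS)))
  refine Poly.flatMap (poly_pws (UPoly.add hK (UPoly.const 2))) ?_
  refine Poly.map (h.range.comp (Poly.fst Poly.id)) ?_
  exact Poly.imul (Poly.natCast (Poly.snd Poly.id)) (Poly.snd (Poly.fst Poly.id))

theorem poly_stp {K n i : α → ℕ} {S : α → List Row} (N : ℕ) (hK : UPoly K) (hn : UPoly n)
    (hi : Poly i) (hS : Poly S) : Poly (fun a => stp N (K a) (n a) (i a) (S a)) := by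
  refine Poly.map (poly_grd N hK hn hS) ?_
  have f1 : Poly (fun z : α × ℤ => z.1) := Poly.fst Poly.id
  have h : Poly (fun z : α × ℤ => mx (n z.1) (K z.1) (S z.1) (i z.1) - z.2) :=
    Poly.isub (poly_mx (hn.comp f1) (hK.comp f1) (hS.comp f1) (hi.comp f1)) (Poly.snd Poly.id)
  exact Poly.append (hS.comp f1) (poly_rng (hn.comp f1) (hi.comp f1) h h)

theorem poly_brn {K n : α → ℕ} {idx : α → List ℕ} {S : α → List Row} (N : ℕ) (hK : UPoly K)
    (hn : UPoly n) (hidx : Poly idx) (hS : Poly S) (k : ℕ) :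
    Poly (fun a => brn N (K a) (n a) (idx a) k (S a)) := by
  induction k with
  | zero => exact Poly.cons hS (Poly.const [])
  | succ k ih =>
    refine Poly.flatMap ih ?_
    have f1 : Poly (fun z : α × List Row => z.1) := Poly.fst Poly.id
    refine Poly.ite (Poly.decide_lt (Poly.const k) (UPoly.length (hidx.comp f1)).toPoly)
      (poly_stp N (hK.comp f1) (hn.comp f1) (Poly.getD (d := fun _ => 0) (hidx.comp f1)
        (Poly.const k) (Poly.const 0)) (Poly.snd Poly.id))
      (Poly.cons (Poly.snd Poly.id) (Poly.const []))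

theorem poly_ngs {ob : α → List (ℤ × ℤ)} (hob : Poly ob) : Poly (fun a => ngs (ob a)) :=
  Poly.filter (UPoly.length hob).range (Poly.isNeg (Poly.fst (Poly.getD
    (d := fun _ => ((0 : ℤ), (0 : ℤ))) (hob.comp (Poly.fst Poly.id)) (Poly.snd Poly.id)
    (Poly.const _))))

theorem poly_val {ob : α → List (ℤ × ℤ)} {x : α → List ℤ} (hob : Poly ob) (hx : Poly x) :
    Poly (fun a => val (ob a) (x a)) := by
  have f1 : Poly (fun z : α × ℕ => z.1) := Poly.fst Poly.id
  have h1 : Poly (fun z : α × ℕ => (ob z.1).getD z.2 ((0 : ℤ), (0 : ℤ))) :=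
    Poly.getD (d := fun _ => ((0 : ℤ), (0 : ℤ))) (hob.comp f1) (Poly.snd Poly.id) (Poly.const _)
  have h2 : Poly (fun z : α × ℕ => (x z.1).getD z.2 0) :=
    Poly.getD (d := fun _ => (0 : ℤ)) (hx.comp f1) (Poly.snd Poly.id) (Poly.const _)
  exact Poly.isum (Poly.map (UPoly.length hob).range (Poly.iadd (Poly.imul (Poly.fst h1)
    (Poly.ipow h2 (UPoly.const 2))) (Poly.imul (Poly.snd h1) h2)))

theorem poly_okB {n : α → ℕ} {S : α → List Row} {x : α → List ℤ} (hn : UPoly n) (hS : Poly S)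
    (hx : Poly x) : Poly (fun a => okB (n a) (S a) (x a)) := by
  refine Poly.all hS (Poly.ile (Poly.isum (Poly.map (hn.range.comp (Poly.fst Poly.id)) ?_))
    (Poly.snd (Poly.snd Poly.id)))
  exact Poly.imul (Poly.getD (d := fun _ => (0 : ℤ)) (Poly.fst (Poly.snd (Poly.fst Poly.id)))
    (Poly.snd Poly.id) (Poly.const _)) (Poly.getD (d := fun _ => (0 : ℤ))
      (hx.comp (Poly.fst (Poly.fst Poly.id))) (Poly.snd Poly.id) (Poly.const _))

theorem poly_best {ob : α → List (ℤ × ℤ)} {L : α → List (List ℤ)} (hob : Poly ob) (hL : Poly L) :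
    Poly (fun a => best (ob a) (L a)) := by
  refine Poly.head? (Poly.filter hL (Poly.all (hL.comp (Poly.fst Poly.id)) (Poly.ile ?_ ?_)))
  · exact poly_val (hob.comp (Poly.fst (Poly.fst Poly.id))) (Poly.snd (Poly.fst Poly.id))
  · exact poly_val (hob.comp (Poly.fst (Poly.fst Poly.id))) (Poly.snd Poly.id)

theorem poly_alg (p N : ℕ) : Poly (fun a : List (ℤ × ℤ) × List Row => alg p N a.1 a.2) := by
  have hob : Poly (fun a : List (ℤ × ℤ) × List Row => a.1) := Poly.fst Poly.id
  have hS : Poly (fun a : List (ℤ × ℤ) × List Row => a.2) := Poly.snd Poly.id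
  have hn : UPoly (fun a : List (ℤ × ℤ) × List Row => a.1.length) := UPoly.length hob
  have hK := upoly_bK hS
  have hE := upoly_bE hob hK
  refine poly_best hob (Poly.filter (Poly.map (poly_brn N hK hn (poly_ngs hob)
    (poly_box hn hK hS) p) ?_) ?_)
  · exact poly_conv (hob.comp (Poly.fst Poly.id)) (Poly.snd Poly.id) (hK.comp (Poly.fst Poly.id))
      (hE.comp (Poly.fst Poly.id))
  · exact poly_okB (hn.comp (Poly.fst Poly.id)) (hS.comp (Poly.fst Poly.id)) (Poly.snd Poly.id)

end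

/-! ### Correctness -/

theorem mem_pws {k : ℕ} {w : ℤ} : w ∈ pws k ↔ ∃ i < k, (2 : ℤ) ^ i = w := by
  unfold pws
  simp

theorem grd_spec {Q K : ℕ} (hQ : 1 ≤ Q) {D : ℤ} (h0 : 0 ≤ D) (hD : D ≤ 2 ^ (K + 1)) :
    ∃ w ∈ pws (K + 2), ∃ m < 2 * Q, (m : ℤ) * w ≤ D ∧ (D - m * w) * Q ≤ D := by
  obtain ⟨d, rfl⟩ := Int.eq_ofNat_of_zero_le h0
  by_cases h1 : d < Q
  · refine ⟨1, mem_pws.2 ⟨0, by omega, by simp⟩, d, by omega, by simp, by simp⟩
  · push Not at h1
    set k := Nat.log 2 (d / Q) with hk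
    have h2 : d / Q ≠ 0 := by
      have := Nat.div_pos h1 hQ
      omega
    have h3 : 2 ^ k ≤ d / Q := Nat.pow_log_le_self 2 h2
    have h4 : d / Q < 2 ^ (k + 1) := Nat.lt_pow_succ_log_self (by norm_num) _
    have h5 : 2 ^ k * Q ≤ d := (Nat.le_div_iff_mul_le hQ).1 h3
    have h6 : d < 2 ^ (k + 1) * Q := (Nat.div_lt_iff_lt_mul hQ).1 h4
    have h7 : d ≤ 2 ^ (K + 1) := by exact_mod_cast hD
    have hk' : k < K + 2 := by
      by_contra hcon
      push Not at hcon
      have : 2 ^ (K + 2) ≤ 2 ^ k := Nat.pow_le_pow_right (by norm_num) hcon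
      have h8 : 2 ^ k * 1 ≤ 2 ^ k * Q := Nat.mul_le_mul_left _ hQ
      have h9 : 2 ^ (K + 1) < 2 ^ (K + 2) := Nat.pow_lt_pow_right (by norm_num) (by omega)
      omega
    have hpos : 0 < 2 ^ k := by positivity
    have h8 := Nat.div_add_mod d (2 ^ k)
    have h9 := Nat.mod_lt d hpos
    refine ⟨2 ^ k, mem_pws.2 ⟨k, hk', rfl⟩, d / 2 ^ k, ?_, ?_, ?_⟩
    · rw [Nat.div_lt_iff_lt_mul hpos]
      calc d < 2 ^ (k + 1) * Q := h6
        _ = 2 * Q * 2 ^ k := by rw [pow_succ]; ring
    · have : d / 2 ^ k * 2 ^ k ≤ d := Nat.div_mul_le_self _ _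
      exact_mod_cast this
    · have e : (d : ℤ) - ((d / 2 ^ k : ℕ) : ℤ) * 2 ^ k = ((d % 2 ^ k : ℕ) : ℤ) := by
        have : (d : ℤ) = ((2 ^ k * (d / 2 ^ k) + d % 2 ^ k : ℕ) : ℤ) := by rw [h8]
        push_cast at this ⊢
        linarith
      rw [e]
      have : d % 2 ^ k * Q ≤ d := le_trans (Nat.mul_le_mul_right _ h9.le) h5
      exact_mod_cast this

theorem sol_append {n : ℕ} {S S' : List Row} {z : Fin n → ℤ} :
    z ∈ Sol n (S ++ S') ↔ z ∈ Sol n S ∧ ∀ q ∈ S', dz (vz n q.1) z ≤ q.2 := by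
  unfold Sol
  simp only [Set.mem_ofPred_eq, List.mem_append, or_imp, forall_and]

/-- maximal values of coordinates -/
theorem mx_spec {n K : ℕ} {R : Set (Fin n → ℤ)} (hR : Um R) {S : List Row}
    (hS : ∀ q ∈ S, vz n q.1 ∈ R) (hne : (Sol n S).Nonempty)
    (hbox : ∀ z ∈ Sol n S, ∀ j, |z j| ≤ 2 ^ K) (i : Fin n) :
    (∃ z ∈ Sol n S, z i = mx n K S i) ∧ ∀ z ∈ Sol n S, z i ≤ mx n K S i := by
  refine bs_max (Z := Sol n S) (φ := fun z => z i) (E := K + 1) ?_ hne ?_
  · intro M
    rw [lp0_iff hR]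
    · constructor
      · rintro ⟨z, hz⟩
        refine ⟨z, fun q hq => hz q (List.mem_cons_of_mem _ hq), ?_⟩
        have := hz _ List.mem_cons_self
        rw [dz_sing le_rfl i.2] at this
        simp only at this
        linarith
      · rintro ⟨z, hz, hM⟩
        refine ⟨z, fun q hq => ?_⟩
        rcases List.mem_cons.1 hq with h | h
        · rw [h, dz_sing le_rfl i.2]
          simp only
          linarith
        · exact hz q h
    · intro q hq
      rcases List.mem_cons.1 hq with h | h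
      · rw [h]
        exact sing_mem hR le_rfl i.2 (Or.inr rfl)
      · exact hS q h
  · intro z hz
    refine (hbox z hz i).trans_lt ?_
    exact pow_lt_pow_right₀ (by norm_num) (by omega)

/-- the good branch -/
theorem brn_spec {n K N : ℕ} {R : Set (Fin n → ℤ)} (hR : Um R) {q h : Fin n → ℤ}
    {S0 : List Row} (hS0 : ∀ q ∈ S0, vz n q.1 ∈ R) (hbox : ∀ z ∈ Sol n S0, ∀ j, |z j| ≤ 2 ^ K)
    (hN : 1 ≤ N) {idx : List ℕ} (hidx : ∀ i ∈ idx, i < n) {m M : ℤ}
    (hf : ∀ x ∈ Sol n S0, m ≤ qf q h x ∧ qf q h x ≤ M) {xs : Fin n → ℤ} (hxs : xs ∈ Sol n S0)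
    (k : ℕ) : ∃ S' ∈ brn N K n idx k S0, (∀ q ∈ S', vz n q.1 ∈ R) ∧ Sol n S' ⊆ Sol n S0 ∧
      (∀ j : Fin n, (∃ l < k, l < idx.length ∧ idx.getD l 0 = j) →
        ∀ x ∈ Sol n S', ∀ y ∈ Sol n S', x j = y j) ∧
      ∃ x ∈ Sol n S', N * (qf q h x - qf q h xs) ≤ k * (M - m) := by
  have hmM : 0 ≤ M - m := by
    have := hf xs hxs
    linarith [this.1, this.2]
  induction k with
  | zero =>
    refine ⟨S0, List.mem_singleton.2 rfl, hS0, le_rfl, ?_, xs, hxs, ?_⟩
    · rintro j ⟨l, hl, _⟩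
      omega
    · simp
  | succ k ih =>
    obtain ⟨S', hS', h1, h2, h3, x, hx, h4⟩ := ih
    unfold brn
    by_cases hk : k < idx.length
    · have hi : idx.getD k 0 < n := by
        rw [List.getD_eq_getElem _ _ hk]
        exact hidx _ (List.getElem_mem hk)
      set i : Fin n := ⟨idx.getD k 0, hi⟩ with hidef
      have hbox' : ∀ z ∈ Sol n S', ∀ j, |z j| ≤ 2 ^ K := fun z hz => hbox z (h2 hz)
      obtain ⟨⟨y, hy, hyi⟩, hmax⟩ := mx_spec hR h1 ⟨x, hx⟩ hbox' i
      have hn : 0 < n := Fin.pos i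
      set Q := 19 * N * (n + S'.length) with hQ
      have hQ1 : 1 ≤ Q := by
        rw [hQ]
        have : 0 < 19 * N * (n + S'.length) := by positivity
        omega
      have hD0 : 0 ≤ y i - x i := by
        have := hmax x hx
        rw [hyi]
        linarith
      have hD1 : y i - x i ≤ 2 ^ (K + 1) := by
        have e1 := (abs_le.1 (hbox' x hx i)).1
        have e2 := (abs_le.1 (hbox' y hy i)).2
        rw [pow_succ]
        linarith
      obtain ⟨w, hw, m', hm', g1, g2⟩ := grd_spec hQ1 hD0 hD1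
      have hgr := grid hR (W := fun r : Fin S'.length => vz n (S'.get r).1)
        (w := fun r => (S'.get r).2) (fun r => h1 _ (List.get_mem _ _)) (q := q) (h := h)
        (m := m) (M := M) (by
          intro z hz
          rw [← Sol_eq] at hz
          exact hf z (h2 hz)) (x := x) (y := y) (by rw [← Sol_eq]; exact hx)
        (by rw [← Sol_eq]; exact hy) i N hN (t := y i - x i - m' * w) (by linarith) (by
          rw [Fintype.card_fin]
          have e : ((Q : ℕ) : ℤ) = 19 * N * (n + S'.length) := by rw [hQ]; push_cast; ring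
          rw [e] at g2
          exact g2)
      obtain ⟨x', hx', hxi', hx''⟩ := hgr
      rw [← Sol_eq] at hx'
      have hxi : x' i = mx n K S' i - m' * w := by rw [hxi', ← hyi]; ring
      refine ⟨S' ++ rng n i (mx n K S' i - m' * w) (mx n K S' i - m' * w), ?_, ?_, ?_, ?_,
        x', ?_, ?_⟩
      · rw [List.mem_flatMap]
        refine ⟨S', hS', ?_⟩
        rw [if_pos hk]
        unfold stp
        rw [List.mem_map]
        refine ⟨m' * w, ?_, rfl⟩
        unfold grd
        rw [List.mem_flatMap]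
        refine ⟨w, hw, ?_⟩
        rw [List.mem_map]
        exact ⟨m', List.mem_range.2 hm', rfl⟩
      · intro q' hq'
        rcases List.mem_append.1 hq' with h | h
        · exact h1 q' h
        · exact (rng_XR hR le_rfl i.2 _ _ q' h).1
      · intro z hz
        exact h2 (sol_append.1 hz).1
      · rintro j ⟨l, hl, hl', hlj⟩ z hz z' hz'
        rw [sol_append] at hz hz'
        rcases Nat.lt_succ_iff_lt_or_eq.1 hl with h | h
        · exact h3 j ⟨l, h, hl', hlj⟩ z hz.1 z' hz'.1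
        · have hj : j = i := Fin.ext (by rw [← hlj, h])
          rw [hj]
          have e1 := (rng_iff le_rfl i.2 _ _ z).1 hz.2
          have e2 := (rng_iff le_rfl i.2 _ _ z').1 hz'.2
          have e1' : z i = mx n K S' i - m' * w := le_antisymm e1.2 e1.1
          have e2' : z' i = mx n K S' i - m' * w := le_antisymm e2.2 e2.1
          rw [e1', e2']
      · rw [sol_append]
        exact ⟨hx', (rng_iff le_rfl i.2 _ _ x').2 ⟨hxi.ge, hxi.le⟩⟩
      · push_cast
        linarith
    · refine ⟨S', ?_, h1, h2, ?_, x, hx, ?_⟩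
      · rw [List.mem_flatMap]
        exact ⟨S', hS', by rw [if_neg hk]; exact List.mem_singleton.2 rfl⟩
      · rintro j ⟨l, hl, hl', hlj⟩
        exact h3 j ⟨l, by omega, hl', hlj⟩
      · push_cast
        linarith

/-- the coefficients of the objective function -/
def qa (ob : List (ℤ × ℤ)) (j : Fin ob.length) : ℤ := (ob.get j).1
def la (ob : List (ℤ × ℤ)) (j : Fin ob.length) : ℤ := (ob.get j).2

theorem getD_fin (ob : List (ℤ × ℤ)) (j : Fin ob.length) : ob.getD j (0, 0) = ob.get j := by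
  rw [List.getD_eq_getElem _ _ j.2]
  rfl

theorem sum_range_list (n : ℕ) (f : ℕ → ℤ) :
    ((List.range n).map f).sum = ∑ j : Fin n, f j := by
  rw [← Finset.sum_range]
  induction n with
  | zero => simp
  | succ n ih => rw [List.range_succ, List.map_append, List.sum_append, ih,
      Finset.sum_range_succ]; simp

theorem val_eq (ob : List (ℤ × ℤ)) (x : List ℤ) :
    val ob x = qf (qa ob) (la ob) (vz ob.length x) := by
  unfold val qf
  rw [sum_range_list]
  refine Finset.sum_congr rfl fun j _ => ?_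
  rw [getD_fin]
  rfl

theorem okB_iff (n : ℕ) (S : List Row) (x : List ℤ) : okB n S x = true ↔ vz n x ∈ Sol n S := by
  unfold okB Sol
  rw [List.all_eq_true]
  simp only [decide_eq_true_eq, sum_range_list]
  rfl

theorem conv_len (ob : List (ℤ × ℤ)) (S : List Row) (K E : ℕ) :
    (conv ob S K E).length = ob.length := by
  unfold conv
  have : pws (K + 1) = 2 ^ K :: pws K := by
    simp [pws, List.range_succ]
  rw [this, List.foldl_cons]
  have key : ∀ (L : List ℤ) (x0 : List ℤ), x0.length = ob.length →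
      (L.foldl (fun x w => phase ob S (2 * (ob.length + S.length)) E w x) x0).length =
        ob.length := by
    intro L
    induction L with
    | nil => intro x0 h; exact h
    | cons w L ih =>
      intro x0 _
      rw [List.foldl_cons]
      exact ih _ (extr_spec0 _ _ _).1
  exact key _ _ (extr_spec0 _ _ _).1

theorem best_none {ob : List (ℤ × ℤ)} {L : List (List ℤ)} (h : L = []) : best ob L = none := by
  rw [h]; rfl

theorem best_some {ob : List (ℤ × ℤ)} {L : List (List ℤ)} (h : L ≠ []) :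
    ∃ x ∈ L, best ob L = some x ∧ ∀ y ∈ L, val ob x ≤ val ob y := by
  have h1 : (L.filter fun x => L.all fun y => decide (val ob x ≤ val ob y)) ≠ [] := by
    obtain ⟨x0, hx0⟩ := List.exists_mem_of_ne_nil L h
    obtain ⟨x, hx, hx'⟩ := L.toFinset.exists_min_image (val ob) ⟨x0, List.mem_toFinset.2 hx0⟩
    apply List.ne_nil_of_mem (a := x)
    rw [List.mem_filter]
    refine ⟨List.mem_toFinset.1 hx, ?_⟩
    rw [List.all_eq_true]
    intro y hy
    exact decide_eq_true (hx' y (List.mem_toFinset.2 hy))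
  obtain ⟨x, l, hxl⟩ := List.exists_cons_of_ne_nil h1
  have h2 : x ∈ L.filter fun x => L.all fun y => decide (val ob x ≤ val ob y) := by
    rw [hxl]; exact List.mem_cons_self
  rw [List.mem_filter, List.all_eq_true] at h2
  refine ⟨x, h2.1, ?_, fun y hy => of_decide_eq_true (h2.2 y hy)⟩
  unfold best
  rw [hxl]
  rfl

theorem sum_get {β : Type} (S : List β) (f : β → ℕ) :
    ∑ r : Fin S.length, f (S.get r) = (S.map f).sum := by
  induction S with
  | nil => simp
  | cons a S ih =>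
    rw [List.map_cons, List.sum_cons, ← ih]
    exact Fin.sum_univ_succ (n := S.length) (fun r => f ((a :: S).get r))

theorem sum_le_l1 : ∀ (l : List ℤ) (n : ℕ), ∑ j : Fin n, (l.getD j 0).natAbs ≤ l1 l := by
  intro l
  induction l with
  | nil => intro n; simp
  | cons a l ih =>
    intro n
    cases n with
    | zero => simp
    | succ n =>
      rw [Fin.sum_univ_succ]
      have h := ih n
      have e : l1 (a :: l) = a.natAbs + l1 l := by simp [l1]
      rw [e]
      simpa using h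

theorem dz_bound {n : ℕ} (l : List ℤ) (x : Fin n → ℤ) {B : ℕ} (hx : ∀ i, (x i).natAbs ≤ B) :
    (dz (vz n l) x).natAbs ≤ l1 l * B := by
  unfold dz
  calc (∑ j, vz n l j * x j).natAbs ≤ ∑ j, (vz n l j * x j).natAbs :=
        Int.natAbs_sum_le _ _
    _ ≤ ∑ j : Fin n, (l.getD j 0).natAbs * B := by
        refine Finset.sum_le_sum fun j _ => ?_
        rw [Int.natAbs_mul]
        exact Nat.mul_le_mul_left _ (hx j)
    _ = (∑ j : Fin n, (l.getD j 0).natAbs) * B := by rw [Finset.sum_mul]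
    _ ≤ l1 l * B := Nat.mul_le_mul_right _ (sum_le_l1 l n)

theorem sol_box {n K : ℕ} {S : List Row} {z : Fin n → ℤ} :
    z ∈ Sol n (box n K S) ↔ z ∈ Sol n S ∧ ∀ j, |z j| ≤ 2 ^ K := by
  unfold box
  rw [sol_append]
  refine and_congr Iff.rfl ?_
  constructor
  · intro h j
    have := (rng_iff le_rfl j.2 (-2 ^ K) (2 ^ K) z).1 fun q hq =>
      h q (List.mem_flatMap.2 ⟨j, List.mem_range.2 j.2, hq⟩)
    exact abs_le.2 this
  · intro h q hq
    rw [List.mem_flatMap] at hq
    obtain ⟨j, hj, hq⟩ := hq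
    rw [List.mem_range] at hj
    exact (rng_iff le_rfl hj (-2 ^ K) (2 ^ K) z).2 (abs_le.1 (h ⟨j, hj⟩)) q hq

theorem box_R {n K : ℕ} {R : Set (Fin n → ℤ)} (hR : Um R) {S : List Row}
    (hS : ∀ q ∈ S, vz n q.1 ∈ R) : ∀ q ∈ box n K S, vz n q.1 ∈ R := by
  intro q hq
  unfold box at hq
  rcases List.mem_append.1 hq with h | h
  · exact hS q h
  · rw [List.mem_flatMap] at h
    obtain ⟨j, hj, h⟩ := h
    rw [List.mem_range] at hj
    exact (rng_XR hR le_rfl hj _ _ q h).1

theorem bK_spec (S : List Row) :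
    (2 + (S.map fun q => l1 q.1).sum) * l1 (S.map fun q => q.2) + 1 ≤ 2 ^ bK S :=
  (Nat.lt_size_self _).le

theorem l1_rhs (S : List Row) : l1 (S.map fun q => q.2) = ∑ r : Fin S.length, ((S.get r).2).natAbs := by
  unfold l1
  rw [List.map_map, ← sum_get]
  rfl

/-- a feasible system has a solution in the box -/
theorem box_small {n : ℕ} {R : Set (Fin n → ℤ)} (hR : Um R) {S : List Row}
    (hS : ∀ q ∈ S, vz n q.1 ∈ R) (hne : (Sol n S).Nonempty) :
    ∃ x ∈ Sol n (box n (bK S) S), ∀ i, (x i).natAbs ≤ l1 (S.map fun q => q.2) := by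
  rw [Sol_eq] at hne
  obtain ⟨x, hx, hx'⟩ := exists_small hR (W := fun r : Fin S.length => vz n (S.get r).1)
    (w := fun r => (S.get r).2) (fun r => hS _ (List.get_mem _ _)) hne
  rw [← Sol_eq] at hx
  rw [← l1_rhs] at hx'
  refine ⟨x, sol_box.2 ⟨hx, fun j => ?_⟩, hx'⟩
  have h1 := hx' j
  have h2 := bK_spec S
  have h3 : l1 (S.map fun q => q.2) ≤
      (2 + (S.map fun q => l1 q.1).sum) * l1 (S.map fun q => q.2) :=
    Nat.le_mul_of_pos_left _ (by omega)
  have h4 : (x j).natAbs ≤ 2 ^ bK S := by omega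
  rw [Int.abs_eq_natAbs]
  exact_mod_cast h4

/-- if the function is bounded, every value is attained in the box -/
theorem box_near {n : ℕ} {R : Set (Fin n → ℤ)} (hR : Um R) {S : List Row}
    (hS : ∀ q ∈ S, vz n q.1 ∈ R) {q h : Fin n → ℤ} {m M : ℤ}
    (hf : ∀ x ∈ Sol n S, m ≤ qf q h x ∧ qf q h x ≤ M) {xs : Fin n → ℤ} (hxs : xs ∈ Sol n S) :
    ∃ x ∈ Sol n (box n (bK S) S), qf q h x = qf q h xs := by
  obtain ⟨x0, hx0, hx0'⟩ := box_small hR hS ⟨xs, hxs⟩
  obtain ⟨x, hx, hx', hx''⟩ := exists_near hR (W := fun r : Fin S.length => vz n (S.get r).1)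
    (w := fun r => (S.get r).2) (fun r => hS _ (List.get_mem _ _)) (q := q) (h := h) (m := m)
    (M := M) (by rw [← Sol_eq]; exact hf) (x0 := x0) (xs := xs)
    (by rw [← Sol_eq]; exact (sol_box.1 hx0).1) (by rw [← Sol_eq]; exact hxs)
  rw [← Sol_eq] at hx
  refine ⟨x, sol_box.2 ⟨hx, fun j => ?_⟩, hx'⟩
  have h1 := hx'' j
  rw [Finset.sum_add_distrib, ← l1_rhs] at h1
  have h2 : ∑ r : Fin S.length, (dz (vz n (S.get r).1) x0).natAbs ≤
      (S.map fun q => l1 q.1).sum * l1 (S.map fun q => q.2) := by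
    rw [← sum_get S (fun q => l1 q.1), Finset.sum_mul]
    exact Finset.sum_le_sum fun r _ => dz_bound _ _ hx0'
  have h3 := hx0' j
  have h4 := bK_spec S
  have h5 : (x j).natAbs ≤ 2 ^ bK S := by
    have h6 : (x j).natAbs ≤ (x j - x0 j).natAbs + (x0 j).natAbs := by omega
    have h7 : (2 + (S.map fun q => l1 q.1).sum) * l1 (S.map fun q => q.2) =
        2 * l1 (S.map fun q => q.2) +
          (S.map fun q => l1 q.1).sum * l1 (S.map fun q => q.2) := by ring
    omega
  rw [Int.abs_eq_natAbs]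
  exact_mod_cast h5

theorem bE_spec (ob : List (ℤ × ℤ)) (K : ℕ) :
    ∑ j, 11 * (|cqf ob j| + |clf ob j|) * (2 ^ K) ^ 2 < 2 ^ bE ob K := by
  have h1 : ∀ j, |cqf ob j| + |clf ob j| ≤
      (((ob.get j).1.natAbs + (ob.get j).2.natAbs : ℕ) : ℤ) := by
    intro j
    unfold cqf clf cq
    rw [getD_fin]
    split_ifs
    · simp only [abs_zero, add_zero]
      exact Int.natCast_nonneg _
    · push_cast
      exact le_rfl
  have h2 : ∑ j, (|cqf ob j| + |clf ob j|) ≤
      (((ob.map fun c => c.1.natAbs + c.2.natAbs).sum : ℕ) : ℤ) := by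
    rw [← sum_get ob (fun c => c.1.natAbs + c.2.natAbs)]
    push_cast
    refine Finset.sum_le_sum fun j _ => ?_
    have := h1 j
    push_cast at this
    exact this
  set L := (ob.map fun c => c.1.natAbs + c.2.natAbs).sum with hL
  have h3 : 11 * L < 2 ^ (11 * L).size := Nat.lt_size_self _
  have h4 : ((11 * L : ℕ) : ℤ) < 2 ^ (11 * L).size := by exact_mod_cast h3
  have e : ∑ j, 11 * (|cqf ob j| + |clf ob j|) * (2 ^ K) ^ 2 =
      11 * (∑ j, (|cqf ob j| + |clf ob j|)) * (2 ^ K) ^ 2 := by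
    rw [Finset.mul_sum, Finset.sum_mul]
  have e2 : (2 : ℤ) ^ bE ob K = (2 ^ K) ^ 2 * 2 ^ (11 * L).size * 2 := by
    unfold bE
    rw [← hL]
    ring
  rw [e, e2]
  have hp : (0 : ℤ) < (2 ^ K) ^ 2 := by positivity
  have hp2 : (0 : ℤ) < 2 ^ (11 * L).size := by positivity
  push_cast at h4
  calc 11 * (∑ j, (|cqf ob j| + |clf ob j|)) * (2 ^ K) ^ 2
      ≤ 11 * (L : ℤ) * (2 ^ K) ^ 2 := mul_le_mul_of_nonneg_right (by linarith) hp.le
    _ < 2 ^ (11 * L).size * (2 ^ K) ^ 2 := mul_lt_mul_of_pos_right h4 hp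
    _ ≤ (2 ^ K) ^ 2 * 2 ^ (11 * L).size * 2 := by nlinarith [mul_pos hp hp2]

theorem mem_ngs {ob : List (ℤ × ℤ)} {j : Fin ob.length} : j.1 ∈ ngs ob ↔ qa ob j < 0 := by
  unfold ngs
  rw [List.mem_filter, List.mem_range, decide_eq_true_eq, getD_fin]
  exact ⟨fun h => h.2, fun h => ⟨j.2, h⟩⟩

/-- the good candidate -/
theorem good {ob : List (ℤ × ℤ)} {R : Set (Fin ob.length → ℤ)} (hR : Um R) {S : List Row}
    (hS : ∀ q ∈ S, vz ob.length q.1 ∈ R) {p N : ℕ} (hp : (ngs ob).length ≤ p) (hN : 1 ≤ N)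
    {m M : ℤ} (hf : ∀ x ∈ Sol ob.length (box ob.length (bK S) S),
      m ≤ qf (qa ob) (la ob) x ∧ qf (qa ob) (la ob) x ≤ M) {xs : Fin ob.length → ℤ}
    (hxs : xs ∈ Sol ob.length (box ob.length (bK S) S)) :
    ∃ y ∈ cnd p N ob S,
      N * (val ob y - qf (qa ob) (la ob) xs) ≤ p * (M - m) := by
  have hbox : ∀ z ∈ Sol ob.length (box ob.length (bK S) S), ∀ j, |z j| ≤ 2 ^ bK S :=
    fun z hz => (sol_box.1 hz).2
  obtain ⟨S', hS', h1, h2, h3, x, hx, h4⟩ := brn_spec hR (box_R (K := bK S) hR hS) hbox hN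
    (idx := ngs ob) (fun i hi => by
      unfold ngs at hi
      rw [List.mem_filter, List.mem_range] at hi
      exact hi.1) hf hxs p
  obtain ⟨g1, g2⟩ := conv_spec hR h1 (K := bK S) (E := bE ob (bK S)) ⟨x, hx⟩
    (fun z hz => hbox z (h2 hz)) (by unfold bE; omega) (bE_spec ob (bK S))
  refine ⟨conv ob S' (bK S) (bE ob (bK S)), ?_, ?_⟩
  · unfold cnd
    rw [List.mem_filter]
    refine ⟨List.mem_map.2 ⟨S', hS', rfl⟩, ?_⟩
    rw [okB_iff]
    exact (sol_box.1 (h2 g1)).1
  · rw [val_eq]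
    set y := vz ob.length (conv ob S' (bK S) (bE ob (bK S))) with hy
    have hle := g2 x hx
    have hfix : ∀ j, qa ob j < 0 → y j = x j := by
      intro j hj
      refine h3 j ?_ y g1 x hx
      obtain ⟨l, hl, hl'⟩ := List.mem_iff_getElem.1 (mem_ngs.2 hj)
      exact ⟨l, by omega, hl, by rw [List.getD_eq_getElem _ _ hl]; exact hl'⟩
    have hdiff : qf (qa ob) (la ob) y - qf (qa ob) (la ob) x =
        qf (cqf ob) (clf ob) y - qf (cqf ob) (clf ob) x := by
      unfold qf
      rw [← Finset.sum_sub_distrib, ← Finset.sum_sub_distrib]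
      refine Finset.sum_congr rfl fun j _ => ?_
      by_cases hj : qa ob j < 0
      · rw [hfix j hj]; ring
      · change ¬(ob.get j).1 < 0 at hj
        have e1 : cqf ob j = qa ob j := by
          unfold cqf cq qa
          rw [getD_fin, if_neg hj]
        have e2 : clf ob j = la ob j := by
          unfold clf cq la
          rw [getD_fin, if_neg hj]
        rw [e1, e2]
    have h5 : qf (qa ob) (la ob) y ≤ qf (qa ob) (la ob) x := by linarith
    have h6 : (N : ℤ) * (qf (qa ob) (la ob) y - qf (qa ob) (la ob) xs) ≤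
        N * (qf (qa ob) (la ob) x - qf (qa ob) (la ob) xs) :=
      mul_le_mul_of_nonneg_left (by linarith) (by positivity)
    linarith

/-- infeasible systems -/
theorem alg_none {ob : List (ℤ × ℤ)} {S : List Row} {p N : ℕ} (h : Sol ob.length S = ∅) :
    alg p N ob S = none := by
  apply best_none
  unfold cnd
  rw [List.filter_eq_nil_iff]
  intro x _ hx
  rw [okB_iff, h] at hx
  exact hx

/-- feasible systems -/
theorem alg_some {ob : List (ℤ × ℤ)} {R : Set (Fin ob.length → ℤ)} (hR : Um R) {S : List Row}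
    (hS : ∀ q ∈ S, vz ob.length q.1 ∈ R) {p N : ℕ} (hp : (ngs ob).length ≤ p) (hN : 1 ≤ N)
    (hne : (Sol ob.length S).Nonempty) :
    ∃ x, alg p ((p + 1) * N) ob S = some x ∧ x.length = ob.length ∧
      vz ob.length x ∈ Sol ob.length S ∧ ∀ (m M : ℤ), (∀ z ∈ Sol ob.length S,
        m ≤ qf (qa ob) (la ob) z ∧ qf (qa ob) (la ob) z ≤ M) →
        (∃ xs ∈ Sol ob.length S, qf (qa ob) (la ob) xs = m) →
        N * (qf (qa ob) (la ob) (vz ob.length x) - m) ≤ M - m := by
  have hN' : 1 ≤ (p + 1) * N := Nat.mul_pos (by omega) hN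
  have hbox : ∀ z ∈ Sol ob.length (box ob.length (bK S) S), ∀ j, |z j| ≤ 2 ^ bK S :=
    fun z hz => (sol_box.1 hz).2
  have hfin := sol_finite hbox
  obtain ⟨x0, hx0, _⟩ := box_small hR hS hne
  have hcnd : cnd p ((p + 1) * N) ob S ≠ [] := by
    obtain ⟨a, ha, ha'⟩ := Set.exists_min_image _ (qf (qa ob) (la ob)) hfin ⟨x0, hx0⟩
    obtain ⟨b, hb, hb'⟩ := Set.exists_max_image _ (qf (qa ob) (la ob)) hfin ⟨x0, hx0⟩
    obtain ⟨y, hy, _⟩ := good hR hS hp hN' (fun x hx => ⟨ha' x hx, hb' x hx⟩) hx0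
    exact List.ne_nil_of_mem hy
  obtain ⟨x, hx, hx', hx''⟩ := best_some (ob := ob) hcnd
  refine ⟨x, hx', ?_, ?_, ?_⟩
  · unfold cnd at hx
    rw [List.mem_filter, List.mem_map] at hx
    obtain ⟨⟨S', _, hS''⟩, _⟩ := hx
    rw [← hS'']
    exact conv_len _ _ _ _
  · unfold cnd at hx
    rw [List.mem_filter] at hx
    exact (okB_iff _ _ _).1 hx.2
  · rintro m M hf ⟨xs, hxs, hxm⟩
    obtain ⟨xb, hxb, hxb'⟩ := box_near hR hS hf hxs
    obtain ⟨y, hy, hy'⟩ := good hR hS hp hN' (m := m) (M := M)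
      (fun x hx => hf x (sol_box.1 hx).1) hxb
    have h1 := hx'' y hy
    rw [val_eq ob x] at h1
    rw [hxb', hxm] at hy'
    have hmM : 0 ≤ M - m := by
      have := hf xs hxs
      linarith [this.1, this.2]
    have h2 : (((p + 1) * N : ℕ) : ℤ) * (qf (qa ob) (la ob) (vz ob.length x) - m) ≤
        (((p + 1) * N : ℕ) : ℤ) * (val ob y - m) :=
      mul_le_mul_of_nonneg_left (by linarith) (by positivity)
    have h3 : ((p : ℤ) + 1) * (N * (qf (qa ob) (la ob) (vz ob.length x) - m)) ≤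
        ((p : ℤ) + 1) * (M - m) := by
      push_cast at h2 hy'
      nlinarith
    exact le_of_mul_le_mul_left h3 (by positivity)

end Pool.Agent.NPC.W2h57TU
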